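import Mathlib

/-!
Vertex algebras over the complex numbers: definition by the Borcherds identity, first
consequences, Zhu's algebra `R_V = V / C_2(V)` as a commutative ring with a Poisson bracket.
-/

namespace Run7.h206

/-- The binomial coefficient `r (r-1) ... (r-i+1) / i!` of an integer `r`, as a complex number. -/
noncomputable def bc (r : ℤ) (i : ℕ) : ℂ := ((Ring.choose r i : ℤ) : ℂ)

/-- Vertex algebras over `ℂ`.  `nprod n a b` is the `n`-th product `a_(n) b`, so that
`Y(a,z) b = sum_n (a_(n) b) z^(-n-1)`; `vac` is the vacuum vector.  The last axiom is the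
Borcherds (Jacobi) identity in components; all sums in it have finite support. -/
class VertexAlgebra (V : Type*) [AddCommGroup V] [Module ℂ V] where
  nprod : ℤ → V →ₗ[ℂ] V →ₗ[ℂ] V
  vac : V
  trunc : ∀ a b : V, ∃ N : ℤ, ∀ n : ℤ, N ≤ n → nprod n a b = 0
  vac_left : ∀ (n : ℤ) (a : V), nprod n vac a = if n = -1 then a else 0
  vac_right : ∀ a : V, nprod (-1) a vac = a
  vac_right' : ∀ (a : V) (n : ℤ), 0 ≤ n → nprod n a vac = 0
  borcherds : ∀ (a b c : V) (l m n : ℤ),
    ∑ᶠ i : ℕ, bc l i • nprod (l + m - i) (nprod (n + i) a b) c =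
    ∑ᶠ i : ℕ, ((-1 : ℂ) ^ i * bc n i) •
      (nprod (l + n - i) a (nprod (m + i) b c)
        - (-1 : ℂ) ^ n • nprod (m + n - i) b (nprod (l + i) a c))

open VertexAlgebra

theorem bc_zero (r : ℤ) : bc r 0 = 1 := by
  simp [bc]

theorem bc_zero_succ (j : ℕ) : bc 0 (j + 1) = 0 := by
  have : Ring.choose (0 : ℤ) (j + 1) = 0 := Ring.choose_zero_succ ℤ j
  simp [bc, this]

theorem bc_one (r : ℤ) : bc r 1 = r := by
  simp [bc]

theorem bc_neg_one (j : ℕ) : bc (-1) j = (-1) ^ j := by
  induction j with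
  | zero => simp [bc_zero]
  | succ j ih =>
    have h := Ring.choose_succ_succ (-1 : ℤ) j
    have h2 : ((-1 : ℤ) + 1) = 0 := by norm_num
    rw [h2] at h
    have h3 : Ring.choose (0 : ℤ) (j + 1) = 0 := Ring.choose_zero_succ ℤ j
    rw [h3] at h
    have h4 : bc (-1) (j + 1) = - bc (-1) j := by
      unfold bc
      have : Ring.choose (-1 : ℤ) (j + 1) = - Ring.choose (-1 : ℤ) j := by linarith
      rw [this]; push_cast; ring
    rw [h4, ih]; ring

theorem bc_neg_two (j : ℕ) : bc (-2) j = (-1) ^ j * (j + 1) := by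
  induction j with
  | zero => simp [bc_zero]
  | succ j ih =>
    have h := Ring.choose_succ_succ (-2 : ℤ) j
    have h2 : ((-2 : ℤ) + 1) = -1 := by norm_num
    rw [h2] at h
    have h1 : bc (-1) (j + 1) = bc (-2) j + bc (-2) (j + 1) := by
      unfold bc; rw [h]; push_cast; ring
    rw [bc_neg_one, ih] at h1
    have : bc (-2) (j + 1) = (-1) ^ (j + 1) - (-1) ^ j * (j + 1) := by
      rw [h1]; ring
    rw [this]; push_cast; ring

section

variable {V : Type*} [AddCommGroup V] [Module ℂ V] [VertexAlgebra V]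

omit [VertexAlgebra V] in
/-- membership of a finite sum in a submodule -/
theorem finsum_mem_sub {M : Submodule ℂ V} {f : ℕ → V} (h : ∀ i, f i ∈ M) : ∑ᶠ i, f i ∈ M :=
  finsum_induction (fun x => x ∈ M) M.zero_mem (fun _ _ => M.add_mem) h

omit [Module ℂ V] [VertexAlgebra V] in
/-- a finite sum of modes starting with its zeroth term -/
theorem finsum_eq_zero_add {f : ℕ → V} (hf : (Function.support f).Finite) :
    ∑ᶠ i, f i = f 0 + ∑ᶠ i, f (i + 1) := by
  obtain ⟨N, hN⟩ : ∃ N : ℕ, ∀ i, N ≤ i → f i = 0 := by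
    obtain ⟨N, hN⟩ := hf.bddAbove
    refine ⟨N + 1, fun i hi => ?_⟩
    by_contra h
    have := hN (show i ∈ Function.support f from h)
    omega
  have h1 : ∑ᶠ i, f i = ∑ i ∈ Finset.range (N + 1), f i := by
    apply finsum_eq_sum_of_support_subset
    intro i hi
    simp only [Finset.coe_range, Set.mem_Iio]
    by_contra h
    exact hi (hN i (by omega))
  have h2 : ∑ᶠ i, f (i + 1) = ∑ i ∈ Finset.range N, f (i + 1) := by
    apply finsum_eq_sum_of_support_subset
    intro i hi
    simp only [Finset.coe_range, Set.mem_Iio]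
    by_contra h
    exact hi (hN (i + 1) (by omega))
  rw [h1, h2, Finset.sum_range_succ']
  abel

/-- the commutator formula -/
theorem comm (a b c : V) (l m : ℤ) :
    nprod l a (nprod m b c) - nprod m b (nprod l a c) =
      ∑ᶠ i : ℕ, bc l i • nprod (l + m - i) (nprod i a b) c := by
  have h := borcherds a b c l m 0
  have h2 : ∑ᶠ i : ℕ, ((-1 : ℂ) ^ i * bc 0 i) •
      (nprod (l + 0 - i) a (nprod (m + i) b c)
        - (-1 : ℂ) ^ (0 : ℤ) • nprod (m + 0 - i) b (nprod (l + i) a c)) =
      nprod l a (nprod m b c) - nprod m b (nprod l a c) := by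
    rw [finsum_eq_single _ 0]
    · simp [bc_zero]
    · intro i hi
      obtain ⟨j, rfl⟩ := Nat.exists_eq_succ_of_ne_zero hi
      simp [bc_zero_succ]
  rw [h2] at h
  rw [← h]
  simp

/-- the iterate formula -/
theorem iter (a b c : V) (n m : ℤ) :
    nprod m (nprod n a b) c =
      ∑ᶠ i : ℕ, ((-1 : ℂ) ^ i * bc n i) •
      (nprod (n - i) a (nprod (m + i) b c)
        - (-1 : ℂ) ^ n • nprod (m + n - i) b (nprod (i : ℤ) a c)) := by
  have h := borcherds a b c 0 m n
  have h2 : ∑ᶠ i : ℕ, bc 0 i • nprod (0 + m - i) (nprod (n + i) a b) c =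
      nprod m (nprod n a b) c := by
    rw [finsum_eq_single _ 0]
    · simp [bc_zero]
    · intro i hi
      obtain ⟨j, rfl⟩ := Nat.exists_eq_succ_of_ne_zero hi
      simp [bc_zero_succ]
  rw [h2] at h
  rw [h]
  simp

/-- skew-symmetry -/
theorem skew (a b : V) (n : ℤ) :
    nprod n b a = - (-1 : ℂ) ^ n • ∑ᶠ i : ℕ, (-1 : ℂ) ^ i • nprod (-1 - i) (nprod (n + i) a b) (vac : V)
    := by
  have h := borcherds a b (vac : V) (-1) 0 n
  have h2 : ∑ᶠ i : ℕ, ((-1 : ℂ) ^ i * bc n i) •
      (nprod (-1 + n - i) a (nprod (0 + i) b (vac : V))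
        - (-1 : ℂ) ^ n • nprod (0 + n - i) b (nprod (-1 + i) a (vac : V))) =
      - (-1 : ℂ) ^ n • nprod n b a := by
    rw [finsum_eq_single _ 0]
    · simp [bc_zero, vac_right, vac_right']
    · intro i hi
      obtain ⟨j, rfl⟩ := Nat.exists_eq_succ_of_ne_zero hi
      rw [vac_right' b _ (by positivity), vac_right' a _ (by push_cast; omega)]
      simp
  rw [h2] at h
  have h3 : ∑ᶠ i : ℕ, bc (-1) i • nprod (-1 + 0 - i) (nprod (n + i) a b) (vac : V) =
      ∑ᶠ i : ℕ, (-1 : ℂ) ^ i • nprod (-1 - i) (nprod (n + i) a b) (vac : V) := by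
    simp [bc_neg_one]
  rw [h3] at h
  rw [h, smul_smul]
  have : (-(-1 : ℂ) ^ n * -(-1 : ℂ) ^ n) = 1 := by
    rw [neg_mul_neg, ← mul_zpow]; simp
  rw [this, one_smul]

variable (V) in
/-- the translation operator `T a = a_(-2) 1` -/
noncomputable def T : V →ₗ[ℂ] V := (nprod (-2)).flip (vac : V)

theorem T_apply (a : V) : T V a = nprod (-2) a (vac : V) := rfl

theorem T_mode (a c : V) (n : ℤ) : nprod n (T V a) c = (-(n : ℂ)) • nprod (n - 1) a c := by
  rw [T_apply, iter]
  have hev : (-1 : ℂ) ^ (-2 : ℤ) = 1 := by norm_num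
  simp only [hev, one_smul, bc_neg_two]
  rcases lt_trichotomy n 0 with hn | hn | hn
  · obtain ⟨k, hk⟩ : ∃ k : ℕ, n = -1 - k := ⟨(-1 - n).toNat, by omega⟩
    subst hk
    rw [finsum_eq_single _ k]
    · rw [vac_left, vac_left, if_pos (by ring), if_neg (by omega)]
      have e1 : (-2 - (k : ℤ)) = -1 - k - 1 := by ring
      rw [e1, sub_zero]
      congr 1
      push_cast
      have : ((-1 : ℂ) ^ k * ((-1) ^ k * (k + 1))) = ((-1) ^ k * (-1) ^ k) * (k + 1) := by ring
      rw [this, ← mul_pow]; ring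
    · intro i hi
      rw [vac_left, vac_left, if_neg (by omega), if_neg (by omega)]
      simp
  · subst hn
    rw [finsum_eq_zero_of_forall_eq_zero]
    · simp
    · intro i
      rw [vac_left, vac_left, if_neg (by omega), if_neg (by omega)]
      simp
  · obtain ⟨k, hk⟩ : ∃ k : ℕ, n = k + 1 := ⟨(n - 1).toNat, by omega⟩
    subst hk
    rw [finsum_eq_single _ k]
    · rw [vac_left, vac_left, if_neg (by omega), if_pos (by ring)]
      have e1 : ((k : ℤ) + 1 - 1) = k := by ring
      rw [e1, map_zero, zero_sub, smul_neg, ← neg_smul]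
      congr 1
      push_cast
      have : ((-1 : ℂ) ^ k * ((-1) ^ k * (k + 1))) = ((-1) ^ k * (-1) ^ k) * (k + 1) := by ring
      rw [this, ← mul_pow]; simp
    · intro i hi
      rw [vac_left, vac_left, if_neg (by omega), if_neg (by omega)]
      simp

theorem T_vac : T V (vac : V) = 0 := by
  rw [T_apply, vac_left]; simp

end

end Run7.h206
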