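import Pool.Agent.Run7.h206.Sl2m

/-!
For a quasi-lisse vertex algebra with a finite moment map to `(sl_2^*)^m` the Casimir elements are
nilpotent in `R_V`; irreducibility of the associated variety.
-/

namespace Run7.h206

open VertexAlgebra

section unit

variable {S : Type*} [CommRing S] [Algebra ℂ S]

/-- In a graded algebra, `w - l` with `w` homogeneous of non-zero weight and `l ≠ 0` is not a unit
unless `w` is nilpotent. -/
theorem nilpotent_of_unit (E : Derivation ℂ S S)
    (hE : ⨆ μ : ℂ, Module.End.eigenspace (E : S →ₗ[ℂ] S) μ = ⊤) {w : S} {κ l : ℂ} (hκ : κ ≠ 0)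
    (hl : l ≠ 0) (hw : E w = κ • w) {r : S} (hr : (w - algebraMap ℂ S l) * r = 1) :
    IsNilpotent w := by
  classical
  obtain ⟨π, h1, h2, h3, h4⟩ := exists_proj (E : S →ₗ[ℂ] S) hE
  have hmulE : ∀ μ : ℂ, ∀ x ∈ Module.End.eigenspace (E : S →ₗ[ℂ] S) μ,
      w * x ∈ Module.End.eigenspace (E : S →ₗ[ℂ] S) (μ + κ) := by
    intro μ x hx
    rw [Module.End.mem_eigenspace_iff] at hx ⊢
    change E (w * x) = _
    change E x = _ at hx
    rw [Derivation.leibniz, hx, hw, smul_eq_mul, smul_eq_mul, mul_smul_comm, mul_smul_comm,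
      mul_comm x, ← add_smul]
  have hπmul : ∀ (μ : ℂ) (x : S), π μ (w * x) = w * π (μ - κ) x := by
    intro μ x
    obtain ⟨s, hs1, hs2⟩ := h4 x
    have e1 : π μ (w * x) = ∑ ν ∈ s, π μ (w * π ν x) := by
      conv_lhs => rw [← hs2]
      rw [Finset.mul_sum, map_sum]
    rw [e1]
    by_cases hμ : μ - κ ∈ s
    · rw [Finset.sum_eq_single_of_mem _ hμ]
      · have := hmulE _ _ (h3 (μ - κ) x)
        rw [sub_add_cancel] at this
        exact h1 _ _ this
      · intro ν _ hν
        refine h2 _ _ _ ?_ (hmulE _ _ (h3 ν x))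
        intro h
        exact hν (by rw [h]; ring)
    · rw [hs1 _ hμ, mul_zero]
      refine Finset.sum_eq_zero fun ν hν => h2 _ _ _ ?_ (hmulE _ _ (h3 ν x))
      intro h
      apply hμ
      rw [h, add_sub_cancel_right]; exact hν
  have hone : (1 : S) ∈ Module.End.eigenspace (E : S →ₗ[ℂ] S) 0 := by
    rw [Module.End.mem_eigenspace_iff]
    change E 1 = _
    simp
  have hrec : ∀ μ : ℂ, w * π (μ - κ) r - l • π μ r = π μ 1 := by
    intro μ
    rw [← hr, sub_mul, map_sub, hπmul, ← Algebra.smul_def, map_smul]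
  obtain ⟨s, hs1, _⟩ := h4 r
  have hinj : Function.Injective (fun j : ℤ => (j * κ : ℂ)) := by
    intro a b hab
    have := mul_right_cancel₀ hκ hab
    exact_mod_cast this
  obtain ⟨J, hJ⟩ : ∃ J : ℕ, ∀ j : ℤ, (J : ℤ) ≤ |j| → π (j * κ) r = 0 := by
    set T := s.preimage (fun j : ℤ => (j * κ : ℂ)) hinj.injOn with hT
    refine ⟨∑ j ∈ T, j.natAbs + 1, fun j hj => hs1 _ fun hjs => ?_⟩
    have hjT : j ∈ T := Finset.mem_preimage.2 hjs
    have := Finset.single_le_sum (f := fun j : ℤ => j.natAbs) (fun _ _ => Nat.zero_le _) hjT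
    rw [Int.abs_eq_natAbs] at hj
    omega
  have hzero : ∀ j : ℤ, j ≠ 0 → π (j * κ) (1 : S) = 0 := by
    intro j hj
    refine h2 _ 0 _ (mul_ne_zero (by exact_mod_cast hj) hκ) hone
  have hnegk : ∀ k : ℕ, ((k : ℤ) - (J + 1 : ℕ)) < 0 → π ((((k : ℤ) - (J + 1 : ℕ) : ℤ) : ℂ) * κ) r = 0 := by
    intro k
    induction k with
    | zero =>
      intro _
      refine hJ _ ?_
      rw [Int.abs_eq_natAbs]; omega
    | succ k ih =>
      intro hk
      have h5 := hrec (((((k + 1 : ℕ) : ℤ) - (J + 1 : ℕ) : ℤ) : ℂ) * κ)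
      have h6 : (((((k + 1 : ℕ) : ℤ) - (J + 1 : ℕ) : ℤ) : ℂ) * κ) - κ =
          ((((k : ℤ) - (J + 1 : ℕ) : ℤ) : ℂ) * κ) := by push_cast; ring
      rw [h6, ih (by push_cast at hk ⊢; omega), hzero _ (by omega), mul_zero, zero_sub,
        neg_eq_zero] at h5
      exact (smul_eq_zero.1 h5).resolve_left hl
  have hneg : π (-κ) r = 0 := by
    have := hnegk J (by push_cast; omega)
    have e : ((((J : ℤ) - (J + 1 : ℕ) : ℤ) : ℂ) * κ) = -κ := by push_cast; ring
    rwa [e] at this
  have hk : ∀ k : ℕ, l ^ (k + 1) • π (k * κ) r = - w ^ k := by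
    intro k
    induction k with
    | zero =>
      have h5 := hrec 0
      rw [zero_sub, hneg, mul_zero, zero_sub, h1 _ _ hone] at h5
      rw [Nat.cast_zero, zero_mul, zero_add, pow_one, pow_zero, ← h5, neg_neg]
    | succ k ih =>
      have h5 := hrec (((k + 1 : ℕ) : ℂ) * κ)
      have h6 := hzero ((k + 1 : ℕ) : ℤ) (by omega)
      have h7 : (((k + 1 : ℕ) : ℂ) * κ) - κ = k * κ := by push_cast; ring
      rw [Int.cast_natCast] at h6
      rw [h6, h7, sub_eq_zero] at h5
      rw [pow_succ, mul_smul, ← h5, ← mul_smul_comm, ih]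
      ring
  refine ⟨J, ?_⟩
  have h5 := hk J
  have h6 := hJ (J : ℤ) (by simp)
  rw [Int.cast_natCast] at h6
  rw [h6, smul_zero, eq_comm, neg_eq_zero] at h5
  exact h5

end unit

section

variable {V : Type*} [AddCommGroup V] [Module ℂ V] [VertexAlgebra V]
variable {C : ConformalVector V} {ι : Type*}

/-- `L_0` as a Hamiltonian -/
noncomputable def ConformalVector.hamL0 (C : ConformalVector V) : Hamiltonian V where
  H := nprod 1 C.omega
  comm a b n := by
    have h := L0_comm C a b n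
    rw [sub_eq_iff_eq_add] at h
    rw [h, sub_eq_add_neg, ← neg_smul]
    abel
  diagonalizable := C.diagonalizable

/-- A Casimir function that is homogeneous of non-zero weight vanishes on `X_V` when `R_V` has only
finitely many Poisson primes: version modulo a stable prime. -/
theorem poisson_primes_infinite (h : Hamiltonian V) {P : Ideal (RV V)} (hP : P.IsPrime)
    (hPs : Stab (DD h) P) {w : RV V} {κ : ℂ} (hκ : κ ≠ 0) (hw : HR h w = κ • w) (hwP : w ∉ P)
    (hcas : ∀ x, brk x w ∈ P) :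
    {P : Ideal (RV V) | P.IsPrime ∧ IsPoissonIdeal P}.Infinite := by
  classical
  set q : RV V →ₐ[ℂ] RV V ⧸ P := Ideal.Quotient.mkₐ ℂ P with hq
  have hqs : Function.Surjective q := Ideal.Quotient.mkₐ_surjective ℂ P
  have hq0 : ∀ x : RV V, q x = 0 ↔ x ∈ P := fun x => Ideal.Quotient.eq_zero_iff_mem
  have hstab : ∀ i, ∀ x, q x = 0 → q (DD h i x) = 0 := fun i x hx =>
    (hq0 _).2 (hPs i x ((hq0 x).1 hx))
  let E : Derivation ℂ (RV V ⧸ P) (RV V ⧸ P) :=
    Derivation.liftOfSurjective (d := DD h none) hqs (hstab _)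
  have hE : ∀ x, E (q x) = q (HR h x) := fun x =>
    Derivation.liftOfSurjective_apply hqs (hstab _) x
  have hEd : ⨆ μ : ℂ, Module.End.eigenspace (E : (RV V ⧸ P) →ₗ[ℂ] (RV V ⧸ P)) μ = ⊤ := by
    rw [eq_top_iff]
    intro y _
    obtain ⟨x, rfl⟩ := hqs y
    have hx : x ∈ ⨆ μ : ℂ, (HRlin h).eigenspace μ := by rw [HRlin_diag]; trivial
    induction hx using Submodule.iSup_induction' with
    | mem ν x hx =>
      refine Submodule.mem_iSup_of_mem ν ?_
      rw [Module.End.mem_eigenspace_iff] at hx ⊢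
      change E (q x) = _
      rw [hE]
      change q (HRlin h x) = _
      rw [hx, map_smul]
    | zero => simp
    | add a a' _ _ h1 h2 => rw [map_add]; exact Submodule.add_mem _ (h1 trivial) (h2 trivial)
  have hnil : ¬ IsNilpotent (q w) := by
    rintro ⟨k, hk⟩
    rw [← map_pow, hq0] at hk
    exact hwP (hP.mem_of_pow_mem k hk)
  have hex : ∀ l : {l : ℂ // l ≠ 0}, ∃ Q : Ideal (RV V), Q.IsPrime ∧ IsPoissonIdeal Q ∧
      w - algebraMap ℂ (RV V) l ∈ Q := by
    rintro ⟨l, hl⟩
    set z := w - algebraMap ℂ (RV V) l with hz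
    have hst : Stab (fun x : RV V => ham x) (P ⊔ Ideal.span {z}) := by
      intro x y hy
      obtain ⟨a, ha, b, hb, rfl⟩ := Submodule.mem_sup.1 hy
      obtain ⟨c, rfl⟩ := Ideal.mem_span_singleton'.1 hb
      rw [map_add]
      refine Ideal.add_mem _ (le_sup_left (α := Ideal (RV V)) (hPs (some x) a ha)) ?_
      rw [Derivation.leibniz]
      have h1 : ham x z = brk x w := by
        rw [hz, map_sub, Derivation.map_algebraMap, ham_apply, sub_zero]
      rw [h1, smul_eq_mul, smul_eq_mul]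
      exact Ideal.add_mem _ (le_sup_left (α := Ideal (RV V)) (P.mul_mem_left _ (hcas x)))
        (le_sup_right (α := Ideal (RV V)) (Ideal.mul_mem_right _ _ (Ideal.subset_span rfl)))
    have hne : P ⊔ Ideal.span {z} ≠ ⊤ := by
      intro h1
      have h2 : (1 : RV V) ∈ P ⊔ Ideal.span {z} := by rw [h1]; trivial
      obtain ⟨a, ha, b, hb, hab⟩ := Submodule.mem_sup.1 h2
      obtain ⟨c, rfl⟩ := Ideal.mem_span_singleton'.1 hb
      have h3 : (q w - algebraMap ℂ (RV V ⧸ P) l) * q c = 1 := by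
        have h4 := congrArg q hab
        rw [map_add, (hq0 a).2 ha, zero_add, map_mul, map_one, hz, map_sub, AlgHom.commutes,
          mul_comm] at h4
        exact h4
      exact hnil (nilpotent_of_unit E hEd hκ hl (by rw [hE, hw, map_smul]) h3)
    obtain ⟨Q, hQ1, hQ2, hQ3⟩ := exists_stab_prime hst hne
    exact ⟨Q, hQ1, fun x y hy => hQ2 x y hy,
      hQ3 (le_sup_right (α := Ideal (RV V)) (Ideal.subset_span rfl))⟩
  choose Q hQ1 hQ2 hQ3 using hex
  have hinj : Function.Injective Q := by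
    intro l m hlm
    by_contra hne
    have h1 := hQ3 l
    rw [hlm] at h1
    have h2 := (Q m).sub_mem (hQ3 m) h1
    rw [sub_sub_sub_cancel_left, ← map_sub] at h2
    have h3 : ((l : ℂ) - m) ≠ 0 := sub_ne_zero.2 fun h => hne (Subtype.ext h)
    exact (hQ1 m).ne_top (Ideal.eq_top_of_isUnit_mem _ h2
      ((isUnit_iff_ne_zero.2 h3).map (algebraMap ℂ (RV V))))
  have hinf : Infinite {l : ℂ // l ≠ 0} := by
    have : Infinite ((({0} : Set ℂ)ᶜ : Set ℂ)) := (Set.finite_singleton (0 : ℂ)).infinite_compl.to_subtype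
    exact this
  exact Set.infinite_of_injective_forall_mem
    (s := {P : Ideal (RV V) | P.IsPrime ∧ IsPoissonIdeal P}) hinj
    (fun l => ⟨hQ1 l, hQ2 l⟩)

namespace Sl2Family

variable (t : Sl2Family C ι)

theorem brk_gens_casimir (i : ι) {y : RV V} (hy : y ∈ t.gens) : brk y (t.casimir i) = 0 := by
  have hf_h : ∀ i, brk (cl (t.f i)) (cl (t.h i)) = (2 : ℂ) • cl (t.f i) := by
    intro i
    rw [brk_skew, brk_cl, t.h_f, map_smul, ← neg_smul, neg_neg]
  have hf_h' : ∀ i j, i ≠ j → brk (cl (t.f i)) (cl (t.h j)) = 0 := by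
    intro i j hij
    rw [brk_skew, brk_cl, t.h_f' j i hij.symm, map_zero, neg_zero]
  have hf_e : ∀ i, brk (cl (t.f i)) (cl (t.e i)) = - cl (t.h i) := by
    intro i
    rw [brk_skew, brk_cl, t.e_f]
  have hf_e' : ∀ i j, i ≠ j → brk (cl (t.f i)) (cl (t.e j)) = 0 := by
    intro i j hij
    rw [brk_skew, brk_cl, t.e_f' j i hij.symm, map_zero, neg_zero]
  have hexp : ∀ y : RV V, brk y (t.casimir i) =
      2 * cl (t.h i) * brk y (cl (t.h i)) +
        (4 : ℂ) • (brk y (cl (t.e i)) * cl (t.f i) + cl (t.e i) * brk y (cl (t.f i))) := by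
    intro y
    unfold casimir
    rw [brk_add, brk_smul, brk_mul, pow_two, brk_mul]
    ring
  rcases hy with (⟨j, rfl⟩ | ⟨j, rfl⟩) | ⟨j, rfl⟩
  · rw [hexp]
    by_cases hji : j = i
    · subst hji
      rw [t.brk_eh, t.brk_ee, brk_cl, t.e_f, Algebra.smul_def, Algebra.smul_def]
      simp only [map_neg, map_ofNat]
      ring
    · rw [t.brk_eh' hji, t.brk_ee, brk_cl, t.e_f' j i hji, map_zero]
      simp
  · rw [hexp]
    by_cases hji : j = i
    · subst hji
      rw [brk_cl, brk_cl, brk_cl, t.h_h, t.h_e, t.h_f, map_smul, map_smul, map_zero]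
      rw [Algebra.smul_def, Algebra.smul_def, Algebra.smul_def]
      simp only [map_neg, map_ofNat]
      ring
    · rw [brk_cl, brk_cl, brk_cl, t.h_h, t.h_e' j i hji, t.h_f' j i hji, map_zero]
      simp
  · rw [hexp]
    by_cases hji : j = i
    · subst hji
      rw [hf_h, hf_e, brk_cl, t.f_f, map_zero, Algebra.smul_def, Algebra.smul_def]
      simp only [map_ofNat]
      ring
    · rw [hf_h' j i hji, hf_e' j i hji, brk_cl, t.f_f, map_zero]
      simp

theorem ham_casimir (i : ι) {y : RV V} (hy : y ∈ Algebra.adjoin ℂ t.gens) :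
    Run7.h206.ham (t.casimir i) y = 0 := by
  induction hy using Algebra.adjoin_induction with
  | mem y hy => rw [ham_apply, brk_skew, t.brk_gens_casimir i hy, neg_zero]
  | algebraMap r => exact Derivation.map_algebraMap _ r
  | add x y _ _ hx hy => rw [map_add, hx, hy, add_zero]
  | mul x y _ _ hx hy => rw [Derivation.leibniz, hx, hy]; simp

theorem HR_casimir (i : ι) : HR C.hamL0 (t.casimir i) = (2 : ℂ) • t.casimir i := by
  have h1 : ∀ a : V, a ∈ C.wt 1 → HR C.hamL0 (cl a) = cl a := by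
    intro a ha
    rw [HR_cl]
    change cl (nprod 1 C.omega a) = _
    rw [C.mem_wt.1 ha, one_smul]
  unfold casimir
  rw [map_add, Derivation.leibniz_pow, h1 _ (t.wt_h i), Derivation.map_smul, Derivation.leibniz,
    h1 _ (t.wt_e i), h1 _ (t.wt_f i)]
  simp only [smul_eq_mul, Algebra.smul_def, map_ofNat]
  push_cast
  ring

variable {t}

/-- quasi-lisseness forces the Casimir elements to be nilpotent in `R_V` -/
theorem casimir_nilpotent (ht : t.FiniteMoment)
    (hql : {P : Ideal (RV V) | P.IsPrime ∧ IsPoissonIdeal P}.Finite) (i : ι) :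
    IsNilpotent (t.casimir i) := by
  by_contra hnil
  obtain ⟨P, hP, hPs, hNP, hzP⟩ := exists_stab_prime_avoid (D := DD C.hamL0)
    (stab_nilradical) (z := t.casimir i) (fun k hk => hnil (by
      obtain ⟨m, hm⟩ := hk
      exact ⟨k * m, by rw [pow_mul]; exact hm⟩))
  set q : RV V →ₐ[ℂ] RV V ⧸ P := Ideal.Quotient.mkₐ ℂ P with hq
  have hqs : Function.Surjective q := Ideal.Quotient.mkₐ_surjective ℂ P
  have hq0 : ∀ x : RV V, q x = 0 ↔ x ∈ P := fun x => Ideal.Quotient.eq_zero_iff_mem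
  have hstab : ∀ i, ∀ x, q x = 0 → q (DD C.hamL0 i x) = 0 := fun i x hx =>
    (hq0 _).2 (hPs i x ((hq0 x).1 hx))
  let D : Derivation ℂ (RV V ⧸ P) (RV V ⧸ P) :=
    Derivation.liftOfSurjective (d := DD C.hamL0 (some (t.casimir i))) hqs (hstab _)
  have hD : ∀ x, D (q x) = q (brk (t.casimir i) x) := fun x =>
    Derivation.liftOfSurjective_apply hqs (hstab _) x
  refine poisson_primes_infinite C.hamL0 hP hPs (w := t.casimir i) two_ne_zero (t.HR_casimir i) hzP
    (fun x => ?_) hql
  rw [brk_skew]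
  refine P.neg_mem ((hq0 _).1 ?_)
  rw [← hD]
  by_contra hDx
  obtain ⟨p, hp, hpx⟩ := ht x
  set p' : Polynomial (RV V ⧸ P) :=
    p.map ((q : RV V →+* RV V ⧸ P).comp (algebraMap (Algebra.adjoin ℂ t.gens) (RV V))) with hp'
  have hmonic : p'.Monic := hp.map _
  have h0 := coeffs_zero D hDx p'.natDegree p' le_rfl (fun j => by
    rw [hp', Polynomial.coeff_map]
    change D (q (p.coeff j : RV V)) = 0
    rw [hD]
    have := t.ham_casimir i (p.coeff j).2
    rw [ham_apply] at this
    rw [this, map_zero]) (by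
    rw [hp', Polynomial.eval_map]
    have h1 := congrArg q hpx
    rw [map_zero] at h1
    rw [← h1]
    exact (Polynomial.hom_eval₂ p _ (q : RV V →+* RV V ⧸ P) x).symm)
  rw [h0] at hmonic
  exact hmonic.ne_zero rfl

/-- Irreducibility of the associated variety of a simple quasi-lisse conformal vertex algebra with
a finite moment map to `(sl_2^*)^ι`. -/
theorem irreducible [Fintype ι] (hs : IsSimple V) (hfg : Algebra.FiniteType ℂ (RV V))
    (hR : Nontrivial (RV V)) (ht : t.FiniteMoment)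
    (hql : {P : Ideal (RV V) | P.IsPrime ∧ IsPoissonIdeal P}.Finite) :
    IrreducibleSpace (MaximalSpectrum (RV V)) :=
  irreducible_of_nil_prime hfg hR fun _ _ hxy =>
    nil_prime_of_pol C hs hfg t.ham (fun μ hμ a ha => neg_nilpotent ht μ hμ a ha)
      (fun μ hμ a ha hnil => pol ht (fun i => casimir_nilpotent ht hql i) μ hμ a ha hnil) hxy

end Sl2Family

end

end Run7.h206
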