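import Mathlib

/-!
Spectral projections of a diagonalizable endomorphism.
-/

namespace Run7.h206

variable {M : Type*} [AddCommGroup M] [Module ℂ M]

theorem exists_proj (E : Module.End ℂ M) (h : ⨆ μ : ℂ, E.eigenspace μ = ⊤) :
    ∃ π : ℂ → M →ₗ[ℂ] M, (∀ μ, ∀ x ∈ E.eigenspace μ, π μ x = x) ∧
      (∀ μ ν x, μ ≠ ν → x ∈ E.eigenspace ν → π μ x = 0) ∧
      (∀ μ x, π μ x ∈ E.eigenspace μ) ∧
      (∀ x, ∃ s : Finset ℂ, (∀ μ, μ ∉ s → π μ x = 0) ∧ ∑ μ ∈ s, π μ x = x) := by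
  classical
  have hI : DirectSum.IsInternal (fun μ : ℂ => E.eigenspace μ) :=
    DirectSum.isInternal_submodule_of_iSupIndep_of_iSup_eq_top E.eigenspaces_iSupIndep h
  let _ := hI.chooseDecomposition
  let ℳ : ℂ → Submodule ℂ M := fun μ => E.eigenspace μ
  let π : ℂ → M →ₗ[ℂ] M := fun μ =>
    (ℳ μ).subtype ∘ₗ (DirectSum.component ℂ ℂ (fun μ => ℳ μ) μ) ∘ₗ
      (DirectSum.decomposeLinearEquiv ℳ).toLinearMap
  have hπ : ∀ μ x, π μ x = (DirectSum.decompose ℳ x μ : M) := fun μ x => rfl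
  refine ⟨π, ?_, ?_, ?_, ?_⟩
  · intro μ x hx
    rw [hπ]
    exact DirectSum.decompose_of_mem_same ℳ hx
  · intro μ ν x hne hx
    rw [hπ]
    exact DirectSum.decompose_of_mem_ne ℳ hx (Ne.symm hne)
  · intro μ x
    rw [hπ]
    exact (DirectSum.decompose ℳ x μ).2
  · intro x
    refine ⟨(DirectSum.decompose ℳ x).support, ?_, ?_⟩
    · intro μ hμ
      rw [hπ]
      rw [DFinsupp.mem_support_iff, not_not] at hμ
      rw [hμ]; rfl
    · simp only [hπ]
      exact DirectSum.sum_support_decompose ℳ x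

end Run7.h206
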