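import Pool.Agent.Run7.h206.Zhu
import Pool.Agent.Run7.h206.Eig

/-!
Conformal vectors and conformal weights.
-/

namespace Run7.h206

open VertexAlgebra

section

variable (V : Type*) [AddCommGroup V] [Module ℂ V] [VertexAlgebra V]

/-- A conformal (Virasoro) vector of central charge `c`: the modes `L_n = omega_(n+1)` satisfy
the Virasoro relations, `L_{-1}` is the translation operator and `L_0` is diagonalizable. -/
structure ConformalVector where
  omega : V
  c : ℂ
  virasoro : ∀ (m n : ℤ) (v : V),
    nprod (m + 1) omega (nprod (n + 1) omega v) - nprod (n + 1) omega (nprod (m + 1) omega v) =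
      ((m : ℂ) - n) • nprod (m + n + 1) omega v +
      (if m + n = 0 then ((m : ℂ) ^ 3 - m) / 12 * c else 0) • v
  translation : ∀ v : V, nprod 0 omega v = T V v
  diagonalizable : ⨆ μ : ℂ, Module.End.eigenspace (nprod 1 omega) μ = ⊤

variable {V}

/-- the space `V_μ` of vectors of conformal weight `μ` -/
def ConformalVector.wt (C : ConformalVector V) (μ : ℂ) : Submodule ℂ V :=
  Module.End.eigenspace (nprod 1 C.omega) μ

theorem bc_nat (n i : ℕ) : bc n i = (n.choose i : ℂ) := by
  unfold bc
  rw [Ring.choose_natCast]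
  push_cast; rfl

theorem ConformalVector.mem_wt (C : ConformalVector V) {μ : ℂ} {a : V} :
    a ∈ C.wt μ ↔ nprod 1 C.omega a = μ • a := Module.End.mem_eigenspace_iff

theorem L0_comm (C : ConformalVector V) (a b : V) (n : ℤ) :
    nprod 1 C.omega (nprod n a b) - nprod n a (nprod 1 C.omega b) =
      (-(n + 1 : ℂ)) • nprod n a b + nprod n (nprod 1 C.omega a) b := by
  rw [comm, finsum_eq_sum_of_support_subset (s := Finset.range 2)]
  · rw [Finset.sum_range_succ, Finset.sum_range_one]
    rw [show ((0 : ℕ) : ℤ) = 0 from rfl, C.translation, T_mode]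
    have h0 : bc 1 0 = 1 := bc_zero 1
    have h1 : bc 1 1 = 1 := by rw [bc_one]; simp
    rw [h0, h1, one_smul, one_smul]
    have e1 : (1 + n - 0 - 1 : ℤ) = n := by ring
    have e2 : (1 + n - ((1 : ℕ) : ℤ)) = n := by push_cast; ring
    rw [e1, e2]
    push_cast
    congr 1
    congr 1
    ring
  · intro i hi
    simp only [Finset.coe_range, Set.mem_Iio]
    by_contra hc
    apply hi
    have : bc 1 i = 0 := by
      have := bc_nat 1 i
      rw [Nat.choose_eq_zero_of_lt (by omega)] at this
      simpa using this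
    simp only
    rw [this, zero_smul]

theorem L1_comm (C : ConformalVector V) (a b : V) (n : ℤ) :
    nprod 2 C.omega (nprod n a b) - nprod n a (nprod 2 C.omega b) =
      (-(n + 2 : ℂ)) • nprod (n + 1) a b + (2 : ℂ) • nprod (n + 1) (nprod 1 C.omega a) b
        + nprod n (nprod 2 C.omega a) b := by
  rw [comm, finsum_eq_sum_of_support_subset (s := Finset.range 3)]
  · rw [Finset.sum_range_succ, Finset.sum_range_succ, Finset.sum_range_one]
    rw [show ((0 : ℕ) : ℤ) = 0 from rfl, C.translation, T_mode]
    have h0 : bc 2 0 = 1 := bc_zero 2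
    have h1 : bc 2 1 = 2 := by rw [bc_one]; simp
    have h2 : bc 2 2 = 1 := by
      have := bc_nat 2 2
      simpa using this
    rw [h0, h1, h2, one_smul, one_smul]
    have e1 : (2 + n - 0 - 1 : ℤ) = n + 1 := by ring
    have e2 : (2 + n - ((1 : ℕ) : ℤ)) = n + 1 := by push_cast; ring
    have e3 : (2 + n - ((2 : ℕ) : ℤ)) = n := by push_cast; ring
    rw [e1, e2, e3]
    push_cast
    congr 3
    congr 1
    ring
  · intro i hi
    simp only [Finset.coe_range, Set.mem_Iio]
    by_contra hc
    apply hi
    have : bc 2 i = 0 := by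
      have := bc_nat 2 i
      rw [Nat.choose_eq_zero_of_lt (by omega)] at this
      simpa using this
    simp only
    rw [this, zero_smul]

theorem wt_nprod (C : ConformalVector V) {α β : ℂ} {a b : V} (ha : a ∈ C.wt α) (hb : b ∈ C.wt β)
    (n : ℤ) : nprod n a b ∈ C.wt (α + β - n - 1) := by
  rw [C.mem_wt] at *
  have h := L0_comm C a b n
  rw [ha, hb, sub_eq_iff_eq_add] at h
  rw [h, map_smul, map_smul, LinearMap.smul_apply, ← add_smul, ← add_smul]
  congr 1
  ring

theorem wt_T (C : ConformalVector V) {α : ℂ} {a : V} (ha : a ∈ C.wt α) :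
    T V a ∈ C.wt (α + 1) := by
  have hv : (vac : V) ∈ C.wt 0 := by
    rw [C.mem_wt, vac_right' _ _ (by norm_num)]; simp
  have := wt_nprod C ha hv (-2)
  rw [T_apply]
  convert this using 2
  push_cast; ring

theorem wt_vac (C : ConformalVector V) : (vac : V) ∈ C.wt 0 := by
  rw [C.mem_wt, vac_right' _ _ (by norm_num)]; simp

theorem wt_omega (C : ConformalVector V) : C.omega ∈ C.wt 2 := by
  rw [C.mem_wt]
  have h := C.virasoro 0 (-2) vac
  norm_num [vac_right, vac_right'] at h
  exact h

theorem L1_omega (C : ConformalVector V) : nprod 2 C.omega C.omega = 0 := by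
  have h := C.virasoro 1 (-2) vac
  norm_num [vac_right, vac_right'] at h
  exact h

theorem L1_T (C : ConformalVector V) (v : V) :
    nprod 2 C.omega (T V v) = T V (nprod 2 C.omega v) + (2 : ℂ) • nprod 1 C.omega v := by
  have h := C.virasoro 1 (-1) v
  norm_num [vac_right, vac_right'] at h
  rw [C.translation, C.translation, sub_eq_iff_eq_add] at h
  rw [h]; abel

/-- the operators of weight projections exist -/
theorem wt_iSup (C : ConformalVector V) : ⨆ μ : ℂ, C.wt μ = ⊤ := C.diagonalizable

end

end Run7.h206
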