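import Mathlib

/-!
Ideals of a commutative `ℂ`-algebra that are stable under a family of derivations.
-/

namespace Run7.h206

variable {R : Type*} [CommRing R] [Algebra ℂ R] {ι : Type*} (D : ι → Derivation ℂ R R)

/-- stability of an ideal under a family of derivations -/
def Stab (I : Ideal R) : Prop := ∀ i, ∀ x ∈ I, D i x ∈ I

variable {D}

theorem stab_radical_aux (I : Ideal R) (hI : Stab D I) (i : ι) (x : R) (n : ℕ) (hx : x ^ n ∈ I)
    (k : ℕ) (hk : k ≤ n) : x ^ (n - k) * (D i x) ^ (2 * k) ∈ I := by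
  induction k with
  | zero => simpa using hx
  | succ k ih =>
    have ih := ih (by omega)
    obtain ⟨m, hm⟩ : ∃ m, n - k = m + 1 := ⟨n - k - 1, by omega⟩
    have hm2 : n - (k + 1) = m := by omega
    rw [hm] at ih
    rw [hm2]
    have h := hI i _ ih
    rw [Derivation.leibniz, Derivation.leibniz_pow, Derivation.leibniz_pow] at h
    simp only [smul_eq_mul, nsmul_eq_mul, Nat.add_sub_cancel] at h
    have h2 := I.mul_mem_left (D i x) h
    have h3 : x ^ (m + 1) * (D i x) ^ (2 * k) * (((2 * k : ℕ) : R) * D i (D i x)) ∈ I :=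
      I.mul_mem_right _ ih
    have h4 : D i x * (x ^ (m + 1) * (((2 * k : ℕ) : R) * (D i x ^ (2 * k - 1) * D i (D i x)))
        + D i x ^ (2 * k) * (((m + 1 : ℕ) : R) * (x ^ m * D i x))) -
        x ^ (m + 1) * (D i x) ^ (2 * k) * (((2 * k : ℕ) : R) * D i (D i x)) =
        ((m + 1 : ℕ) : R) * (x ^ m * (D i x) ^ (2 * (k + 1))) := by
      rcases k with _ | k
      · simp; ring
      · have e : 2 * (k + 1) - 1 = 2 * k + 1 := by omega
        rw [e]
        push_cast
        ring
    have h5 := I.sub_mem h2 h3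
    rw [h4] at h5
    have h6 := I.mul_mem_left (algebraMap ℂ R (((m + 1 : ℕ) : ℂ)⁻¹)) h5
    rw [← mul_assoc, ← map_natCast (algebraMap ℂ R), ← map_mul, inv_mul_cancel₀, map_one,
      one_mul] at h6
    · exact h6
    · exact_mod_cast Nat.succ_ne_zero m

theorem stab_radical {I : Ideal R} (hI : Stab D I) : Stab D I.radical := by
  intro i x hx
  obtain ⟨n, hn⟩ := hx
  refine ⟨2 * n, ?_⟩
  simpa using stab_radical_aux I hI i x n hn n le_rfl

/-- for a radical stable ideal `I`, the ideal quotient `(I : a)` is stable -/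
theorem stab_colon {I : Ideal R} (hI : Stab D I) (hr : I.IsRadical) (a : R) (i : ι) (b : R)
    (hb : a * b ∈ I) : a * D i b ∈ I := by
  apply hr
  refine ⟨2, ?_⟩
  have h := hI i _ hb
  rw [Derivation.leibniz, smul_eq_mul, smul_eq_mul] at h
  have h2 := I.mul_mem_left (a * D i b) h
  have h3 := I.mul_mem_left (D i b * D i a) hb
  have h4 : (a * D i b) ^ 2 = a * D i b * (a * D i b + b * D i a) - D i b * D i a * (a * b) := by
    ring
  rw [h4]
  exact I.sub_mem h2 h3

theorem exists_stab_prime {I : Ideal R} (hI : Stab D I) (hne : I ≠ ⊤) :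
    ∃ P : Ideal R, P.IsPrime ∧ Stab D P ∧ I ≤ P := by
  obtain ⟨P, hIP, hP⟩ := zorn_le_nonempty₀ {J : Ideal R | Stab D J ∧ J ≠ ⊤} (by
    intro c hc hchain y hy
    refine ⟨sSup c, ⟨?_, ?_⟩, fun z hz => le_sSup hz⟩
    · intro i x hx
      rw [Submodule.mem_sSup_of_directed ⟨y, hy⟩ hchain.directedOn] at hx
      obtain ⟨J, hJ, hxJ⟩ := hx
      exact (le_sSup hJ) ((hc hJ).1 i x hxJ)
    · intro h
      have h1 : (1 : R) ∈ sSup c := by rw [h]; trivial
      rw [Submodule.mem_sSup_of_directed ⟨y, hy⟩ hchain.directedOn] at h1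
      obtain ⟨J, hJ, hxJ⟩ := h1
      exact (hc hJ).2 ((Ideal.eq_top_iff_one J).2 hxJ)) I ⟨hI, hne⟩
  obtain ⟨⟨hPs, hPt⟩, hmax⟩ := hP
  have hrad : P.IsRadical := by
    have h1 : P.radical ∈ {J : Ideal R | Stab D J ∧ J ≠ ⊤} := by
      refine ⟨stab_radical hPs, fun h => hPt ?_⟩
      exact Ideal.radical_eq_top.1 h
    exact hmax h1 Ideal.le_radical
  refine ⟨P, ⟨hPt, ?_⟩, hPs, hIP⟩
  intro a b hab
  by_cases ha : a ∈ P
  · exact Or.inl ha
  right
  -- the ideal of all `x` with `x * b ∈ P`... we use the colon by `b`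
  let Q : Ideal R :=
    { carrier := {x | b * x ∈ P}
      add_mem' := fun {x y} hx hy => by
        simp only [Set.mem_ofPred_eq] at *
        rw [mul_add]; exact P.add_mem hx hy
      zero_mem' := by simp
      smul_mem' := fun c x hx => by
        simp only [Set.mem_ofPred_eq, smul_eq_mul] at *
        have : b * (c * x) = c * (b * x) := by ring
        rw [this]; exact P.mul_mem_left _ hx }
  have hPQ : P ≤ Q := fun x hx => P.mul_mem_left _ hx
  have hQs : Stab D Q := fun i x hx => stab_colon hPs hrad b i x hx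
  have haQ : a ∈ Q := by
    change b * a ∈ P
    rw [mul_comm]; exact hab
  by_cases hQ : Q = ⊤
  · have : (1 : R) ∈ Q := by rw [hQ]; trivial
    simpa [Q] using this
  · exact absurd (hmax ⟨hQs, hQ⟩ hPQ haQ) ha

end Run7.h206
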