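import Mathlib

/-!
A criterion for a commutative algebra with enough derivations to be a polynomial ring, and
irreducibility of maximal spectra.
-/

namespace Run7.h206

open MvPolynomial

theorem exists_dual_pair {E ι : Type*} [AddCommGroup E] [Module ℂ E]
    (pair : E →ₗ[ℂ] E →ₗ[ℂ] ℂ) (hnd : ∀ v, (∀ u, pair u v = 0) → v = 0)
    (b : Module.Basis ι ℂ E) (s : Finset ι) (c : s → ℂ) : ∃ u : E, ∀ k : s, pair u (b k) = c k := by
  classical
  let L : E →ₗ[ℂ] (s → ℂ) := LinearMap.pi fun k => pair.flip (b k)
  have hL : LinearMap.range L = ⊤ := by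
    by_contra hne
    obtain ⟨f, hf0, hf⟩ := Submodule.exists_le_ker_of_lt_top _ (lt_top_iff_ne_top.2 hne)
    apply hf0
    have h1 : ∀ u, pair u (∑ k : s, f (Pi.single k 1) • b k) = 0 := by
      intro u
      have h2 : f (L u) = 0 := hf ⟨u, rfl⟩
      rw [LinearMap.pi_apply_eq_sum_univ f (L u)] at h2
      rw [map_sum, ← h2]
      refine Finset.sum_congr rfl fun k _ => ?_
      rw [map_smul, smul_eq_mul, smul_eq_mul, mul_comm]
      congr 2
      ext j
      simp [Pi.single_apply, eq_comm]
    have h3 := hnd _ h1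
    have hli : LinearIndependent ℂ (fun k : s => b k) :=
      b.linearIndependent.comp _ Subtype.val_injective
    have h4 := (Fintype.linearIndependent_iff.1 hli) _ h3
    refine LinearMap.pi_ext' fun k => ?_
    ext
    simpa using h4 k
  have : c ∈ LinearMap.range L := by rw [hL]; trivial
  obtain ⟨u, hu⟩ := this
  exact ⟨u, fun k => by rw [← hu]; rfl⟩

theorem totalDegree_pderiv_le {ι : Type*} (f : MvPolynomial ι ℂ) (i : ι) (n : ℕ)
    (h : f.totalDegree ≤ n + 1) : (pderiv i f).totalDegree ≤ n := by
  classical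
  unfold MvPolynomial.totalDegree
  refine Finset.sup_le fun m hm => ?_
  rw [mem_support_iff, coeff_pderiv] at hm
  have h1 : coeff (m + Finsupp.single i 1) f ≠ 0 := left_ne_zero_of_mul hm
  have h2 := le_totalDegree (mem_support_iff.2 h1)
  rw [Finsupp.sum_add_index' (by simp) (by intros; rfl), Finsupp.sum_single_index rfl] at h2
  omega

theorem eq_C_of_pderiv {ι : Type*} (f : MvPolynomial ι ℂ) (h : ∀ i, pderiv i f = 0) :
    f = C (coeff 0 f) := by
  classical
  ext m
  rw [coeff_C]
  split_ifs with hm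
  · rw [← hm]
  · by_contra hc
    obtain ⟨i, hi⟩ : ∃ i, m i ≠ 0 := by
      by_contra hall
      push Not at hall
      exact hm (Finsupp.ext fun i => by simpa using (hall i).symm)
    have h1 : coeff (m - Finsupp.single i 1) (pderiv i f) = 0 := by rw [h i]; simp
    rw [coeff_pderiv] at h1
    have h2 : m - Finsupp.single i 1 + Finsupp.single i 1 = m := by
      ext j
      simp only [Finsupp.coe_add, Finsupp.coe_tsub, Pi.add_apply, Pi.sub_apply]
      by_cases hj : i = j
      · subst hj; simp; omega
      · simp [hj]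
    rw [h2] at h1
    rcases mul_eq_zero.1 h1 with h3 | h3
    · exact hc h3
    · have h4 : (((m - Finsupp.single i 1 : ι →₀ ℕ) i + 1 : ℕ) : ℂ) = 0 := by exact_mod_cast h3
      exact absurd (Nat.cast_eq_zero.1 h4) (Nat.succ_ne_zero _)

/-- A commutative algebra generated by a space `E` with derivations `D u`, `u ∈ E`, such that
`D u v` is a scalar for `v ∈ E`, non-degenerate in `v`, is a polynomial ring on a basis of `E`. -/
theorem poly_bijective {R : Type*} [CommRing R] [Algebra ℂ R] [Nontrivial R] {E : Type*}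
    [AddCommGroup E] [Module ℂ E] (j : E →ₗ[ℂ] R) (hgen : Algebra.adjoin ℂ (Set.range j) = ⊤)
    (D : E → Derivation ℂ R R) (pair : E →ₗ[ℂ] E →ₗ[ℂ] ℂ)
    (hD : ∀ u v, D u (j v) = algebraMap ℂ R (pair u v))
    (hnd : ∀ v, (∀ u, pair u v = 0) → v = 0) {ι : Type*} (b : Module.Basis ι ℂ E) :
    Function.Bijective (aeval (fun i => j (b i)) : MvPolynomial ι ℂ →ₐ[ℂ] R) := by
  classical
  set φ : MvPolynomial ι ℂ →ₐ[ℂ] R := aeval (fun i => j (b i)) with hφ
  constructor
  · -- injectivity
    have hδ : ∀ (u : E) (f : MvPolynomial ι ℂ),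
        φ (mkDerivation ℂ (fun i => (C (pair u (b i)) : MvPolynomial ι ℂ)) f) = D u (φ f) := by
      intro u f
      induction f using MvPolynomial.induction_on with
      | C a =>
        have h1 : φ (C a) = algebraMap ℂ R a := by rw [hφ]; simp
        rw [h1, Derivation.map_algebraMap]
        simp
      | add p q hp hq => simp only [map_add, hp, hq]
      | mul_X p i hp =>
        have h1 : φ (X i) = j (b i) := by rw [hφ]; simp
        have h2 : φ (C (pair u (b i))) = algebraMap ℂ R (pair u (b i)) := by rw [hφ]; simp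
        rw [Derivation.leibniz, mkDerivation_X, map_add, smul_eq_mul, smul_eq_mul, map_mul φ p,
          map_mul φ p, map_mul φ (X i), Derivation.leibniz, h1, h2, hD, hp, smul_eq_mul,
          smul_eq_mul]
    have hpd : ∀ (f : MvPolynomial ι ℂ), φ f = 0 → ∀ i, φ (pderiv i f) = 0 := by
      intro f hf i
      by_cases hi : i ∈ f.vars
      · obtain ⟨u, hu⟩ := exists_dual_pair pair hnd b f.vars (fun k => if (k : ι) = i then 1 else 0)
        have h1 : mkDerivation ℂ (fun i => (C (pair u (b i)) : MvPolynomial ι ℂ)) f = pderiv i f := by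
          refine derivation_eqOn_supported (s := (f.vars : Set ι)) ?_ ?_
          · intro k hk
            simp only [Function.comp_apply, mkDerivation_X, pderiv_X]
            rw [hu ⟨k, hk⟩]
            by_cases hki : k = i
            · subst hki; simp
            · simp [hki]
          · exact mem_supported_vars f
        rw [← h1, hδ, hf, map_zero]
      · rw [pderiv_eq_zero_of_notMem_vars hi, map_zero]
    have hmain : ∀ n : ℕ, ∀ f : MvPolynomial ι ℂ, f.totalDegree ≤ n → φ f = 0 → f = 0 := by
      intro n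
      have hconst : ∀ f : MvPolynomial ι ℂ, (∀ i, pderiv i f = 0) → φ f = 0 → f = 0 := by
        intro f h hf
        have h1 := eq_C_of_pderiv f h
        rw [h1] at hf ⊢
        have h2 : φ (C (coeff 0 f)) = algebraMap ℂ R (coeff 0 f) := by rw [hφ]; simp
        rw [h2] at hf
        have h3 : coeff 0 f = 0 := (FaithfulSMul.algebraMap_injective ℂ R) (by rw [hf, map_zero])
        rw [h3, map_zero]
      induction n with
      | zero =>
        intro f hf0 hf
        refine hconst f (fun i => ?_) hf
        rw [Nat.le_zero, totalDegree_eq_zero_iff_eq_C] at hf0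
        rw [hf0, pderiv_C]
      | succ n ih =>
        intro f hfn hf
        exact hconst f (fun i => ih _ (totalDegree_pderiv_le f i n hfn) (hpd f hf i)) hf
    rw [injective_iff_map_eq_zero]
    exact fun f hf => hmain _ f le_rfl hf
  · rw [← AlgHom.range_eq_top, hφ, ← Algebra.adjoin_range_eq_range_aeval, eq_top_iff, ← hgen]
    refine Algebra.adjoin_le ?_
    rintro _ ⟨v, rfl⟩
    have hv := b.mem_span v
    have h1 : j v ∈ Submodule.map j (Submodule.span ℂ (Set.range b)) := ⟨v, hv, rfl⟩
    rw [Submodule.map_span, ← Set.range_comp] at h1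
    exact Algebra.span_le_adjoin ℂ _ h1

/-- irreducibility of the maximal spectrum -/
theorem irreducible_maxSpec {R : Type*} [CommRing R] [IsDomain R]
    (hJ : ∀ f : R, f ≠ 0 → ∃ M : Ideal R, M.IsMaximal ∧ f ∉ M) :
    IrreducibleSpace (MaximalSpectrum R) := by
  have hne : Nonempty (MaximalSpectrum R) := inferInstance
  refine { toNonempty := hne, isPreirreducible_univ := ?_ }
  intro u v hu hv ⟨x, _, hx⟩ ⟨y, _, hy⟩
  obtain ⟨u', hu', rfl⟩ := isOpen_induced_iff.1 hu
  obtain ⟨v', hv', rfl⟩ := isOpen_induced_iff.1 hv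
  obtain ⟨_, ⟨f, rfl⟩, hxf, hfu⟩ :=
    PrimeSpectrum.isTopologicalBasis_basic_opens.exists_subset_of_mem_open hx hu'
  obtain ⟨_, ⟨g, rfl⟩, hyg, hgv⟩ :=
    PrimeSpectrum.isTopologicalBasis_basic_opens.exists_subset_of_mem_open hy hv'
  have hf : f ≠ 0 := by
    rintro rfl
    exact hxf (Ideal.zero_mem _)
  have hg : g ≠ 0 := by
    rintro rfl
    exact hyg (Ideal.zero_mem _)
  obtain ⟨M, hM, hfg⟩ := hJ (f * g) (mul_ne_zero hf hg)
  refine ⟨⟨M, hM⟩, trivial, hfu ?_, hgv ?_⟩
  · exact fun h => hfg (M.mul_mem_right _ h)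
  · exact fun h => hfg (M.mul_mem_left _ h)

end Run7.h206
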