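import Pool.Agent.Run7.h206.Gen
import Pool.Agent.Run7.h206.Poly

/-!
Quasi-lisse vertex algebras with reduced Zhu algebra.
-/

namespace Run7.h206

open VertexAlgebra

section

variable {V : Type*} [AddCommGroup V] [Module ℂ V] [VertexAlgebra V] (C : ConformalVector V)

/-- the operator induced by `L_0` on `R_V` -/
noncomputable def LR : Module.End ℂ (RV V) :=
  (C2 V).mapQ (C2 V) (nprod 1 C.omega) (by
    refine Submodule.span_le.2 ?_
    rintro _ ⟨a, b, rfl⟩
    have h := L0_comm C a b (-2)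
    rw [sub_eq_iff_eq_add] at h
    change nprod 1 C.omega (nprod (-2) a b) ∈ C2 V
    rw [h]
    exact (C2 V).add_mem ((C2 V).add_mem ((C2 V).smul_mem _ (nprod_mem_C2 _ _ le_rfl))
      (nprod_mem_C2 _ _ le_rfl)) (nprod_mem_C2 _ _ le_rfl))

theorem LR_cl (a : V) : LR C (cl a) = cl (nprod 1 C.omega a) := rfl

theorem LR_mul (x y : RV V) : LR C (x * y) = LR C x * y + x * LR C y := by
  obtain ⟨a, rfl⟩ := cl_surj x
  obtain ⟨b, rfl⟩ := cl_surj y
  have h := L0_comm C a b (-1)
  rw [sub_eq_iff_eq_add] at h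
  rw [mul_cl, LR_cl, h, LR_cl, LR_cl, mul_cl, mul_cl, map_add, map_add]
  simp

theorem cl_mem_eig {μ : ℂ} {a : V} (ha : a ∈ C.wt μ) : cl a ∈ (LR C).eigenspace μ := by
  rw [Module.End.mem_eigenspace_iff, LR_cl, C.mem_wt.1 ha, map_smul]

theorem LR_iSup (hgr : ⨆ n : ℕ, C.wt ((n : ℂ) / 2) = ⊤) :
    ⨆ n : ℕ, (LR C).eigenspace ((n : ℂ) / 2) = ⊤ := by
  rw [eq_top_iff]
  intro x _
  obtain ⟨a, rfl⟩ := cl_surj x
  have ha : a ∈ ⨆ n : ℕ, C.wt ((n : ℂ) / 2) := by rw [hgr]; trivial
  induction ha using Submodule.iSup_induction' with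
  | mem n a ha =>
    exact (le_iSup (fun n : ℕ => (LR C).eigenspace ((n : ℂ) / 2)) n) (cl_mem_eig C ha)
  | zero => simp
  | add a a' _ _ h1 h2 => rw [map_add]; exact Submodule.add_mem _ (h1 trivial) (h2 trivial)

theorem LR_iSup' (hgr : ⨆ n : ℕ, C.wt ((n : ℂ) / 2) = ⊤) :
    ⨆ μ : ℂ, (LR C).eigenspace μ = ⊤ := by
  rw [eq_top_iff, ← LR_iSup C hgr]
  exact iSup_le fun n => le_iSup (fun μ => (LR C).eigenspace μ) _

/-- The element `ω - λ` of `R_V` is not a unit unless `ω` is nilpotent. -/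
theorem omega_unit (hgr : ⨆ n : ℕ, C.wt ((n : ℂ) / 2) = ⊤) {l : ℂ}
    (hu : ∃ r : RV V, (cl C.omega - algebraMap ℂ (RV V) l) * r = 1) :
    IsNilpotent (cl C.omega) := by
  classical
  obtain ⟨r, hr⟩ := hu
  obtain ⟨π, h1, h2, h3, h4⟩ := exists_proj (LR C) (LR_iSup' C hgr)
  have homega : LR C (cl C.omega) = (2 : ℂ) • cl C.omega := by
    have := cl_mem_eig C (wt_omega C)
    exact Module.End.mem_eigenspace_iff.1 this
  have hmulE : ∀ μ : ℂ, ∀ x ∈ (LR C).eigenspace μ, cl C.omega * x ∈ (LR C).eigenspace (μ + 2) := by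
    intro μ x hx
    rw [Module.End.mem_eigenspace_iff] at hx ⊢
    rw [LR_mul, homega, hx, smul_mul_assoc, mul_smul_comm, ← add_smul, add_comm]
  have hπmul : ∀ (μ : ℂ) (x : RV V), π μ (cl C.omega * x) = cl C.omega * π (μ - 2) x := by
    intro μ x
    obtain ⟨s, hs1, hs2⟩ := h4 x
    have e1 : π μ (cl C.omega * x) = ∑ ν ∈ s, π μ (cl C.omega * π ν x) := by
      conv_lhs => rw [← hs2]
      rw [Finset.mul_sum, map_sum]
    rw [e1]
    by_cases hμ : μ - 2 ∈ s
    · rw [Finset.sum_eq_single_of_mem _ hμ]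
      · have := hmulE _ _ (h3 (μ - 2) x)
        rw [sub_add_cancel] at this
        exact h1 _ _ this
      · intro ν _ hν
        refine h2 _ _ _ ?_ (hmulE _ _ (h3 ν x))
        intro h
        exact hν (by rw [h]; ring)
    · rw [hs1 _ hμ, mul_zero]
      refine Finset.sum_eq_zero fun ν hν => h2 _ _ _ ?_ (hmulE _ _ (h3 ν x))
      intro h
      apply hμ
      rw [h, add_sub_cancel_right]; exact hν
  have hone : (1 : RV V) ∈ (LR C).eigenspace 0 := by
    rw [one_eq]; exact cl_mem_eig C (wt_vac C)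
  have hneg : π (-2) r = 0 := by
    have hbot : (LR C).eigenspace (-2) = ⊥ := by
      have hd := (Module.End.eigenspaces_iSupIndep (LR C)) (-2)
      rw [disjoint_iff] at hd
      have : (⨆ j, ⨆ (_ : j ≠ (-2 : ℂ)), Module.End.eigenspace (LR C) j) = ⊤ := by
        rw [eq_top_iff, ← LR_iSup C hgr]
        refine iSup_le fun n => ?_
        refine le_iSup₂_of_le ((n : ℂ) / 2) ?_ le_rfl
        intro h
        have h5 : ((n + 4 : ℕ) : ℂ) = 0 := by
          push_cast
          linear_combination 2 * h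
        exact absurd (Nat.cast_eq_zero.1 h5) (by omega)
      rw [this, inf_top_eq] at hd
      exact hd
    have := h3 (-2) r
    rw [hbot] at this
    simpa using this
  have hrec : ∀ μ : ℂ, cl C.omega * π (μ - 2) r - l • π μ r = π μ 1 := by
    intro μ
    rw [← hr, sub_mul, map_sub, hπmul, ← Algebra.smul_def, map_smul]
  have hk : ∀ k : ℕ, l ^ (k + 1) • π (2 * k) r = - (cl C.omega) ^ k := by
    intro k
    induction k with
    | zero =>
      have h5 := hrec 0
      rw [zero_sub, hneg, mul_zero, zero_sub, h1 _ _ hone] at h5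
      rw [Nat.cast_zero, mul_zero, zero_add, pow_one, pow_zero, ← h5, neg_neg]
    | succ k ih =>
      have h5 := hrec (2 * ((k + 1 : ℕ) : ℂ))
      have h6 : π (2 * ((k + 1 : ℕ) : ℂ)) (1 : RV V) = 0 := by
        refine h2 _ 0 _ ?_ hone
        exact mul_ne_zero two_ne_zero (by exact_mod_cast Nat.succ_ne_zero k)
      have h7 : (2 * ((k + 1 : ℕ) : ℂ)) - 2 = 2 * k := by push_cast; ring
      rw [h6, h7, sub_eq_zero] at h5
      rw [pow_succ, mul_smul, ← h5, ← mul_smul_comm, ih]
      ring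
  obtain ⟨s, hs1, _⟩ := h4 r
  have hinj : Function.Injective (fun k : ℕ => (2 * k : ℂ)) := by
    intro a b hab
    have : (a : ℂ) = b := by
      have := hab
      simp only at this
      exact mul_left_cancel₀ two_ne_zero this
    exact_mod_cast this
  obtain ⟨k, hks⟩ := Infinite.exists_notMem_finset (s.preimage (fun k : ℕ => (2 * k : ℂ))
    hinj.injOn)
  rw [Finset.mem_preimage] at hks
  refine ⟨k, ?_⟩
  have := hk k
  rw [hs1 _ hks, smul_zero, eq_comm, neg_eq_zero] at this
  exact this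

/-- the conformal vector is nilpotent in `R_V` as soon as `R_V` has finitely many Poisson primes -/
theorem omega_nilpotent (hgr : ⨆ n : ℕ, C.wt ((n : ℂ) / 2) = ⊤)
    (hql : {P : Ideal (RV V) | P.IsPrime ∧ IsPoissonIdeal P}.Finite) :
    IsNilpotent (cl C.omega) := by
  by_contra hnil
  have hcas : ∀ x : RV V, brk x (cl C.omega) = 0 := by
    intro x
    obtain ⟨a, rfl⟩ := cl_surj x
    rw [brk_skew, brk_cl, C.translation, neg_eq_zero]
    exact cl_eq_zero.2 (nprod_mem_C2 _ _ le_rfl)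
  have hex : ∀ l : {l : ℂ // l ≠ 0}, ∃ P : Ideal (RV V), P.IsPrime ∧ IsPoissonIdeal P ∧
      cl C.omega - algebraMap ℂ (RV V) l ∈ P := by
    rintro ⟨l, _⟩
    set z := cl C.omega - algebraMap ℂ (RV V) l with hz
    have hst : Stab (fun x : RV V => ham x) (Ideal.span {z}) := by
      intro x y hy
      obtain ⟨w, rfl⟩ := Ideal.mem_span_singleton'.1 hy
      rw [Derivation.leibniz]
      have : ham x z = 0 := by
        rw [hz, map_sub, Derivation.map_algebraMap, ham_apply, hcas, sub_zero]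
      rw [this, smul_zero, zero_add, smul_eq_mul]
      exact Ideal.mul_mem_right _ _ (Ideal.subset_span rfl)
    have hne : Ideal.span {z} ≠ ⊤ := by
      intro h
      rw [Ideal.span_singleton_eq_top] at h
      obtain ⟨r, hr⟩ := h.exists_right_inv
      exact hnil (omega_unit C hgr ⟨r, hr⟩)
    obtain ⟨P, hP1, hP2, hP3⟩ := exists_stab_prime hst hne
    exact ⟨P, hP1, fun x y hy => hP2 x y hy, hP3 (Ideal.subset_span rfl)⟩
  choose P hP1 hP2 hP3 using hex
  have hinj : Function.Injective P := by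
    intro l m hlm
    by_contra hne
    have h1 := hP3 l
    rw [hlm] at h1
    have h2 := (P m).sub_mem (hP3 m) h1
    rw [sub_sub_sub_cancel_left, ← map_sub] at h2
    have h3 : ((l : ℂ) - m) ≠ 0 := sub_ne_zero.2 fun h => hne (Subtype.ext h)
    exact (hP1 m).ne_top (Ideal.eq_top_of_isUnit_mem _ h2
      ((isUnit_iff_ne_zero.2 h3).map (algebraMap ℂ (RV V))))
  have hinf : Infinite {l : ℂ // l ≠ 0} := by
    have : Infinite ((({0} : Set ℂ)ᶜ : Set ℂ)) := (Set.finite_singleton (0 : ℂ)).infinite_compl.to_subtype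
    exact this
  exact (Set.infinite_of_injective_forall_mem
    (s := {P : Ideal (RV V) | P.IsPrime ∧ IsPoissonIdeal P}) hinj
    (fun l => ⟨hP1 l, hP2 l⟩)) hql

/-- `R_V` is non-zero -/
theorem RV_nontrivial (hgr : ⨆ n : ℕ, C.wt ((n : ℂ) / 2) = ⊤) (hv : (vac : V) ≠ 0) :
    Nontrivial (RV V) := by
  refine ⟨⟨1, 0, ?_⟩⟩
  intro h
  rw [one_eq] at h
  have h := cl_eq_zero.1 h
  set Z : Submodule ℂ V := ⨆ j, ⨆ (_ : j ≠ (0 : ℂ)), C.wt j with hZ
  have hall : C2 V ≤ Z := by
    refine Submodule.span_le.2 ?_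
    rintro _ ⟨a, b, rfl⟩
    have ha : a ∈ ⨆ n : ℕ, C.wt ((n : ℂ) / 2) := by rw [hgr]; trivial
    have hb : b ∈ ⨆ n : ℕ, C.wt ((n : ℂ) / 2) := by rw [hgr]; trivial
    simp only [SetLike.mem_coe]
    induction ha using Submodule.iSup_induction' with
    | mem m a ha =>
      induction hb using Submodule.iSup_induction' with
      | mem n b hb =>
        have hw := wt_nprod C ha hb (-2)
        refine (le_iSup₂_of_le (f := fun j (_ : j ≠ (0 : ℂ)) => C.wt j) _ ?_ le_rfl) hw
        intro h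
        have h2 : ((m + n + 2 : ℕ) : ℂ) = 0 := by
          push_cast at h ⊢
          linear_combination 2 * h
        exact absurd (Nat.cast_eq_zero.1 h2) (by omega)
      | zero => simp
      | add b b' _ _ h1 h2 => rw [map_add]; exact Submodule.add_mem _ h1 h2
    | zero => simp
    | add a a' _ _ h1 h2 =>
      rw [map_add, LinearMap.add_apply]; exact Submodule.add_mem _ h1 h2
  have hind := (Module.End.eigenspaces_iSupIndep (nprod 1 C.omega : Module.End ℂ V)) 0
  exact hv (Submodule.disjoint_def.1 hind _ (wt_vac C) (hall h))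

/-- non-degeneracy of the pairing on `V_{1/2}` -/
theorem half_nondeg (hgr : ⨆ n : ℕ, C.wt ((n : ℂ) / 2) = ⊤)
    (h0 : C.wt 0 = Submodule.span ℂ {vac}) (htop : GenSub (C.wt (1 / 2)) = ⊤) {u : V}
    (hu : u ∈ C.wt (1 / 2)) (h : ∀ v ∈ C.wt (1 / 2), nprod 0 u v = 0) : u = 0 := by
  let K : Submodule ℂ V :=
    { carrier := {x | ∀ n : ℕ, nprod (n : ℤ) u x = 0}
      add_mem' := fun {a b} ha hb n => by rw [map_add, ha n, hb n, add_zero]
      zero_mem' := fun n => map_zero _
      smul_mem' := fun c a ha n => by rw [map_smul, ha n, smul_zero] }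
  have hK : GenSub (C.wt (1 / 2)) ≤ K := by
    refine Sub_le ?_ ?_
    · intro n
      exact vac_right' _ _ (by positivity)
    · intro v hv m x hx n
      have hr : nprod 0 u v = (0 : ℂ) • vac := by rw [h v hv, zero_smul]
      rw [half_comm C hgr h0 hu hv hr, hx n, map_zero]
      simp
  have hall : ∀ n : ℕ, nprod (n : ℤ) u C.omega = 0 := by
    have : C.omega ∈ K := hK (by rw [htop]; trivial)
    exact this
  have h1 : nprod 1 C.omega u = 0 := by
    rw [skew u C.omega 1, finsum_eq_zero_of_forall_eq_zero, smul_zero]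
    intro i
    have := hall (1 + i)
    push_cast at this
    rw [this]
    simp
  rw [C.mem_wt.1 hu] at h1
  simpa using h1

/-- `R_V` is generated by the classes of `V_{1/2}` -/
theorem RV_gen (hgr : ⨆ n : ℕ, C.wt ((n : ℂ) / 2) = ⊤)
    (h0 : C.wt 0 = Submodule.span ℂ {vac}) (htop : GenSub (C.wt (1 / 2)) = ⊤) :
    Algebra.adjoin ℂ ((fun v : V => cl v) '' (C.wt (1 / 2) : Set V)) = ⊤ := by
  set B := Algebra.adjoin ℂ ((fun v : V => cl v) '' (C.wt (1 / 2) : Set V)) with hB
  have hk : ∀ k : ℕ, ∀ x ∈ Mon (C.wt (1 / 2)) k, cl x ∈ B := by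
    intro k
    induction k with
    | zero =>
      intro x hx
      rw [Mon, Submodule.mem_span_singleton] at hx
      obtain ⟨r, rfl⟩ := hx
      rw [map_smul, ← one_eq]
      exact B.smul_mem B.one_mem _
    | succ k ih =>
      intro x hx
      rw [Mon] at hx
      obtain ⟨y, hy, z, hz, rfl⟩ := Submodule.mem_sup.1 hx
      rw [map_add]
      refine B.add_mem (ih _ hy) ?_
      clear hx
      induction hz using Submodule.span_induction with
      | mem z h =>
        obtain ⟨u, hu, n, w, hw, rfl⟩ := h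
        rcases lt_trichotomy n (-1) with hn | hn | hn
        · rw [cl_eq_zero.2 (nprod_mem_C2 _ _ (by omega))]; exact B.zero_mem
        · subst hn
          rw [← mul_cl]
          exact B.mul_mem (Algebra.subset_adjoin ⟨u, hu, rfl⟩) (ih _ hw)
        · obtain ⟨m, rfl⟩ := Int.eq_ofNat_of_zero_le (show 0 ≤ n by omega)
          exact ih _ (half_lower C hgr h0 hu m k (Mon_le_succ _ _ hw))
      | zero => simp
      | add x y _ _ hx hy => rw [map_add]; exact B.add_mem hx hy
      | smul c x _ hx => rw [map_smul]; exact B.smul_mem hx _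
  rw [eq_top_iff]
  intro x _
  obtain ⟨a, rfl⟩ := cl_surj x
  have ha : a ∈ GenSub (C.wt (1 / 2)) := by rw [htop]; trivial
  obtain ⟨k, hk'⟩ := mem_Sub.1 ha
  exact hk k a hk'

/-- `R_V` is a polynomial ring when `ω ∈ C_2(V)` -/
theorem RV_poly (hgr : ⨆ n : ℕ, C.wt ((n : ℂ) / 2) = ⊤)
    (h0 : C.wt 0 = Submodule.span ℂ {vac}) (hv : (vac : V) ≠ 0)
    (hω : C.omega ∈ C2 V) {ι : Type*} (b : Module.Basis ι ℂ (C.wt (1 / 2))) :
    Function.Bijective (MvPolynomial.aeval (fun i => cl (b i : V)) :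
      MvPolynomial ι ℂ →ₐ[ℂ] RV V) := by
  have htop := gen_half C hgr h0 hω
  have hnt := RV_nontrivial C hgr hv
  obtain ⟨φ, hφ⟩ : ∃ φ : V →ₗ[ℂ] ℂ, φ vac = 1 := by
    have h1 : ¬ ∀ φ : Module.Dual ℂ V, φ vac = 0 := fun h =>
      hv ((Module.forall_dual_apply_eq_zero_iff ℂ _).1 h)
    push Not at h1
    obtain ⟨φ, hφ⟩ := h1
    exact ⟨(φ vac)⁻¹ • φ, by rw [LinearMap.smul_apply, smul_eq_mul, inv_mul_cancel₀ hφ]⟩
  let E := C.wt (1 / 2)
  let pair : E →ₗ[ℂ] E →ₗ[ℂ] ℂ :=
    LinearMap.mk₂ ℂ (fun u v => φ (nprod 0 (u : V) (v : V)))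
      (fun u u' v => by simp) (fun c u v => by simp) (fun u v v' => by simp)
      (fun c u v => by simp)
  have hpair : ∀ u v : E, nprod 0 (u : V) (v : V) = pair u v • vac := by
    intro u v
    obtain ⟨r, hr⟩ := (half_pairing C hgr h0 u.2 v.2).1
    have : pair u v = r := by
      change φ (nprod 0 (u : V) (v : V)) = r
      rw [hr, map_smul, hφ, smul_eq_mul, mul_one]
    rw [this, hr]
  refine poly_bijective (cl.comp E.subtype) ?_ (fun u => ham (cl (u : V))) pair ?_ ?_ b
  · have := RV_gen C hgr h0 htop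
    rw [← this]
    congr 1
    ext x
    constructor
    · rintro ⟨v, rfl⟩; exact ⟨v, v.2, rfl⟩
    · rintro ⟨v, hv, rfl⟩; exact ⟨⟨v, hv⟩, rfl⟩
  · intro u v
    change brk (cl (u : V)) (cl (v : V)) = _
    rw [brk_cl, hpair, map_smul, ← one_eq, Algebra.algebraMap_eq_smul_one]
  · intro v hv2
    have h1 : ∀ u ∈ C.wt (1 / 2), nprod 0 (v : V) u = 0 := by
      intro u hu
      rw [skew u (v : V) 0]
      have h2 : ∀ i : ℕ, nprod (0 + (i : ℤ)) u (v : V) = 0 := by
        intro i
        rcases i with _ | i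
        · have := hpair ⟨u, hu⟩ v
          rw [hv2, zero_smul] at this
          simpa using this
        · have := (half_pairing C hgr h0 hu v.2).2 i
          push_cast
          rw [zero_add]; exact this
      rw [finsum_eq_zero_of_forall_eq_zero, smul_zero]
      intro i
      rw [h2 i]; simp
    exact Subtype.ext (half_nondeg C hgr h0 htop v.2 h1)

end

end Run7.h206
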