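import Pool.Agent.Run7.h206.Conf
import Pool.Agent.Run7.h206.Diff

/-!
The vertex subalgebra generated by a subspace, and generation by the weight-one-half space.
-/

namespace Run7.h206

open VertexAlgebra

section

variable {V : Type*} [AddCommGroup V] [Module ℂ V] [VertexAlgebra V]

/-- monomials of length at most `k` in the modes of the elements of `U`, applied to the vacuum -/
def Mon (U : Submodule ℂ V) : ℕ → Submodule ℂ V
  | 0 => Submodule.span ℂ {vac}
  | k + 1 => Mon U k ⊔ Submodule.span ℂ {x | ∃ u ∈ U, ∃ n : ℤ, ∃ y ∈ Mon U k, x = nprod n u y}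

/-- the subspace generated by the modes of `U` from the vacuum -/
def GenSub (U : Submodule ℂ V) : Submodule ℂ V := ⨆ k, Mon U k

theorem Mon_le_succ (U : Submodule ℂ V) (k : ℕ) : Mon U k ≤ Mon U (k + 1) := le_sup_left

theorem Mon_mono (U : Submodule ℂ V) : Monotone (Mon U) := monotone_nat_of_le_succ (Mon_le_succ U)

theorem mem_Sub {U : Submodule ℂ V} {x : V} : x ∈ GenSub U ↔ ∃ k, x ∈ Mon U k :=
  Submodule.mem_iSup_of_directed _ (Mon_mono U).directed_le

theorem nprod_Mon {U : Submodule ℂ V} {u : V} (hu : u ∈ U) (n : ℤ) {k : ℕ} {x : V}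
    (hx : x ∈ Mon U k) : nprod n u x ∈ Mon U (k + 1) :=
  (le_sup_right : _ ≤ Mon U (k + 1)) (Submodule.subset_span ⟨u, hu, n, x, hx, rfl⟩)

theorem nprod_Sub {U : Submodule ℂ V} {u : V} (hu : u ∈ U) (n : ℤ) {x : V} (hx : x ∈ GenSub U) :
    nprod n u x ∈ GenSub U := by
  rw [mem_Sub] at hx ⊢
  obtain ⟨k, hk⟩ := hx
  exact ⟨k + 1, nprod_Mon hu n hk⟩

theorem vac_Sub (U : Submodule ℂ V) : (vac : V) ∈ GenSub U :=
  mem_Sub.2 ⟨0, Submodule.subset_span rfl⟩

/-- induction principle -/
theorem Sub_le {U M : Submodule ℂ V} (h0 : (vac : V) ∈ M)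
    (h : ∀ u ∈ U, ∀ n : ℤ, ∀ x ∈ M, nprod n u x ∈ M) : GenSub U ≤ M := by
  refine iSup_le fun k => ?_
  induction k with
  | zero => exact Submodule.span_le.2 (by simpa using h0)
  | succ k ih =>
    refine sup_le ih (Submodule.span_le.2 ?_)
    rintro x ⟨u, hu, n, y, hy, rfl⟩
    exact h u hu n y (ih hy)

/-- the subspace generated by `U` is closed under all products -/
theorem Sub_closed {U : Submodule ℂ V} {a b : V} (ha : a ∈ GenSub U) (hb : b ∈ GenSub U) (n : ℤ) :
    nprod n a b ∈ GenSub U := by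
  let A : Submodule ℂ V :=
    { carrier := {a | ∀ n : ℤ, ∀ x ∈ GenSub U, nprod n a x ∈ GenSub U}
      add_mem' := fun {a b} ha hb n x hx => by
        rw [map_add]; exact (GenSub U).add_mem (ha n x hx) (hb n x hx)
      zero_mem' := fun n x hx => by simp
      smul_mem' := fun c a ha n x hx => by
        rw [map_smul]; exact (GenSub U).smul_mem _ (ha n x hx) }
  have h : GenSub U ≤ A := by
    refine Sub_le ?_ ?_
    · intro n x hx
      rw [vac_left]
      split_ifs
      · exact hx
      · exact (GenSub U).zero_mem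
    · intro u hu n a ha m x hx
      rw [iter]
      refine finsum_mem_sub fun i => (GenSub U).smul_mem _ ((GenSub U).sub_mem ?_
        ((GenSub U).smul_mem _ ?_))
      · exact nprod_Sub hu _ (ha _ _ hx)
      · exact ha _ _ (nprod_Sub hu _ hx)
  exact h ha n b hb

theorem T_Sub {U : Submodule ℂ V} {a : V} (ha : a ∈ GenSub U) : T V a ∈ GenSub U :=
  Sub_closed ha (vac_Sub U) _

theorem U_le_Sub (U : Submodule ℂ V) : U ≤ GenSub U := fun u hu => by
  have := nprod_Sub hu (-1) (vac_Sub U)
  rwa [vac_right] at this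

variable (C : ConformalVector V)

/-- if `L_0` is diagonalizable with eigenvalues in `ℕ/2`, the other eigenspaces vanish -/
theorem wt_eq_bot (hgr : ⨆ n : ℕ, C.wt ((n : ℂ) / 2) = ⊤) {μ : ℂ} (hμ : ∀ n : ℕ, μ ≠ (n : ℂ) / 2) :
    C.wt μ = ⊥ := by
  have h := (Module.End.eigenspaces_iSupIndep (nprod 1 C.omega : Module.End ℂ V)) μ
  rw [disjoint_iff] at h
  have h2 : (⨆ j, ⨆ (_ : j ≠ μ), Module.End.eigenspace (nprod 1 C.omega : Module.End ℂ V) j) = ⊤ := by
    rw [eq_top_iff, ← hgr]
    refine iSup_le fun n => ?_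
    exact le_iSup₂_of_le ((n : ℂ) / 2) (Ne.symm (hμ n)) le_rfl
  rw [h2, inf_top_eq] at h
  exact h

theorem wt_neg (hgr : ⨆ n : ℕ, C.wt ((n : ℂ) / 2) = ⊤) {z : ℤ} (hz : z < 0) :
    C.wt ((z : ℂ) / 2) = ⊥ := by
  refine wt_eq_bot C hgr fun n h => ?_
  have h2 : (z : ℂ) = (n : ℂ) := by
    have := congrArg (fun x => x * 2) h
    simpa using this
  have h3 : z = (n : ℤ) := by exact_mod_cast h2
  omega

/-- decomposition of the conformal vector when it lies in `C_2(V)` -/
theorem omega_decomp (hgr : ⨆ n : ℕ, C.wt ((n : ℂ) / 2) = ⊤)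
    (h0 : C.wt 0 = Submodule.span ℂ {vac}) (hω : C.omega ∈ C2 V) :
    ∃ a ∈ C.wt 1, ∃ x ∈ Submodule.span ℂ {x | ∃ u ∈ C.wt (1 / 2), ∃ v ∈ C.wt (1 / 2),
      x = nprod (-2) u v}, C.omega = T V a + x := by
  set X := Submodule.span ℂ {x | ∃ u ∈ C.wt (1 / 2), ∃ v ∈ C.wt (1 / 2), x = nprod (-2) u v}
    with hX
  set Z : Submodule ℂ V := ⨆ j, ⨆ (_ : j ≠ (2 : ℂ)), C.wt j with hZ
  -- every product of homogeneous elements lies in the right place
  have key : ∀ (m n : ℕ) (a b : V), a ∈ C.wt ((m : ℂ) / 2) → b ∈ C.wt ((n : ℂ) / 2) →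
      nprod (-2) a b ∈ (Submodule.map (T V) (C.wt 1) ⊔ X) ⊔ Z := by
    intro m n a b ha hb
    have hw := wt_nprod C ha hb (-2)
    by_cases hmn : m + n = 2
    · have hcase : (m = 0 ∧ n = 2) ∨ (m = 1 ∧ n = 1) ∨ (m = 2 ∧ n = 0) := by omega
      rcases hcase with ⟨rfl, rfl⟩ | ⟨rfl, rfl⟩ | ⟨rfl, rfl⟩
      · norm_num at ha
        rw [h0, Submodule.mem_span_singleton] at ha
        obtain ⟨r, rfl⟩ := ha
        rw [map_smul, LinearMap.smul_apply, vac_left]
        simp
      · refine le_sup_left (α := Submodule ℂ V) (le_sup_right (α := Submodule ℂ V)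
          (Submodule.subset_span ⟨a, ?_, b, ?_, rfl⟩))
        · simpa using ha
        · simpa using hb
      · norm_num at hb ha
        rw [h0, Submodule.mem_span_singleton] at hb
        obtain ⟨r, rfl⟩ := hb
        rw [map_smul, ← T_apply]
        exact le_sup_left (α := Submodule ℂ V) (le_sup_left (α := Submodule ℂ V)
          (Submodule.smul_mem _ _ ⟨a, ha, rfl⟩))
    · refine le_sup_right (α := Submodule ℂ V) ?_
      have hne : ((m : ℂ) / 2 + (n : ℂ) / 2 - ((-2 : ℤ) : ℂ) - 1) ≠ 2 := by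
        intro h
        have h2 : ((m + n : ℕ) : ℂ) = (2 : ℕ) := by
          push_cast at h ⊢
          linear_combination 2 * h
        exact hmn (by exact_mod_cast h2)
      exact (le_iSup₂_of_le (f := fun j (_ : j ≠ (2 : ℂ)) => C.wt j) _ hne le_rfl) hw
  have hall : C2 V ≤ (Submodule.map (T V) (C.wt 1) ⊔ X) ⊔ Z := by
    refine Submodule.span_le.2 ?_
    rintro _ ⟨a, b, rfl⟩
    have ha : a ∈ ⨆ n : ℕ, C.wt ((n : ℂ) / 2) := by rw [hgr]; trivial
    have hb : b ∈ ⨆ n : ℕ, C.wt ((n : ℂ) / 2) := by rw [hgr]; trivial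
    simp only [SetLike.mem_coe]
    induction ha using Submodule.iSup_induction' with
    | mem m a ha =>
      induction hb using Submodule.iSup_induction' with
      | mem n b hb => exact key m n a b ha hb
      | zero => simp
      | add b b' _ _ h1 h2 => rw [map_add]; exact Submodule.add_mem _ h1 h2
    | zero => simp
    | add a a' _ _ h1 h2 =>
      rw [map_add, LinearMap.add_apply]; exact Submodule.add_mem _ h1 h2
  obtain ⟨y, hy, z, hz, hyz⟩ := Submodule.mem_sup.1 (hall hω)
  obtain ⟨t, ht, x, hx, htx⟩ := Submodule.mem_sup.1 hy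
  obtain ⟨a, ha, rfl⟩ := ht
  have hT : T V a ∈ C.wt 2 := by
    have := wt_T C ha
    norm_num at this
    exact this
  have hx2 : x ∈ C.wt 2 := by
    have : X ≤ C.wt 2 := by
      rw [hX]
      refine Submodule.span_le.2 ?_
      rintro _ ⟨u, hu, v, hv, rfl⟩
      have := wt_nprod C hu hv (-2)
      norm_num at this
      exact this
    exact this hx
  have hz2 : z ∈ C.wt 2 := by
    have : z = C.omega - (T V a + x) := by rw [← hyz, htx]; abel
    rw [this]
    exact (C.wt 2).sub_mem (wt_omega C) ((C.wt 2).add_mem hT hx2)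
  have hind := (Module.End.eigenspaces_iSupIndep (nprod 1 C.omega : Module.End ℂ V)) 2
  have hz0 : z = 0 := by
    have := Submodule.disjoint_def.1 hind z hz2 hz
    exact this
  refine ⟨a, ha, x, hx, ?_⟩
  rw [← hyz, ← htx, hz0, add_zero]

/-- If `V_0 = ℂ 1`, the weights are in `ℕ/2` and the conformal vector lies in `C_2(V)`, then `V`
is generated by its subspace of weight one half. -/
theorem gen_half (hgr : ⨆ n : ℕ, C.wt ((n : ℂ) / 2) = ⊤)
    (h0 : C.wt 0 = Submodule.span ℂ {vac}) (hω : C.omega ∈ C2 V) :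
    GenSub (C.wt (1 / 2)) = ⊤ := by
  obtain ⟨a, ha, x, hx, hax⟩ := omega_decomp C hgr h0 hω
  set S := GenSub (C.wt (1 / 2)) with hS
  have hxS : x ∈ S := by
    have : Submodule.span ℂ {x | ∃ u ∈ C.wt (1 / 2), ∃ v ∈ C.wt (1 / 2),
      x = nprod (-2) u v} ≤ S := by
      refine Submodule.span_le.2 ?_
      rintro _ ⟨u, hu, v, hv, rfl⟩
      exact Sub_closed (U_le_Sub _ hu) (U_le_Sub _ hv) _
    exact this hx
  -- `L_1 x ∈ S`
  have hL1x : nprod 2 C.omega x ∈ S := by
    clear hax hxS
    induction hx using Submodule.span_induction with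
    | mem x h =>
      obtain ⟨u, hu, v, hv, rfl⟩ := h
      have h1 := L1_comm C u v (-2)
      have hbot : ∀ w ∈ C.wt (1 / 2), nprod 2 C.omega w = 0 := by
        intro w hw
        have h2 := wt_nprod C (wt_omega C) hw 2
        have h3 : (2 + 1 / 2 - ((2 : ℤ) : ℂ) - 1) = ((-1 : ℤ) : ℂ) / 2 := by push_cast; ring
        rw [h3, wt_neg C hgr (by norm_num)] at h2
        simpa using h2
      rw [hbot u hu, hbot v hv, C.mem_wt.1 hu] at h1
      simp only [map_zero, sub_zero, LinearMap.zero_apply, add_zero] at h1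
      rw [h1]
      refine S.add_mem (S.smul_mem _ ?_) (S.smul_mem _ ?_)
      · exact Sub_closed (U_le_Sub _ hu) (U_le_Sub _ hv) _
      · rw [map_smul, LinearMap.smul_apply]
        exact S.smul_mem _ (Sub_closed (U_le_Sub _ hu) (U_le_Sub _ hv) _)
    | zero => simp
    | add x y _ _ hx hy => rw [map_add]; exact S.add_mem hx hy
    | smul c x _ hx => rw [map_smul]; exact S.smul_mem _ hx
  -- `T` kills weight zero
  have hTL : ∀ b ∈ C.wt 1, T V (nprod 2 C.omega b) = 0 := by
    intro b hb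
    have h2 := wt_nprod C (wt_omega C) hb 2
    have h3 : (2 + 1 - ((2 : ℤ) : ℂ) - 1) = 0 := by push_cast; ring
    rw [h3, h0, Submodule.mem_span_singleton] at h2
    obtain ⟨r, hr⟩ := h2
    rw [← hr, map_smul, T_vac, smul_zero]
  have haS : a ∈ S := by
    have h1 : nprod 2 C.omega (T V a + x) = 0 := by rw [← hax]; exact L1_omega C
    rw [map_add, L1_T, hTL a ha, C.mem_wt.1 ha, zero_add, one_smul] at h1
    have h2 : a = (1 / 2 : ℂ) • (-(nprod 2 C.omega x)) := by
      rw [← eq_neg_iff_add_eq_zero] at h1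
      rw [← h1, smul_smul]; norm_num
    rw [h2]
    exact S.smul_mem _ (S.neg_mem hL1x)
  have hωS : C.omega ∈ S := by
    rw [hax]; exact S.add_mem (T_Sub haS) hxS
  have hmain : ∀ n : ℕ, ∀ c ∈ C.wt ((n : ℂ) / 2), c ∈ S := by
    intro n
    induction n using Nat.strong_induction_on with
    | _ n ih =>
      intro c hc
      rcases Nat.eq_zero_or_pos n with hn | hn
      · subst hn
        norm_num at hc
        rw [h0, Submodule.mem_span_singleton] at hc
        obtain ⟨r, rfl⟩ := hc
        exact S.smul_mem _ (vac_Sub _)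
      -- elements of weight lower than `n / 2`
      have hlow : ∀ z : ℤ, z < n → ∀ y ∈ C.wt ((z : ℂ) / 2), y ∈ S := by
        intro z hz y hy
        rcases lt_or_ge z 0 with hz0 | hz0
        · rw [wt_neg C hgr hz0] at hy
          rw [(Submodule.mem_bot ℂ).1 hy]; exact S.zero_mem
        · obtain ⟨m, rfl⟩ := Int.eq_ofNat_of_zero_le hz0
          exact ih m (by exact_mod_cast hz) y (by simpa using hy)
      have hmode : ∀ v ∈ C.wt (1 / 2), ∀ i : ℕ, nprod (i : ℤ) v c ∈ S := by
        intro v hv i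
        have h1 := wt_nprod C hv hc i
        have h2 : (1 / 2 + (n : ℂ) / 2 - ((i : ℤ) : ℂ) - 1) = (((n : ℤ) - 1 - 2 * i : ℤ) : ℂ) / 2 := by
          push_cast; ring
        rw [h2] at h1
        exact hlow _ (by omega) _ h1
      have hx0 : nprod 0 x c ∈ S := by
        clear hax hxS hL1x
        induction hx using Submodule.span_induction with
        | mem x h =>
          obtain ⟨u, hu, v, hv, rfl⟩ := h
          rw [iter]
          refine finsum_mem_sub fun i => S.smul_mem _ (S.sub_mem ?_ (S.smul_mem _ ?_))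
          · refine Sub_closed (U_le_Sub _ hu) ?_ _
            have := hmode v hv i
            rwa [zero_add]
          · exact Sub_closed (U_le_Sub _ hv) (hmode u hu i) _
        | zero => simp
        | add x y _ _ hx hy => rw [map_add, LinearMap.add_apply]; exact S.add_mem hx hy
        | smul c x _ hx => rw [map_smul, LinearMap.smul_apply]; exact S.smul_mem _ hx
      have hTc : T V c ∈ S := by
        have h1 : nprod 0 C.omega c = nprod 0 (T V a + x) c := by rw [← hax]
        rw [← C.translation, h1, map_add, LinearMap.add_apply, T_mode]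
        simpa using hx0
      have h3 : nprod 2 C.omega (T V c) ∈ S := Sub_closed hωS hTc _
      rw [L1_T] at h3
      have h4 : nprod 2 C.omega c ∈ S := by
        have h1 := wt_nprod C (wt_omega C) hc 2
        have h2 : (2 + (n : ℂ) / 2 - ((2 : ℤ) : ℂ) - 1) = (((n : ℤ) - 2 : ℤ) : ℂ) / 2 := by
          push_cast; ring
        rw [h2] at h1
        exact hlow _ (by omega) _ h1
      have h5 := S.sub_mem h3 (T_Sub h4)
      rw [add_sub_cancel_left, C.mem_wt.1 hc, smul_smul] at h5
      have h6 := S.smul_mem ((n : ℂ)⁻¹) h5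
      rw [smul_smul] at h6
      have hn0 : (n : ℂ) ≠ 0 := by exact_mod_cast hn.ne'
      have h7 : (n : ℂ)⁻¹ * (2 * ((n : ℂ) / 2)) = 1 := by field_simp
      rwa [h7, one_smul] at h6
  rw [eq_top_iff, ← hgr]
  exact iSup_le fun n c hc => hmain n c hc

/-- the modes of elements of weight one half commute up to scalars -/
theorem half_pairing (hgr : ⨆ n : ℕ, C.wt ((n : ℂ) / 2) = ⊤)
    (h0 : C.wt 0 = Submodule.span ℂ {vac}) {u v : V} (hu : u ∈ C.wt (1 / 2))
    (hv : v ∈ C.wt (1 / 2)) : (∃ r : ℂ, nprod 0 u v = r • vac) ∧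
      ∀ i : ℕ, nprod ((i : ℤ) + 1) u v = 0 := by
  constructor
  · have h := wt_nprod C hu hv 0
    norm_num at h
    rw [h0, Submodule.mem_span_singleton] at h
    obtain ⟨r, hr⟩ := h
    exact ⟨r, hr.symm⟩
  · intro i
    have h := wt_nprod C hu hv ((i : ℤ) + 1)
    have h2 : (1 / 2 + 1 / 2 - ((((i : ℤ) + 1 : ℤ)) : ℂ) - 1) = ((-(2 * (i + 1)) : ℤ) : ℂ) / 2 := by
      push_cast; ring
    rw [h2, wt_neg C hgr (by omega)] at h
    simpa using h

theorem half_comm (hgr : ⨆ n : ℕ, C.wt ((n : ℂ) / 2) = ⊤)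
    (h0 : C.wt 0 = Submodule.span ℂ {vac}) {u v : V} (hu : u ∈ C.wt (1 / 2))
    (hv : v ∈ C.wt (1 / 2)) {r : ℂ} (hr : nprod 0 u v = r • vac) (l m : ℤ) (x : V) :
    nprod l u (nprod m v x) = nprod m v (nprod l u x) + (if l + m = -1 then r else 0) • x := by
  have h := comm u v x l m
  rw [finsum_eq_single _ 0] at h
  · rw [sub_eq_iff_eq_add] at h
    rw [h, bc_zero, one_smul]
    have e : (l + m - ((0 : ℕ) : ℤ)) = l + m := by simp
    rw [e, show ((0 : ℕ) : ℤ) = 0 from rfl, hr, map_smul, LinearMap.smul_apply, vac_left, add_comm]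
    split_ifs <;> simp
  · intro i hi
    obtain ⟨j, rfl⟩ := Nat.exists_eq_succ_of_ne_zero hi
    have := (half_pairing C hgr h0 hu hv).2 j
    rw [Nat.succ_eq_add_one, Nat.cast_add, Nat.cast_one, this]
    simp

/-- annihilation modes lower the length -/
theorem half_lower (hgr : ⨆ n : ℕ, C.wt ((n : ℂ) / 2) = ⊤)
    (h0 : C.wt 0 = Submodule.span ℂ {vac}) {u : V} (hu : u ∈ C.wt (1 / 2)) (n : ℕ) (k : ℕ)
    {x : V} (hx : x ∈ Mon (C.wt (1 / 2)) (k + 1)) : nprod (n : ℤ) u x ∈ Mon (C.wt (1 / 2)) k := by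
  induction k generalizing x with
  | zero =>
    rw [Mon] at hx
    obtain ⟨y, hy, z, hz, rfl⟩ := Submodule.mem_sup.1 hx
    rw [map_add]
    refine Submodule.add_mem _ ?_ ?_
    · rw [Mon, Submodule.mem_span_singleton] at hy
      obtain ⟨r, rfl⟩ := hy
      rw [map_smul, vac_right' _ _ (by positivity), smul_zero]
      exact Submodule.zero_mem _
    · clear hx
      induction hz using Submodule.span_induction with
      | mem z h =>
        obtain ⟨v, hv, m, w, hw, rfl⟩ := h
        rw [Mon, Submodule.mem_span_singleton] at hw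
        obtain ⟨s, rfl⟩ := hw
        obtain ⟨r, hr⟩ := (half_pairing C hgr h0 hu hv).1
        rw [half_comm C hgr h0 hu hv hr, map_smul (nprod (n : ℤ) u), vac_right' _ _ (by positivity)]
        simp only [smul_zero, map_zero, zero_add]
        refine Submodule.smul_mem _ _ (Submodule.smul_mem _ _ (Submodule.subset_span rfl))
      | zero => simp
      | add x y _ _ hx hy => rw [map_add]; exact Submodule.add_mem _ hx hy
      | smul c x _ hx => rw [map_smul]; exact Submodule.smul_mem _ _ hx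
  | succ k ih =>
    rw [Mon] at hx
    obtain ⟨y, hy, z, hz, rfl⟩ := Submodule.mem_sup.1 hx
    rw [map_add]
    refine Submodule.add_mem _ (Mon_le_succ _ _ (ih hy)) ?_
    clear hx
    induction hz using Submodule.span_induction with
    | mem z h =>
      obtain ⟨v, hv, m, w, hw, rfl⟩ := h
      obtain ⟨r, hr⟩ := (half_pairing C hgr h0 hu hv).1
      rw [half_comm C hgr h0 hu hv hr]
      exact Submodule.add_mem _ (nprod_Mon hv _ (ih hw)) (Submodule.smul_mem _ _ hw)
    | zero => simp
    | add x y _ _ hx hy => rw [map_add]; exact Submodule.add_mem _ hx hy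
    | smul c x _ hx => rw [map_smul]; exact Submodule.smul_mem _ _ hx

end

end Run7.h206
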