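import Pool.Agent.Run7.h206.Ham
import Pool.Agent.Run7.h206.Diff

/-!
The derivation of `R_V` induced by a Hamiltonian, stable prime ideals, and a criterion for
irreducibility by descent to weight zero.
-/

namespace Run7.h206

open VertexAlgebra

section der

variable {R : Type*} [CommRing R] [Algebra ℂ R] {ι : Type*} {D : ι → Derivation ℂ R R}

/-- a prime stable ideal avoiding a given element -/
theorem exists_stab_prime_avoid {I : Ideal R} (hI : Stab D I) {z : R} (hz : ∀ k : ℕ, z ^ k ∉ I) :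
    ∃ P : Ideal R, P.IsPrime ∧ Stab D P ∧ I ≤ P ∧ z ∉ P := by
  obtain ⟨P, hIP, hP⟩ := zorn_le_nonempty₀ {J : Ideal R | Stab D J ∧ ∀ k : ℕ, z ^ k ∉ J} (by
    intro c hc hchain y hy
    refine ⟨sSup c, ⟨?_, ?_⟩, fun z hz => le_sSup hz⟩
    · intro i x hx
      rw [Submodule.mem_sSup_of_directed ⟨y, hy⟩ hchain.directedOn] at hx
      obtain ⟨J, hJ, hxJ⟩ := hx
      exact (le_sSup hJ) ((hc hJ).1 i x hxJ)
    · intro k h1
      rw [Submodule.mem_sSup_of_directed ⟨y, hy⟩ hchain.directedOn] at h1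
      obtain ⟨J, hJ, hxJ⟩ := h1
      exact (hc hJ).2 k hxJ) I ⟨hI, hz⟩
  obtain ⟨⟨hPs, hPt⟩, hmax⟩ := hP
  have hrad : P.IsRadical := by
    have h1 : P.radical ∈ {J : Ideal R | Stab D J ∧ ∀ k : ℕ, z ^ k ∉ J} := by
      refine ⟨stab_radical hPs, fun k hk => ?_⟩
      obtain ⟨n, hn⟩ := hk
      exact hPt (k * n) (by rw [pow_mul]; exact hn)
    exact hmax h1 Ideal.le_radical
  have hcolon : ∀ (b : R), ∃ Q : Ideal R, Stab D Q ∧ P ≤ Q ∧ ∀ x, x ∈ Q ↔ b * x ∈ P := by
    intro b
    refine ⟨{ carrier := {x | b * x ∈ P}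
              add_mem' := fun {x y} hx hy => by
                simp only [Set.mem_ofPred_eq] at *
                rw [mul_add]; exact P.add_mem hx hy
              zero_mem' := by simp
              smul_mem' := fun c x hx => by
                simp only [Set.mem_ofPred_eq, smul_eq_mul] at *
                have : b * (c * x) = c * (b * x) := by ring
                rw [this]; exact P.mul_mem_left _ hx }, ?_, ?_, ?_⟩
    · exact fun i x hx => stab_colon hPs hrad b i x hx
    · exact fun x hx => P.mul_mem_left _ hx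
    · exact fun x => Iff.rfl
  refine ⟨P, ⟨fun h => hPt 0 (by rw [h]; trivial), ?_⟩, hPs, hIP, fun h => hPt 1 (by simpa using h)⟩
  intro a b hab
  by_contra hc
  push Not at hc
  obtain ⟨ha, hb⟩ := hc
  have step : ∀ b : R, b ∉ P → ∀ a, a ∉ P → b * a ∈ P → ∃ k : ℕ, b * z ^ k ∈ P := by
    intro b _ a ha hab
    obtain ⟨Q, hQs, hPQ, hQ⟩ := hcolon b
    by_contra hc
    push Not at hc
    have : Q ≤ P := hmax ⟨hQs, fun k hk => hc k ((hQ _).1 hk)⟩ hPQ
    exact ha (this ((hQ a).2 hab))
  obtain ⟨k, hk⟩ := step b hb a ha (by rw [mul_comm]; exact hab)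
  obtain ⟨l, hl⟩ := step (z ^ k) (hPt k) b hb (by rw [mul_comm]; exact hk)
  rw [← pow_add] at hl
  exact hPt _ hl

/-- the nilradical is stable under all derivations -/
theorem stab_nilradical : Stab D (nilradical R) := by
  refine stab_radical ?_
  intro i x hx
  have : x = 0 := by simpa using hx
  rw [this, map_zero]; exact Ideal.zero_mem _

end der

section

variable {V : Type*} [AddCommGroup V] [Module ℂ V] [VertexAlgebra V]

/-- a Hamiltonian preserves `C_2(V)` -/
theorem Hamiltonian.C2_stable (h : Hamiltonian V) : C2 V ≤ (C2 V).comap h.H := by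
  intro x hx
  rw [← F_one] at hx
  change h.H x ∈ C2 V
  rw [← F_one]
  exact h.F_stable hx

/-- the operator on `R_V` induced by a Hamiltonian -/
noncomputable def HRlin (h : Hamiltonian V) : Module.End ℂ (RV V) :=
  (C2 V).mapQ (C2 V) h.H h.C2_stable

theorem HRlin_cl (h : Hamiltonian V) (a : V) : HRlin h (cl a) = cl (h.H a) := rfl

/-- the derivation of `R_V` induced by a Hamiltonian -/
noncomputable def HR (h : Hamiltonian V) : Derivation ℂ (RV V) (RV V) :=
  Derivation.mk' (HRlin h) (fun x y => by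
    obtain ⟨a, rfl⟩ := cl_surj x
    obtain ⟨b, rfl⟩ := cl_surj y
    rw [mul_cl, HRlin_cl, HRlin_cl, HRlin_cl, h.comm, smul_eq_mul, smul_eq_mul, mul_cl,
      mul_comm (cl b), mul_cl]
    simp)

theorem HR_cl (h : Hamiltonian V) (a : V) : HR h (cl a) = cl (h.H a) := rfl

/-- the family of derivations: all brackets and the Hamiltonian derivation -/
noncomputable def DD (h : Hamiltonian V) : Option (RV V) → Derivation ℂ (RV V) (RV V)
  | none => HR h
  | some x => ham x

/-- a homogeneous element of a stable ideal that is not nilpotent -/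
theorem exists_hom_nonnil (h : Hamiltonian V) {I : Ideal (RV V)} (hI : Stab (DD h) I)
    {r : RV V} (hr : r ∈ I) (hnil : ¬ IsNilpotent r) :
    ∃ μ : ℂ, ∃ a ∈ h.H.eigenspace μ, cl a ∈ I ∧ ¬ IsNilpotent (cl a) := by
  obtain ⟨a, rfl⟩ := cl_surj r
  obtain ⟨π, p1, p2, p3, p4⟩ := exists_proj h.H h.diagonalizable
  obtain ⟨t, ht1, ht2⟩ := p4 a
  have h1 : ∀ μ ∈ t, cl (π μ a) ∈ I := by
    have := comp_mem (HRlin h) (I.restrictScalars ℂ) (fun x hx => hI none x hx) t
      (fun μ => cl (π μ a)) (fun μ _ => by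
        rw [Module.End.mem_eigenspace_iff, HRlin_cl,
          Module.End.mem_eigenspace_iff.1 (p3 μ a), map_smul])
      (by rw [← map_sum, ht2]; exact hr)
    exact this
  by_contra hc
  push Not at hc
  apply hnil
  have h2 : ∀ μ ∈ t, cl (π μ a) ∈ nilradical (RV V) := fun μ hμ =>
    hc μ _ (p3 μ a) (h1 μ hμ)
  have h3 : cl a ∈ nilradical (RV V) := by
    rw [← ht2, map_sum]; exact Ideal.sum_mem _ h2
  exact h3

/-- descent to weight zero inside a stable ideal -/
theorem descend (h : Hamiltonian V)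
    (hneg : ∀ (μ : ℂ), μ.re < 0 → ∀ a ∈ h.H.eigenspace μ, IsNilpotent (cl a))
    (hpol : ∀ (μ : ℂ), μ ≠ 0 → ∀ a ∈ h.H.eigenspace μ, ¬ IsNilpotent (cl a) →
      ∃ b : V, h.H b = 0 ∧ ¬ IsNilpotent (brk (cl b) (cl a)))
    {I : Ideal (RV V)} (hI : Stab (DD h) I) : ∀ (n : ℕ) (μ : ℂ), μ.re < n →
    ∀ a ∈ h.H.eigenspace μ, cl a ∈ I → ¬ IsNilpotent (cl a) →
      ∃ b : V, h.H b = 0 ∧ cl b ∈ I ∧ ¬ IsNilpotent (cl b) := by
  intro n
  induction n with
  | zero =>
    intro μ hμ a ha _ hnil
    exact absurd (hneg μ (by simpa using hμ) a ha) hnil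
  | succ n ih =>
    intro μ hμ a ha haI hnil
    by_cases h0 : μ = 0
    · subst h0
      refine ⟨a, ?_, haI, hnil⟩
      have := Module.End.mem_eigenspace_iff.1 ha
      rwa [zero_smul] at this
    · obtain ⟨b, hb, hbn⟩ := hpol μ h0 a ha hnil
      rw [brk_cl] at hbn
      refine ih (μ - 1) ?_ (nprod 0 b a) ?_ ?_ hbn
      · rw [Complex.sub_re, Complex.one_re]; push_cast at hμ; linarith
      · rw [Module.End.mem_eigenspace_iff] at ha ⊢
        rw [h.comm, ha, hb, map_smul, sub_smul]
        simp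
      · have := hI (some (cl b)) _ haI
        exact this

/-- Irreducibility criterion: if every non-nilpotent homogeneous function of non-zero weight has a
non-nilpotent bracket with a function of weight zero, then the nilradical of `R_V` is prime. -/
theorem nil_prime_of_pol (C : ConformalVector V) (hs : IsSimple V)
    (hfg : Algebra.FiniteType ℂ (RV V)) (h : Hamiltonian V)
    (hneg : ∀ (μ : ℂ), μ.re < 0 → ∀ a ∈ h.H.eigenspace μ, IsNilpotent (cl a))
    (hpol : ∀ (μ : ℂ), μ ≠ 0 → ∀ a ∈ h.H.eigenspace μ, ¬ IsNilpotent (cl a) →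
      ∃ b : V, h.H b = 0 ∧ ¬ IsNilpotent (brk (cl b) (cl a)))
    {x y : RV V} (hxy : IsNilpotent (x * y)) : IsNilpotent x ∨ IsNilpotent y := by
  by_contra hc
  push Not at hc
  obtain ⟨hx, hy⟩ := hc
  have hN : Stab (DD h) (nilradical (RV V)) := stab_nilradical
  have hNr : (nilradical (RV V)).IsRadical := Ideal.radical_isRadical ⊥
  -- the colon ideal of `x`
  let J : Ideal (RV V) :=
    { carrier := {r | x * r ∈ nilradical (RV V)}
      add_mem' := fun {a b} ha hb => by
        simp only [Set.mem_ofPred_eq] at *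
        rw [mul_add]; exact Ideal.add_mem _ ha hb
      zero_mem' := by simp
      smul_mem' := fun c a ha => by
        simp only [Set.mem_ofPred_eq, smul_eq_mul] at *
        have : x * (c * a) = c * (x * a) := by ring
        rw [this]; exact Ideal.mul_mem_left _ _ ha }
  have hJ : Stab (DD h) J := fun i r hr => stab_colon hN hNr x i r hr
  have hyJ : y ∈ J := hxy
  -- the annihilator of `J` modulo nilpotents
  let K : Ideal (RV V) :=
    { carrier := {r | ∀ j ∈ J, j * r ∈ nilradical (RV V)}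
      add_mem' := fun {a b} ha hb j hj => by
        rw [mul_add]; exact Ideal.add_mem _ (ha j hj) (hb j hj)
      zero_mem' := fun j _ => by simp
      smul_mem' := fun c a ha j hj => by
        have : j * (c • a) = c * (j * a) := by rw [smul_eq_mul]; ring
        rw [this]; exact Ideal.mul_mem_left _ _ (ha j hj) }
  have hK : Stab (DD h) K := by
    intro i r hr j hj
    have h1 := hN i _ (hr j hj)
    rw [Derivation.leibniz, smul_eq_mul, smul_eq_mul] at h1
    have h2 := hr _ (hJ i j hj)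
    have h3 : j * (DD h i) r = (j * (DD h i) r + r * (DD h i) j) - (DD h i) j * r := by ring
    rw [h3]
    exact Ideal.sub_mem _ h1 h2
  have hxK : x ∈ K := fun j hj => by
    rw [mul_comm]; exact hj
  obtain ⟨μ, a, ha, haJ, han⟩ := exists_hom_nonnil h hJ hyJ hy
  obtain ⟨ν, b, hb, hbK, hbn⟩ := exists_hom_nonnil h hK hxK hx
  obtain ⟨n, hn⟩ := exists_nat_gt μ.re
  obtain ⟨m, hm⟩ := exists_nat_gt ν.re
  obtain ⟨a', ha', haJ', han'⟩ := descend h hneg hpol hJ n μ hn a ha haJ han
  obtain ⟨b', hb', hbK', hbn'⟩ := descend h hneg hpol hK m ν hm b hb hbK hbn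
  rcases weight_zero_domain C hs hfg h hneg ha' hb' (hbK' _ haJ') with h1 | h1
  · exact han' h1
  · exact hbn' h1

/-- irreducibility of the maximal spectrum when the nilradical is prime -/
theorem irreducible_of_nil_prime {R : Type*} [CommRing R] [Algebra ℂ R]
    (hfg : Algebra.FiniteType ℂ R) (hR : Nontrivial R)
    (hp : ∀ x y : R, IsNilpotent (x * y) → IsNilpotent x ∨ IsNilpotent y) :
    IrreducibleSpace (MaximalSpectrum R) := by
  have hJac : IsJacobsonRing R := isJacobsonRing_of_finiteType (A := ℂ)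
  have hmax : ∀ z : R, ¬ IsNilpotent z → ∃ M : Ideal R, M.IsMaximal ∧ z ∉ M := by
    intro z hz
    have h1 : (nilradical R).jacobson = nilradical R :=
      (isJacobsonRing_iff.1 hJac) _ (Ideal.radical_isRadical ⊥)
    by_contra hc
    push Not at hc
    apply hz
    have h2 : z ∈ (nilradical R).jacobson := by
      rw [Ideal.jacobson, Ideal.mem_sInf]
      rintro M ⟨_, hM⟩
      exact hc M hM
    rw [h1] at h2
    exact h2
  have hne : Nonempty (MaximalSpectrum R) := inferInstance
  refine { toNonempty := hne, isPreirreducible_univ := ?_ }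
  intro u v hu hv ⟨x, _, hx⟩ ⟨y, _, hy⟩
  obtain ⟨u', hu', rfl⟩ := isOpen_induced_iff.1 hu
  obtain ⟨v', hv', rfl⟩ := isOpen_induced_iff.1 hv
  obtain ⟨_, ⟨f, rfl⟩, hxf, hfu⟩ :=
    PrimeSpectrum.isTopologicalBasis_basic_opens.exists_subset_of_mem_open hx hu'
  obtain ⟨_, ⟨g, rfl⟩, hyg, hgv⟩ :=
    PrimeSpectrum.isTopologicalBasis_basic_opens.exists_subset_of_mem_open hy hv'
  have hf : ¬ IsNilpotent f := fun ⟨k, hk⟩ =>
    hxf (x.isMaximal.isPrime.mem_of_pow_mem k (by rw [hk]; exact Ideal.zero_mem _))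
  have hg : ¬ IsNilpotent g := fun ⟨k, hk⟩ =>
    hyg (y.isMaximal.isPrime.mem_of_pow_mem k (by rw [hk]; exact Ideal.zero_mem _))
  have hfg' : ¬ IsNilpotent (f * g) := fun h => (hp f g h).elim hf hg
  obtain ⟨M, hM, hM2⟩ := hmax (f * g) hfg'
  refine ⟨⟨M, hM⟩, trivial, hfu ?_, hgv ?_⟩
  · exact fun h => hM2 (M.mul_mem_right _ h)
  · exact fun h => hM2 (M.mul_mem_left _ h)

end

end Run7.h206
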