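import Pool.Agent.Run7.h206.Words

/-!
Hamiltonians of a vertex algebra, and the weight-zero part of `R_V` for a simple vertex algebra.
-/

namespace Run7.h206

open VertexAlgebra

section

variable (V : Type*) [AddCommGroup V] [Module ℂ V] [VertexAlgebra V]

/-- A Hamiltonian: a diagonalizable operator `H` with
`[H, a_(n)] = (H a)_(n) - (n + 1) a_(n)`. -/
structure Hamiltonian where
  H : Module.End ℂ V
  comm : ∀ (a b : V) (n : ℤ),
    H (nprod n a b) = nprod n a (H b) + nprod n (H a) b - ((n : ℂ) + 1) • nprod n a b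
  diagonalizable : ⨆ μ : ℂ, H.eigenspace μ = ⊤

variable {V}

theorem Hamiltonian.vac (h : Hamiltonian V) : h.H (vac : V) = 0 := by
  have h1 := h.comm (VertexAlgebra.vac : V) (VertexAlgebra.vac : V) (-1)
  rw [vac_left, if_pos rfl, vac_left, if_pos rfl, vac_right] at h1
  simpa using h1

theorem Hamiltonian.op (h : Hamiltonian V) (s : V × ℕ) (x : V) :
    h.H (op s x) = op s (h.H x) + Run7.h206.op (h.H s.1, s.2) x + (s.2 : ℂ) • Run7.h206.op s x := by
  rw [op_apply, h.comm, op_apply, op_apply]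
  simp only
  rw [sub_eq_add_neg, ← neg_smul]
  congr 2
  push_cast; ring

/-- the Li filtration is stable under a Hamiltonian -/
theorem Hamiltonian.F_stable (h : Hamiltonian V) {p : ℕ} {x : V} (hx : x ∈ F V p) :
    h.H x ∈ F V p := by
  induction hx using Submodule.span_induction with
  | mem x hx =>
    obtain ⟨L, b, hL, rfl⟩ := hx
    refine F_anti hL ?_
    clear hL
    induction L with
    | nil => simp [F_zero]
    | cons s L ih =>
      rw [word_cons, Module.End.mul_apply, h.op, deg_cons, add_comm s.2]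
      exact Submodule.add_mem _ (Submodule.add_mem _ (op_F s ih)
        (op_F (h.H s.1, s.2) (word_mem_F le_rfl b)))
        (Submodule.smul_mem _ _ (op_F s (word_mem_F le_rfl b)))
  | zero => simp
  | add x y _ _ hx hy => rw [map_add]; exact Submodule.add_mem _ hx hy
  | smul c x _ hx => rw [map_smul]; exact Submodule.smul_mem _ _ hx

/-- a subspace stable under an operator contains the components of its elements in the
eigenspaces -/
theorem comp_mem {M : Type*} [AddCommGroup M] [Module ℂ M] (E : Module.End ℂ M) (N : Submodule ℂ M)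
    (hN : ∀ x ∈ N, E x ∈ N) (s : Finset ℂ) : ∀ (f : ℂ → M), (∀ μ ∈ s, f μ ∈ E.eigenspace μ) →
    ∑ μ ∈ s, f μ ∈ N → ∀ μ ∈ s, f μ ∈ N := by
  classical
  induction s using Finset.induction_on with
  | empty => intro f _ _ μ hμ; simp at hμ
  | insert ν s hν ih =>
    intro f hf hsum
    have h1 : E (∑ μ ∈ insert ν s, f μ) - ν • ∑ μ ∈ insert ν s, f μ = ∑ μ ∈ s, (μ - ν) • f μ := by
      rw [map_sum, Finset.smul_sum, ← Finset.sum_sub_distrib, Finset.sum_insert hν]
      rw [Module.End.mem_eigenspace_iff.1 (hf ν (Finset.mem_insert_self _ _)), sub_self, zero_add]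
      refine Finset.sum_congr rfl fun μ hμ => ?_
      rw [Module.End.mem_eigenspace_iff.1 (hf μ (Finset.mem_insert_of_mem hμ)), sub_smul]
    have h2 : ∑ μ ∈ s, (μ - ν) • f μ ∈ N := by
      rw [← h1]; exact N.sub_mem (hN _ hsum) (N.smul_mem _ hsum)
    have h3 := ih (fun μ => (μ - ν) • f μ)
      (fun μ hμ => Submodule.smul_mem _ _ (hf μ (Finset.mem_insert_of_mem hμ))) h2
    have h4 : ∀ μ ∈ s, f μ ∈ N := by
      intro μ hμ
      have hne : μ - ν ≠ 0 := sub_ne_zero.2 fun h => hν (h ▸ hμ)
      have := N.smul_mem ((μ - ν)⁻¹) (h3 μ hμ)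
      simp only [smul_smul, inv_mul_cancel₀ hne, one_smul] at this
      exact this
    intro μ hμ
    rcases Finset.mem_insert.1 hμ with rfl | hμ
    · rw [Finset.sum_insert hν] at hsum
      have := N.sub_mem hsum (N.sum_mem h4)
      rwa [add_sub_cancel_right] at this
    · exact h4 μ hμ

/-- operators of degree `n` that are combinations of words in letters from `G`, modulo operators
of higher degree -/
def WG (G : Set V) (n : ℕ) : Submodule ℂ (Module.End ℂ V) :=
  Submodule.span ℂ {X | ∃ L : List (V × ℕ), (∀ s ∈ L, s.1 ∈ G) ∧ deg L = n ∧ X = word L} ⊔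
    U V (n + 1)

theorem WG_le_U (G : Set V) (n : ℕ) : WG G n ≤ U V n := by
  refine sup_le (Submodule.span_le.2 ?_) (U_anti (Nat.le_succ n))
  rintro X ⟨L, _, rfl, rfl⟩
  exact word_U L

theorem U_le_WG (G : Set V) (n : ℕ) : U V (n + 1) ≤ WG G n := le_sup_right

theorem word_WG {G : Set V} {L : List (V × ℕ)} (h : ∀ s ∈ L, s.1 ∈ G) : word L ∈ WG G (deg L) :=
  (le_sup_left : _ ≤ WG G (deg L)) (Submodule.subset_span ⟨L, h, rfl, rfl⟩)

theorem WG_mul {G : Set V} {m n : ℕ} {X Y : Module.End ℂ V} (hX : X ∈ WG G m)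
    (hY : Y ∈ WG G n) : X * Y ∈ WG G (m + n) := by
  obtain ⟨x1, hx1, x2, hx2, rfl⟩ := Submodule.mem_sup.1 hX
  obtain ⟨y1, hy1, y2, hy2, rfl⟩ := Submodule.mem_sup.1 hY
  have hx1U : x1 ∈ U V m := WG_le_U G m ((le_sup_left : _ ≤ WG G m) hx1)
  have e : (x1 + x2) * (y1 + y2) = x1 * y1 + (x1 * y2 + x2 * (y1 + y2)) := by noncomm_ring
  rw [e]
  refine Submodule.add_mem _ ((le_sup_left : _ ≤ WG G (m + n)) ?_)
    (U_le_WG _ _ (Submodule.add_mem _ (U_mul hx1U hy2 (by omega))
      (U_mul hx2 (WG_le_U G n hY) (by omega))))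
  have h1 := Submodule.mul_mem_mul hx1 hy1
  rw [Submodule.span_mul_span] at h1
  refine Submodule.span_mono ?_ h1
  rintro Z hZ
  obtain ⟨_, ⟨L, hL1, hL2, rfl⟩, _, ⟨L', hL1', hL2', rfl⟩, rfl⟩ := Set.mem_mul.1 hZ
  refine ⟨L ++ L', ?_, by rw [deg_append]; omega, (word_append L L').symm⟩
  intro s hs
  rcases List.mem_append.1 hs with h | h
  · exact hL1 s h
  · exact hL1' s h

theorem op_add (a b : V) (n : ℕ) : op (a + b, n) = op (a, n) + op (b, n) := by
  unfold op; simp

theorem op_smul (c : ℂ) (a : V) (n : ℕ) : op (c • a, n) = c • op (a, n) := by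
  unfold op; simp

/-- every letter is a combination of words in letters from a generating set of `R_V` -/
theorem op_WG {G : Set V} (hG : Algebra.adjoin ℂ (cl '' G) = ⊤) (a : V) (n : ℕ) :
    op (a, n) ∈ WG G n := by
  have key : ∀ a b : V, cl a = cl b → (∀ n, op (b, n) ∈ WG G n) → ∀ n, op (a, n) ∈ WG G n := by
    intro a b hab hb n
    have h1 : a = b + (a - b) := by abel
    rw [h1, op_add]
    exact Submodule.add_mem _ (hb n) (U_le_WG _ _ (op_C2 (cl_eq_iff.1 hab) n))
  have hall : ∀ r ∈ Algebra.adjoin ℂ (cl '' G), ∀ a : V, cl a = r → ∀ n, op (a, n) ∈ WG G n := by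
    intro r hr
    induction hr using Algebra.adjoin_induction with
    | mem r h =>
      obtain ⟨g, hg, rfl⟩ := h
      intro a ha
      refine key a g ha fun n => ?_
      have := word_WG (G := G) (L := [(g, n)]) (by simpa using hg)
      simpa using this
    | algebraMap c =>
      intro a ha
      have h1 : cl a = cl (c • (vac : V)) := by
        rw [ha, map_smul, ← one_eq, Algebra.algebraMap_eq_smul_one]
      refine key a _ h1 fun n => ?_
      rw [op_smul, op_zero_left]
      refine Submodule.smul_mem _ _ ?_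
      split_ifs with h
      · subst h
        exact word_WG (G := G) (L := []) (by simp)
      · exact Submodule.zero_mem _
    | add r s _ _ hr hs =>
      intro a ha
      obtain ⟨b, rfl⟩ := cl_surj r
      obtain ⟨c, rfl⟩ := cl_surj s
      refine key a (b + c) (by rw [ha, map_add]) fun n => ?_
      rw [op_add]
      exact Submodule.add_mem _ (hr b rfl n) (hs c rfl n)
    | mul r s _ _ hr hs =>
      intro a ha
      obtain ⟨b, rfl⟩ := cl_surj r
      obtain ⟨c, rfl⟩ := cl_surj s
      refine key a (nprod (-1) b c) (by rw [ha, mul_cl]) fun n => ?_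
      have h1 := op_mul b c n
      have h2 : op (nprod (-1) b c, n) =
        (op (nprod (-1) b c, n) - ∑ i ∈ Finset.range (n + 1), op (b, i) * op (c, n - i)) +
        ∑ i ∈ Finset.range (n + 1), op (b, i) * op (c, n - i) := by abel
      rw [h2]
      refine Submodule.add_mem _ (U_le_WG _ _ h1) (Submodule.sum_mem _ fun i hi => ?_)
      rw [Finset.mem_range] at hi
      have h3 := WG_mul (hr b rfl i) (hs c rfl (n - i))
      rwa [show i + (n - i) = n by omega] at h3
  exact hall (cl a) (by rw [hG]; trivial) a rfl n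

theorem word_WG' {G : Set V} (hG : Algebra.adjoin ℂ (cl '' G) = ⊤) (L : List (V × ℕ)) :
    word L ∈ WG G (deg L) := by
  induction L with
  | nil => exact word_WG (G := G) (L := []) (by simp)
  | cons s L ih => rw [word_cons, deg_cons]; exact WG_mul (op_WG hG s.1 s.2) ih

/-- spanning of the associated graded space by words in a generating set -/
theorem F_span {G : Set V} (hG : Algebra.adjoin ℂ (cl '' G) = ⊤) (p : ℕ) :
    F V p ≤ Submodule.span ℂ {x | ∃ L : List (V × ℕ), (∀ s ∈ L, s.1 ∈ G) ∧ deg L = p ∧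
      x = word L (vac : V)} ⊔ F V (p + 1) := by
  refine Submodule.span_le.2 ?_
  rintro x ⟨L, b, hL, rfl⟩
  rcases Nat.lt_or_ge p (deg L) with h | h
  · exact (le_sup_right : F V (p + 1) ≤ _) (word_mem_F h b)
  have hp : deg L = p := le_antisymm h hL
  have h1 : word L b = word (L ++ [(b, 0)]) (vac : V) := by
    rw [word_append, Module.End.mul_apply]
    congr 1
    simp [op_apply, vac_right]
  have h2 : deg (L ++ [(b, 0)]) = p := by rw [deg_append]; simp [hp]
  have h3 := word_WG' hG (L ++ [(b, 0)])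
  rw [h2] at h3
  obtain ⟨x1, hx1, x2, hx2, hx⟩ := Submodule.mem_sup.1 h3
  rw [h1, ← hx, LinearMap.add_apply]
  have hv : (vac : V) ∈ F V 0 := by rw [F_zero]; trivial
  refine Submodule.add_mem _ ((le_sup_left (α := Submodule ℂ V)) ?_)
    ((le_sup_right (α := Submodule ℂ V)) ?_)
  · clear hx
    induction hx1 using Submodule.span_induction with
    | mem X h =>
      obtain ⟨L', h4, h5, rfl⟩ := h
      exact Submodule.subset_span ⟨L', h4, h5, rfl⟩
    | zero => simp
    | add X Y _ _ hX hY => rw [LinearMap.add_apply]; exact Submodule.add_mem _ hX hY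
    | smul c X _ hX => rw [LinearMap.smul_apply]; exact Submodule.smul_mem _ _ hX
  · have := hx2 0 _ hv
    rwa [zero_add] at this

/-- the weight of a word -/
noncomputable def wtw (w : V → ℂ) (L : List (V × ℕ)) : ℂ := (L.map fun s => w s.1 + s.2).sum

theorem word_eig (h : Hamiltonian V) {w : V → ℂ} {L : List (V × ℕ)}
    (hL : ∀ s ∈ L, s.1 ∈ h.H.eigenspace (w s.1)) :
    word L (vac : V) ∈ h.H.eigenspace (wtw w L) := by
  induction L with
  | nil => simp [wtw, h.vac]
  | cons s L ih =>
    have ih := ih fun t ht => hL t (List.mem_cons_of_mem _ ht)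
    rw [Module.End.mem_eigenspace_iff] at ih ⊢
    have h1 := Module.End.mem_eigenspace_iff.1 (hL s List.mem_cons_self)
    rw [word_cons, Module.End.mul_apply, h.op, ih, h1, map_smul, op_smul, LinearMap.smul_apply,
      ← add_smul, ← add_smul]
    congr 1
    simp [wtw]
    ring

omit [AddCommGroup V] [Module ℂ V] [VertexAlgebra V] in
open Classical in
theorem weight_count {G : Finset V} {w : V → ℂ} {m : ℕ} (hm : ∀ g ∈ G, -(m : ℝ) ≤ (w g).re)
    {S : Finset (V × ℕ)}
    (hS : ∀ g ∈ G, ∀ n : ℕ, (w g).re < 0 → n < 2 * m → (g, n) ∈ S) {L : List (V × ℕ)}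
    (hL : ∀ s ∈ L, s.1 ∈ G) : -(m : ℝ) * cnt S L ≤ (wtw w L).re - (deg L : ℝ) / 2 := by
  induction L with
  | nil => simp [cnt, wtw]
  | cons s L ih =>
    have ih := ih fun t ht => hL t (List.mem_cons_of_mem _ ht)
    have hs := hL s List.mem_cons_self
    have e1 : (wtw w (s :: L)).re = (w s.1).re + s.2 + (wtw w L).re := by
      simp [wtw]
    have e2 : (deg (s :: L) : ℝ) = s.2 + deg L := by rw [deg_cons]; push_cast; ring
    rw [e1, e2]
    by_cases hsS : s ∈ S
    · rw [cnt_cons_mem hsS]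
      push_cast
      have := hm s.1 hs
      have h2 : (0 : ℝ) ≤ s.2 := Nat.cast_nonneg _
      linarith
    · rw [cnt_cons_not hsS]
      have h2 : (0 : ℝ) ≤ (w s.1).re + s.2 / 2 := by
        by_cases hneg : (w s.1).re < 0
        · have h3 : 2 * m ≤ s.2 := by
            by_contra hc
            push Not at hc
            exact hsS (hS s.1 hs s.2 hneg hc)
          have h4 : ((2 * m : ℕ) : ℝ) ≤ s.2 := by exact_mod_cast h3
          push_cast at h4
          have := hm s.1 hs
          linarith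
        · push Not at hneg
          have h3 : (0 : ℝ) ≤ s.2 := Nat.cast_nonneg _
          linarith
      linarith

/-- existence of finite homogeneous generating sets -/
theorem exists_hom_gen (h : Hamiltonian V) (hfg : Algebra.FiniteType ℂ (RV V)) :
    ∃ (G : Finset V) (w : V → ℂ), (∀ g ∈ G, g ∈ h.H.eigenspace (w g)) ∧
      Algebra.adjoin ℂ (cl '' (G : Set V)) = ⊤ := by
  classical
  obtain ⟨s, hs⟩ := hfg.out
  obtain ⟨π, h1, h2, h3, h4⟩ := exists_proj h.H h.diagonalizable
  choose lift hlift using (fun r : RV V => cl_surj r)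
  choose T hT1 hT2 using h4
  let G : Finset V := s.biUnion fun r => (T (lift r)).image fun μ => π μ (lift r)
  have hG : ∀ g ∈ G, ∃ μ : ℂ, g ∈ h.H.eigenspace μ := by
    intro g hg
    obtain ⟨r, _, hr⟩ := Finset.mem_biUnion.1 hg
    obtain ⟨μ, _, rfl⟩ := Finset.mem_image.1 hr
    exact ⟨μ, h3 μ _⟩
  let w : V → ℂ := fun g => if hg : ∃ μ : ℂ, g ∈ h.H.eigenspace μ then hg.choose else 0
  refine ⟨G, w, ?_, ?_⟩
  · intro g hg
    have := hG g hg
    simp only [w, dif_pos this]
    exact this.choose_spec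
  · rw [eq_top_iff, ← hs]
    refine Algebra.adjoin_le ?_
    intro r hr
    have h5 : r = ∑ μ ∈ T (lift r), cl (π μ (lift r)) := by
      rw [← map_sum, hT2, hlift]
    rw [SetLike.mem_coe, h5]
    refine Subalgebra.sum_mem _ fun μ hμ => Algebra.subset_adjoin ⟨_, ?_, rfl⟩
    exact Finset.mem_coe.2 (Finset.mem_biUnion.2 ⟨r, hr, Finset.mem_image.2 ⟨μ, hμ, rfl⟩⟩)

/-- weight-zero vectors deep in the Li filtration vanish -/
theorem weight_zero_deep (C : ConformalVector V) (hs : IsSimple V) (hR : Nontrivial (RV V))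
    (hfg : Algebra.FiniteType ℂ (RV V)) (h : Hamiltonian V)
    (hneg : ∀ (μ : ℂ), μ.re < 0 → ∀ a ∈ h.H.eigenspace μ, IsNilpotent (cl a)) :
    ∃ M : ℕ, ∀ x ∈ F V M, h.H x = 0 → x = 0 := by
  classical
  obtain ⟨G, w, hGw, hG⟩ := exists_hom_gen h hfg
  obtain ⟨m, hm⟩ : ∃ m : ℕ, ∀ g ∈ G, -(m : ℝ) ≤ (w g).re := by
    refine ⟨∑ g ∈ G, ⌈|(w g).re|⌉₊, fun g hg => ?_⟩
    have h1 : ⌈|(w g).re|⌉₊ ≤ ∑ g ∈ G, ⌈|(w g).re|⌉₊ :=
      Finset.single_le_sum (f := fun g => ⌈|(w g).re|⌉₊) (fun _ _ => Nat.zero_le _) hg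
    have h2 : |(w g).re| ≤ (⌈|(w g).re|⌉₊ : ℝ) := Nat.le_ceil _
    have h3 : ((⌈|(w g).re|⌉₊ : ℕ) : ℝ) ≤ ((∑ g ∈ G, ⌈|(w g).re|⌉₊ : ℕ) : ℝ) := by
      exact_mod_cast h1
    have h4 := neg_abs_le (w g).re
    linarith
  let S : Finset (V × ℕ) := (G.filter fun g => (w g).re < 0) ×ˢ Finset.range (2 * m)
  have hS : ∀ g ∈ G, ∀ n : ℕ, (w g).re < 0 → n < 2 * m → (g, n) ∈ S := by
    intro g hg n h1 h2
    exact Finset.mem_product.2 ⟨Finset.mem_filter.2 ⟨hg, h1⟩, Finset.mem_range.2 h2⟩
  have hnil : ∀ s ∈ S, ∃ N, NilL s N := by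
    intro s hsS
    obtain ⟨h1, _⟩ := Finset.mem_product.1 hsS
    obtain ⟨h2, h3⟩ := Finset.mem_filter.1 h1
    exact nilL_of_nilpotent (hneg _ h3 _ (hGw _ h2)) s.2
  let N : V × ℕ → ℕ := fun s => if hs : ∃ N, NilL s N then hs.choose else 0
  have hN : ∀ s ∈ S, NilL s (N s) := by
    intro s hsS
    have := hnil s hsS
    simp only [N, dif_pos this]
    exact this.choose_spec
  set B := ∑ s ∈ S, N s with hB
  -- the main step
  obtain ⟨π, p1, p2, p3, p4⟩ := exists_proj h.H h.diagonalizable
  have hπF : ∀ p : ℕ, ∀ x ∈ F V p, ∀ μ, π μ x ∈ F V p := by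
    intro p x hx μ
    obtain ⟨t, ht1, ht2⟩ := p4 x
    by_cases hμ : μ ∈ t
    · exact comp_mem h.H (F V p) (fun y hy => h.F_stable hy) t (fun ν => π ν x)
        (fun ν _ => p3 ν x) (by rw [ht2]; exact hx) μ hμ
    · rw [ht1 μ hμ]; exact Submodule.zero_mem _
  have hstep : ∀ p : ℕ, 2 * m * B < p → ∀ x ∈ F V p, h.H x = 0 → x ∈ F V (p + 1) := by
    intro p hp x hx hx0
    have hx0' : x ∈ h.H.eigenspace 0 := by
      rw [Module.End.mem_eigenspace_iff, hx0, zero_smul]
    obtain ⟨y, hy, z, hz, hyz⟩ := Submodule.mem_sup.1 (F_span hG p hx)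
    have h1 : x = π 0 y + π 0 z := by
      rw [← map_add, hyz, p1 0 x hx0']
    rw [h1]
    refine Submodule.add_mem _ ?_ (hπF _ z hz 0)
    clear hyz h1
    induction hy using Submodule.span_induction with
    | mem y hy =>
      obtain ⟨L, hL, hLp, rfl⟩ := hy
      have hLG : ∀ s ∈ L, s.1 ∈ G := fun s hs => Finset.mem_coe.1 (hL s hs)
      have h2 := word_eig h (w := w) (L := L) (fun s hs => hGw _ (hLG s hs))
      by_cases hw : wtw w L = 0
      · rw [hw] at h2
        rw [p1 0 _ h2]
        have h3 := weight_count hm hS hLG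
        rw [hw, hLp] at h3
        have h4 : B < cnt S L := by
          by_contra hc
          push Not at hc
          have h5 : ((cnt S L : ℕ) : ℝ) ≤ (B : ℝ) := by exact_mod_cast hc
          have h6 : ((2 * m * B : ℕ) : ℝ) < (p : ℝ) := by exact_mod_cast hp
          push_cast at h6
          have h7 : (0 : ℝ) ≤ m := Nat.cast_nonneg _
          have h8 : (m : ℝ) * cnt S L ≤ m * B := mul_le_mul_of_nonneg_left h5 h7
          simp only [Complex.zero_re] at h3
          nlinarith
        have h5 := word_nil_of_cnt hN h4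
        have hv : (VertexAlgebra.vac : V) ∈ F V 0 := by rw [F_zero]; trivial
        have h6 := h5 0 _ hv
        rwa [zero_add, hLp] at h6
      · rw [p2 0 _ _ (Ne.symm hw) h2]; exact Submodule.zero_mem _
    | zero => simp
    | add a b _ _ ha hb => rw [map_add]; exact Submodule.add_mem _ ha hb
    | smul c a _ ha => rw [map_smul]; exact Submodule.smul_mem _ _ ha
  refine ⟨2 * m * B + 1, fun x hx hx0 => separated C hs hR fun p => ?_⟩
  have h9 : ∀ j : ℕ, x ∈ F V (2 * m * B + 1 + j) := by
    intro j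
    induction j with
    | zero => exact hx
    | succ j ih =>
      have h10 : 2 * m * B < 2 * m * B + 1 + j := by omega
      have h11 := hstep (2 * m * B + 1 + j) h10 x ih hx0
      rwa [add_assoc] at h11
  exact F_anti (by omega) (h9 p)

/-- The weight-zero part of `R_V` modulo nilpotents is a domain. -/
theorem weight_zero_domain (C : ConformalVector V) (hs : IsSimple V)
    (hfg : Algebra.FiniteType ℂ (RV V)) (h : Hamiltonian V)
    (hneg : ∀ (μ : ℂ), μ.re < 0 → ∀ a ∈ h.H.eigenspace μ, IsNilpotent (cl a))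
    {a b : V} (ha : h.H a = 0) (hb : h.H b = 0) (hab : IsNilpotent (cl a * cl b)) :
    IsNilpotent (cl a) ∨ IsNilpotent (cl b) := by
  by_contra hc
  push Not at hc
  obtain ⟨hca, hcb⟩ := hc
  have hR : Nontrivial (RV V) := by
    refine ⟨⟨cl a, 0, fun h0 => hca ?_⟩⟩
    rw [h0]; exact IsNilpotent.zero
  obtain ⟨M, hM⟩ := weight_zero_deep C hs hR hfg h hneg
  set X := op (a, 0) * op (b, 0) with hX
  have hinj : Function.Injective X := (op_injective C hs hca).comp (op_injective C hs hcb)
  -- a power of `X` has positive degree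
  rw [mul_cl] at hab
  obtain ⟨N, hN⟩ := nilL_of_nilpotent hab 0
  have h1 : op (nprod (-1) a b, 0) - X ∈ U V 1 := by
    have := op_mul a b 0
    simpa using this
  have hXU : X ∈ U V 0 := U_mul (op_U (a, 0)) (op_U (b, 0)) (Nat.zero_le _)
  have h2 : ∀ n : ℕ, op (nprod (-1) a b, 0) ^ n - X ^ n ∈ U V 1 := by
    intro n
    induction n with
    | zero => simp
    | succ n ih =>
      have e : op (nprod (-1) a b, 0) ^ (n + 1) - X ^ (n + 1) =
        op (nprod (-1) a b, 0) * (op (nprod (-1) a b, 0) ^ n - X ^ n) +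
          (op (nprod (-1) a b, 0) - X) * X ^ n := by
        rw [pow_succ', pow_succ']; noncomm_ring
      rw [e]
      have hXn : X ^ n ∈ U V 0 := by
        clear ih e
        induction n with
        | zero => simpa using one_U
        | succ n ih => rw [pow_succ]; exact U_mul ih hXU (by omega)
      exact Submodule.add_mem _ (U_mul (op_U _) ih (by simp)) (U_mul h1 hXn (by omega))
  have h3 : X ^ N ∈ U V 1 := by
    have e : X ^ N = op (nprod (-1) a b, 0) ^ N - (op (nprod (-1) a b, 0) ^ N - X ^ N) := by abel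
    rw [e]
    refine Submodule.sub_mem _ ?_ (h2 N)
    unfold NilL at hN
    simpa using hN
  have h4 : ∀ j : ℕ, (X ^ N) ^ j ∈ U V j := by
    intro j
    induction j with
    | zero => simpa using one_U
    | succ j ih => rw [pow_succ]; exact U_mul ih h3 (by omega)
  have hv : (VertexAlgebra.vac : V) ∈ F V 0 := by rw [F_zero]; trivial
  have h5 : ((X ^ N) ^ M) (VertexAlgebra.vac : V) ∈ F V M := by
    have := h4 M 0 _ hv
    rwa [zero_add] at this
  have hop0 : ∀ c y : V, h.H c = 0 → h.H y = 0 → h.H (op (c, 0) y) = 0 := by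
    intro c y hc hy
    rw [h.op, hy, hc]
    simp [op_apply]
  have h6 : ∀ j : ℕ, h.H ((X ^ j) (VertexAlgebra.vac : V)) = 0 := by
    intro j
    induction j with
    | zero => simpa using h.vac
    | succ j ih =>
      rw [pow_succ', Module.End.mul_apply, hX, Module.End.mul_apply]
      exact hop0 _ _ ha (hop0 _ _ hb ih)
  have h7 : ((X ^ N) ^ M) (VertexAlgebra.vac : V) = 0 := by
    refine hM _ h5 ?_
    rw [← pow_mul]; exact h6 _
  have h8 : Function.Injective ((X ^ N) ^ M) := by
    rw [← pow_mul, Module.End.coe_pow]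
    exact hinj.iterate _
  exact hs.1 (h8 (by rw [h7, map_zero]))

end

end Run7.h206
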