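import Pool.Agent.Run7.h206.Zhu

/-!
The Li filtration of a vertex algebra and filtered operators.
-/

namespace Run7.h206

open VertexAlgebra

section

variable {V : Type*} [AddCommGroup V] [Module ℂ V] [VertexAlgebra V]

/-- the letter operator `a_(-1-n)`, of degree `n` -/
noncomputable def op (s : V × ℕ) : Module.End ℂ V := nprod (-1 - (s.2 : ℤ)) s.1

theorem op_apply (s : V × ℕ) (x : V) : op s x = nprod (-1 - (s.2 : ℤ)) s.1 x := rfl

/-- the product of the letter operators of a word -/
noncomputable def word : List (V × ℕ) → Module.End ℂ V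
  | [] => 1
  | s :: L => op s * word L

/-- the degree of a word -/
def deg (L : List (V × ℕ)) : ℕ := (L.map Prod.snd).sum

omit [AddCommGroup V] [Module ℂ V] [VertexAlgebra V] in
@[simp] theorem deg_nil : deg ([] : List (V × ℕ)) = 0 := rfl

omit [AddCommGroup V] [Module ℂ V] [VertexAlgebra V] in
@[simp] theorem deg_cons (s : V × ℕ) (L : List (V × ℕ)) : deg (s :: L) = s.2 + deg L := by
  simp [deg]

omit [AddCommGroup V] [Module ℂ V] [VertexAlgebra V] in
theorem deg_append (L L' : List (V × ℕ)) : deg (L ++ L') = deg L + deg L' := by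
  simp [deg]

@[simp] theorem word_nil : word ([] : List (V × ℕ)) = 1 := rfl

@[simp] theorem word_cons (s : V × ℕ) (L : List (V × ℕ)) : word (s :: L) = op s * word L := rfl

theorem word_append (L L' : List (V × ℕ)) : word (L ++ L') = word L * word L' := by
  induction L with
  | nil => simp
  | cons s L ih => simp [ih, mul_assoc]

variable (V) in
/-- The Li filtration: `F^p V` is the span of all `a^1_(-1-n_1) ... a^r_(-1-n_r) b` with
`n_1 + ... + n_r ≥ p`. -/
def F (p : ℕ) : Submodule ℂ V :=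
  Submodule.span ℂ {x | ∃ (L : List (V × ℕ)) (b : V), p ≤ deg L ∧ x = word L b}

theorem word_mem_F {p : ℕ} {L : List (V × ℕ)} (h : p ≤ deg L) (b : V) : word L b ∈ F V p :=
  Submodule.subset_span ⟨L, b, h, rfl⟩

theorem F_anti {p q : ℕ} (h : p ≤ q) : F V q ≤ F V p := by
  refine Submodule.span_mono ?_
  rintro x ⟨L, b, hL, rfl⟩
  exact ⟨L, b, h.trans hL, rfl⟩

theorem F_zero : F V 0 = ⊤ := by
  rw [eq_top_iff]
  intro x _
  exact word_mem_F (L := []) (Nat.zero_le _) x

theorem op_F (s : V × ℕ) {p : ℕ} {x : V} (hx : x ∈ F V p) : op s x ∈ F V (p + s.2) := by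
  induction hx using Submodule.span_induction with
  | mem x h =>
    obtain ⟨L, b, hL, rfl⟩ := h
    exact word_mem_F (L := s :: L) (by rw [deg_cons]; omega) b
  | zero => simp
  | add x y _ _ hx hy => rw [map_add]; exact Submodule.add_mem _ hx hy
  | smul c x _ hx => rw [map_smul]; exact Submodule.smul_mem _ _ hx

theorem neg_mode_F (a : V) {n : ℤ} (hn : n < 0) {p : ℕ} {x : V} (hx : x ∈ F V p) {q : ℕ}
    (hq : (q : ℤ) ≤ p - n - 1) : nprod n a x ∈ F V q := by
  have h := op_F (a, (-1 - n).toNat) hx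
  have e : (-1 - (((-1 - n).toNat : ℕ) : ℤ)) = n := by
    rw [Int.toNat_of_nonneg (by omega)]; ring
  rw [op_apply, e] at h
  refine F_anti ?_ h
  have : (((-1 - n).toNat : ℕ) : ℤ) = -1 - n := Int.toNat_of_nonneg (by omega)
  simp only
  omega

/-- non-negative modes: `a_(k) F^p ⊆ F^(p-k)` -/
theorem pos_mode_F (a : V) (k : ℕ) {p : ℕ} {x : V} (hx : x ∈ F V p) {q : ℕ}
    (hq : (q : ℤ) ≤ (p : ℤ) - k ∨ q = 0) : nprod (k : ℤ) a x ∈ F V q := by
  rcases Nat.eq_zero_or_pos q with hq0 | hq0
  · subst hq0; rw [F_zero]; trivial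
  have hq : (q : ℤ) ≤ (p : ℤ) - k := by
    rcases hq with h | h
    · exact h
    · omega
  suffices hmain : ∀ (L : List (V × ℕ)) (a b : V) (k q : ℕ), ((q : ℤ) ≤ (deg L : ℤ) - k ∨ q = 0) →
      nprod (k : ℤ) a (word L b) ∈ F V q by
    induction hx using Submodule.span_induction with
    | mem x h =>
      obtain ⟨L, b, hL, rfl⟩ := h
      exact hmain L a b k q (Or.inl (by omega))
    | zero => simp
    | add x y _ _ hx hy => rw [map_add]; exact Submodule.add_mem _ hx hy
    | smul c x _ hx => rw [map_smul]; exact Submodule.smul_mem _ _ hx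
  clear hx hq hq0
  intro L
  induction L with
  | nil =>
    intro a b k q hq
    rw [deg_nil] at hq
    have : q = 0 := by omega
    subst this
    rw [F_zero]; trivial
  | cons s L ih =>
    intro a b k q hq
    rcases Nat.eq_zero_or_pos q with hq0 | hq0
    · subst hq0; rw [F_zero]; trivial
    have hq : (q : ℤ) ≤ (s.2 : ℤ) + deg L - k := by
      rw [deg_cons] at hq
      push_cast at hq
      omega
    rw [word_cons]
    change nprod (k : ℤ) a (nprod (-1 - (s.2 : ℤ)) s.1 (word L b)) ∈ F V q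
    have h := comm a s.1 (word L b) k (-1 - (s.2 : ℤ))
    rw [sub_eq_iff_eq_add] at h
    rw [h]
    refine Submodule.add_mem _ (finsum_mem_sub fun j => ?_) ?_
    · by_cases hjk : k < j
      · have : bc k j = 0 := by
          unfold bc
          rw [Ring.choose_natCast, Nat.choose_eq_zero_of_lt hjk]; simp
        rw [this, zero_smul]; exact Submodule.zero_mem _
      · push Not at hjk
        refine Submodule.smul_mem _ _ ?_
        rcases lt_or_ge ((k : ℤ) + (-1 - (s.2 : ℤ)) - j) 0 with hneg | hpos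
        · exact neg_mode_F _ hneg (word_mem_F (le_refl (deg L)) b) (by omega)
        · obtain ⟨m, hm⟩ := Int.eq_ofNat_of_zero_le hpos
          rw [hm]
          exact ih _ _ _ _ (Or.inl (by omega))
    · have h1 : nprod (k : ℤ) a (word L b) ∈ F V (deg L - k) := ih _ _ _ _ (by omega)
      exact neg_mode_F _ (by omega) h1 (by omega)

/-- `F^1 V = C_2(V)` -/
theorem F_one : F V 1 = C2 V := by
  refine le_antisymm (Submodule.span_le.2 ?_) (Submodule.span_le.2 ?_)
  · rintro x ⟨L, b, hL, rfl⟩
    simp only [SetLike.mem_coe]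
    induction L with
    | nil => simp at hL
    | cons s L ih =>
      rw [word_cons]
      change nprod (-1 - (s.2 : ℤ)) s.1 (word L b) ∈ C2 V
      rcases Nat.eq_zero_or_pos s.2 with h0 | h0
      · refine nprod_C2_right _ (by omega) (ih ?_)
        rw [deg_cons] at hL; omega
      · exact nprod_mem_C2 _ _ (by omega)
  · rintro x ⟨a, b, rfl⟩
    exact word_mem_F (L := [(a, 1)]) (by simp) b

/-- any product `a_(n)` maps the intersection of the Li filtration to itself -/
theorem mode_inter (a : V) (n : ℤ) {x : V} (hx : ∀ p, x ∈ F V p) (p : ℕ) : nprod n a x ∈ F V p := by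
  rcases lt_or_ge n 0 with hn | hn
  · exact neg_mode_F a hn (hx p) (by omega)
  · obtain ⟨k, rfl⟩ := Int.eq_ofNat_of_zero_le hn
    exact pos_mode_F a k (hx (p + k)) (Or.inl (by push_cast; omega))

/-! ### Filtered operators -/

variable (V) in
/-- operators of filtration degree `≥ d` -/
def U (d : ℕ) : Submodule ℂ (Module.End ℂ V) where
  carrier := {X | ∀ p : ℕ, ∀ x ∈ F V p, X x ∈ F V (p + d)}
  add_mem' := fun {X Y} hX hY p x hx => by
    rw [LinearMap.add_apply]; exact Submodule.add_mem _ (hX p x hx) (hY p x hx)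
  zero_mem' := fun p x hx => by rw [LinearMap.zero_apply]; exact Submodule.zero_mem _
  smul_mem' := fun c X hX p x hx => by
    rw [LinearMap.smul_apply]; exact Submodule.smul_mem _ _ (hX p x hx)

theorem U_anti {d e : ℕ} (h : d ≤ e) : U V e ≤ U V d := fun X hX p x hx =>
  F_anti (by omega) (hX p x hx)

theorem U_mul {d e f : ℕ} {X Y : Module.End ℂ V} (hX : X ∈ U V d) (hY : Y ∈ U V e)
    (h : f ≤ d + e) : X * Y ∈ U V f := fun p x hx =>
  F_anti (by omega) (hX _ _ (hY p x hx))

theorem one_U : (1 : Module.End ℂ V) ∈ U V 0 := fun _ _ hx => hx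

theorem op_U (s : V × ℕ) : op s ∈ U V s.2 := fun _ _ hx => op_F s hx

theorem word_U (L : List (V × ℕ)) : word L ∈ U V (deg L) := by
  induction L with
  | nil => exact one_U
  | cons s L ih => rw [word_cons, deg_cons]; exact U_mul (op_U s) ih le_rfl

/-- letters commute modulo operators of higher degree -/
theorem op_comm (s t : V × ℕ) : op s * op t - op t * op s ∈ U V (s.2 + t.2 + 1) := by
  intro p x hx
  change nprod (-1 - (s.2 : ℤ)) s.1 (nprod (-1 - (t.2 : ℤ)) t.1 x) -
    nprod (-1 - (t.2 : ℤ)) t.1 (nprod (-1 - (s.2 : ℤ)) s.1 x) ∈ _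
  rw [comm]
  refine finsum_mem_sub fun i => Submodule.smul_mem _ _ ?_
  exact neg_mode_F _ (by omega) hx (by push_cast; omega)

/-- elements of `C_2(V)` give operators of higher degree -/
theorem op_C2 {a : V} (ha : a ∈ C2 V) (m : ℕ) : op (a, m) ∈ U V (m + 1) := by
  intro p x hx
  rw [op_apply]
  simp only
  induction ha using Submodule.span_induction with
  | mem a h =>
    obtain ⟨u, v, rfl⟩ := h
    rw [iter]
    refine finsum_mem_sub fun i => Submodule.smul_mem _ _ (Submodule.sub_mem _ ?_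
      (Submodule.smul_mem _ _ ?_))
    · by_cases him : i ≤ m
      · have h1 : nprod (-1 - (m : ℤ) + i) v x ∈ F V (p + (m - i)) :=
          neg_mode_F _ (by omega) hx (by push_cast [Nat.cast_sub him]; omega)
        exact neg_mode_F _ (by omega) h1 (by push_cast [Nat.cast_sub him]; omega)
      · push Not at him
        obtain ⟨k, hk⟩ : ∃ k : ℕ, i = m + 1 + k := ⟨i - m - 1, by omega⟩
        have e : (-1 - (m : ℤ) + i) = (k : ℤ) := by rw [hk]; push_cast; ring
        rw [e]
        have h1 : nprod (k : ℤ) v x ∈ F V (p - k) := pos_mode_F _ _ hx (by omega)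
        exact neg_mode_F _ (by omega) h1 (by rw [hk]; push_cast; omega)
    · have h1 : nprod (i : ℤ) u x ∈ F V (p - i) := pos_mode_F _ _ hx (by omega)
      exact neg_mode_F _ (by omega) h1 (by push_cast; omega)
  | zero => simp
  | add a b _ _ ha hb =>
    rw [map_add, LinearMap.add_apply]; exact Submodule.add_mem _ ha hb
  | smul c a _ ha =>
    rw [map_smul, LinearMap.smul_apply]; exact Submodule.smul_mem _ _ ha

/-- multiplicativity of the generating series of letters modulo higher degree -/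
theorem op_mul (a b : V) (m : ℕ) :
    op (nprod (-1) a b, m) - ∑ i ∈ Finset.range (m + 1), op (a, i) * op (b, m - i) ∈ U V (m + 1) := by
  intro p x hx
  rw [LinearMap.sub_apply, LinearMap.sum_apply, op_apply]
  simp only
  rw [iter]
  have hsgn : (-1 : ℂ) ^ (-1 : ℤ) = -1 := by norm_num
  have hcoef : ∀ i : ℕ, ((-1 : ℂ) ^ i * bc (-1) i) = 1 := by
    intro i; rw [bc_neg_one, ← mul_pow]; simp
  have hterm : ∀ i : ℕ, ((-1 : ℂ) ^ i * bc (-1) i) •
      (nprod (-1 - (i : ℤ)) a (nprod (-1 - (m : ℤ) + i) b x)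
        - (-1 : ℂ) ^ (-1 : ℤ) • nprod (-1 - (m : ℤ) + -1 - i) b (nprod (i : ℤ) a x)) =
      nprod (-1 - (i : ℤ)) a (nprod (-1 - (m : ℤ) + i) b x)
        + nprod (-1 - (m : ℤ) + -1 - i) b (nprod (i : ℤ) a x) := by
    intro i
    rw [hcoef, hsgn, one_smul, neg_smul, one_smul, sub_neg_eq_add]
  simp only [hterm]
  obtain ⟨N₁, hN₁⟩ := trunc b x
  obtain ⟨N₂, hN₂⟩ := trunc a x
  set N := (N₁ + m + 1).toNat + N₂.toNat + m + 1 with hN
  have hsum : ∑ᶠ i : ℕ, (nprod (-1 - (i : ℤ)) a (nprod (-1 - (m : ℤ) + i) b x)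
        + nprod (-1 - (m : ℤ) + -1 - i) b (nprod (i : ℤ) a x)) =
      ∑ i ∈ Finset.range (N + (m + 1)), (nprod (-1 - (i : ℤ)) a (nprod (-1 - (m : ℤ) + i) b x)
        + nprod (-1 - (m : ℤ) + -1 - i) b (nprod (i : ℤ) a x)) := by
    apply finsum_eq_sum_of_support_subset
    intro i hi
    simp only [Finset.coe_range, Set.mem_Iio]
    by_contra hc
    apply hi
    simp only
    rw [hN₁ _ (by omega), hN₂ _ (by omega)]
    simp
  rw [hsum, Finset.sum_add_distrib, add_comm N, Finset.sum_range_add, add_assoc,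
    add_sub_right_comm]
  have h0 : ∑ i ∈ Finset.range (m + 1), nprod (-1 - (i : ℤ)) a (nprod (-1 - (m : ℤ) + i) b x) -
      ∑ i ∈ Finset.range (m + 1), (op (a, i) * op (b, m - i)) x = 0 := by
    rw [sub_eq_zero]
    refine Finset.sum_congr rfl fun i hi => ?_
    rw [Finset.mem_range] at hi
    change _ = nprod (-1 - (i : ℤ)) a (nprod (-1 - ((m - i : ℕ) : ℤ)) b x)
    have e : (-1 - ((m - i : ℕ) : ℤ)) = -1 - (m : ℤ) + i := by omega
    rw [e]
  rw [h0, zero_add]
  refine Submodule.add_mem _ (Submodule.sum_mem _ fun i _ => ?_) (Submodule.sum_mem _ fun i _ => ?_)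
  · have e : (-1 - (m : ℤ) + ((m + 1 + i : ℕ) : ℤ)) = (i : ℤ) := by push_cast; ring
    rw [e]
    have h1 : nprod (i : ℤ) b x ∈ F V (p - i) := pos_mode_F _ _ hx (by omega)
    exact neg_mode_F _ (by omega) h1 (by push_cast; omega)
  · have h1 : nprod (i : ℤ) a x ∈ F V (p - i) := pos_mode_F _ _ hx (by omega)
    exact neg_mode_F _ (by omega) h1 (by push_cast; omega)

end

end Run7.h206
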