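import Pool.Agent.Run7.h206.Li
import Pool.Agent.Run7.h206.Conf

/-!
Simple vertex algebras: an element that is not nilpotent in `R_V` acts injectively.
-/

namespace Run7.h206

open VertexAlgebra

section

variable {V : Type*} [AddCommGroup V] [Module ℂ V] [VertexAlgebra V]

variable (V) in
/-- A vertex algebra is simple if it is non-zero and its only ideals are `0` and `V`. -/
def IsSimple : Prop :=
  (vac : V) ≠ 0 ∧ ∀ I : Submodule ℂ V,
    (∀ (a x : V) (n : ℤ), x ∈ I → nprod n a x ∈ I ∧ nprod n x a ∈ I) → I = ⊥ ∨ I = ⊤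

variable (V) in
/-- finite combinations of modes `x_(m)` with `m ≤ k` -/
def Mo (k : ℤ) : Submodule ℂ (Module.End ℂ V) :=
  Submodule.span ℂ {X | ∃ (m : ℤ) (x : V), m ≤ k ∧ X = nprod m x}

theorem Mo_F {k : ℤ} {X : Module.End ℂ V} (hX : X ∈ Mo V k) {p q : ℕ} (hq : (q : ℤ) ≤ p - k - 1 ∨ q = 0)
    {x : V} (hx : x ∈ F V p) : X x ∈ F V q := by
  rcases Nat.eq_zero_or_pos q with hq0 | hq0
  · subst hq0; rw [F_zero]; trivial
  have hq : (q : ℤ) ≤ p - k - 1 := by omega
  induction hX using Submodule.span_induction with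
  | mem X h =>
    obtain ⟨m, a, hm, rfl⟩ := h
    rcases lt_or_ge m 0 with hm0 | hm0
    · exact neg_mode_F a hm0 hx (by omega)
    · obtain ⟨j, rfl⟩ := Int.eq_ofNat_of_zero_le hm0
      exact pos_mode_F a j hx (Or.inl (by omega))
  | zero => simp
  | add X Y _ _ hX hY => rw [LinearMap.add_apply]; exact Submodule.add_mem _ hX hY
  | smul c X _ hX => rw [LinearMap.smul_apply]; exact Submodule.smul_mem _ _ hX

theorem Mo_comm (b : V) {k : ℤ} {X : Module.End ℂ V} (hX : X ∈ Mo V k) :
    op (b, 0) * X - X * op (b, 0) ∈ Mo V (k - 1) := by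
  have hle : Mo V k ≤ (Mo V (k - 1)).comap
      (LinearMap.mulLeft ℂ (op (b, 0)) - LinearMap.mulRight ℂ (op (b, 0))) := by
    refine Submodule.span_le.2 ?_
    rintro X ⟨m, a, hm, rfl⟩
    obtain ⟨N, hN⟩ := trunc b a
    have e : op (b, 0) * (nprod m a : Module.End ℂ V) - (nprod m a : Module.End ℂ V) * op (b, 0) =
        ∑ i ∈ Finset.range N.toNat, bc (-1) i • (nprod (-1 + m - i) (nprod (i : ℤ) b a) :
          Module.End ℂ V) := by
      ext x
      rw [LinearMap.sub_apply, LinearMap.sum_apply]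
      change nprod (-1 - ((0 : ℕ) : ℤ)) b (nprod m a x) - nprod m a (nprod (-1 - ((0 : ℕ) : ℤ)) b x) = _
      rw [Nat.cast_zero, sub_zero, comm]
      apply finsum_eq_sum_of_support_subset
      intro i hi
      simp only [Finset.coe_range, Set.mem_Iio]
      by_contra hc
      apply hi
      simp only
      rw [hN _ (by omega)]
      simp
    change op (b, 0) * (nprod m a : Module.End ℂ V) - (nprod m a : Module.End ℂ V) * op (b, 0) ∈
      Mo V (k - 1)
    rw [e]
    refine Submodule.sum_mem _ fun i _ => Submodule.smul_mem _ _ ?_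
    exact Submodule.subset_span ⟨-1 + m - i, nprod (i : ℤ) b a, by omega, rfl⟩
  exact hle hX

theorem pow_F (b : V) (M : ℕ) {p : ℕ} {x : V} (hx : x ∈ F V p) : (op (b, 0) ^ M) x ∈ F V p := by
  induction M with
  | zero => simpa using hx
  | succ M ih =>
    rw [pow_succ', Module.End.mul_apply]
    exact op_F (b, 0) ih

/-- vectors on which `b_(-1)` is topologically nilpotent -/
def Ib (b : V) : Submodule ℂ V where
  carrier := {x | ∀ p : ℕ, ∃ M : ℕ, (op (b, 0) ^ M) x ∈ F V p}
  add_mem' := fun {x y} hx hy p => by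
    obtain ⟨M, hM⟩ := hx p
    obtain ⟨N, hN⟩ := hy p
    refine ⟨M + N, ?_⟩
    rw [map_add]
    refine Submodule.add_mem _ ?_ ?_
    · rw [add_comm M, pow_add, Module.End.mul_apply]; exact pow_F b N hM
    · rw [pow_add, Module.End.mul_apply]; exact pow_F b M hN
  zero_mem' := fun p => ⟨0, by simp⟩
  smul_mem' := fun c x hx p => by
    obtain ⟨M, hM⟩ := hx p
    exact ⟨M, by rw [map_smul]; exact Submodule.smul_mem _ _ hM⟩

theorem Ib_large {b x : V} (hx : x ∈ Ib b) (p : ℕ) :
    ∃ M : ℕ, ∀ M', M ≤ M' → (op (b, 0) ^ M') x ∈ F V p := by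
  obtain ⟨M, hM⟩ := hx p
  refine ⟨M, fun M' h => ?_⟩
  obtain ⟨j, rfl⟩ := Nat.exists_eq_add_of_le h
  rw [add_comm, pow_add, Module.End.mul_apply]
  exact pow_F b j hM

theorem Ib_pow {b x : V} (hx : x ∈ Ib b) (s : ℕ) : (op (b, 0) ^ s) x ∈ Ib b := by
  intro p
  obtain ⟨M, hM⟩ := Ib_large hx p
  refine ⟨M, ?_⟩
  rw [← Module.End.mul_apply, ← pow_add]
  exact hM _ (by omega)

omit [VertexAlgebra V] in
theorem pow_commute_formula (L X : Module.End ℂ V) (M : ℕ) (x : V) :
    (L ^ M) (X x) = X ((L ^ M) x) +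
      ∑ s ∈ Finset.range M, (L ^ (M - 1 - s)) ((L * X - X * L) ((L ^ s) x)) := by
  induction M with
  | zero => simp
  | succ M ih =>
    rw [pow_succ', Module.End.mul_apply, ih, map_add, map_sum, Finset.sum_range_succ]
    have h1 : ∀ s ∈ Finset.range M, L ((L ^ (M - 1 - s)) ((L * X - X * L) ((L ^ s) x))) =
        (L ^ (M + 1 - 1 - s)) ((L * X - X * L) ((L ^ s) x)) := by
      intro s hs
      rw [Finset.mem_range] at hs
      rw [← Module.End.mul_apply, ← pow_succ']
      congr 2
      omega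
    rw [Finset.sum_congr rfl h1]
    have h2 : L (X ((L ^ M) x)) = X ((L * L ^ M) x) + (L * X - X * L) ((L ^ M) x) := by
      simp only [LinearMap.sub_apply, Module.End.mul_apply]
      abel
    rw [h2]
    have h3 : M + 1 - 1 - M = 0 := by omega
    rw [h3, pow_zero, Module.End.one_apply]
    abel

theorem Ib_key (b : V) (p : ℕ) : ∀ (d : ℕ) (k : ℤ), (p : ℤ) + k + 1 ≤ d → ∀ X ∈ Mo V k,
    ∀ x ∈ Ib b, ∃ M : ℕ, ∀ M', M ≤ M' → (op (b, 0) ^ M') (X x) ∈ F V p := by
  intro d
  induction d with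
  | zero =>
    intro k hk X hX x _
    refine ⟨0, fun M' _ => pow_F b M' ?_⟩
    have hx : x ∈ F V 0 := by rw [F_zero]; trivial
    exact Mo_F hX (Or.inl (by push_cast at hk ⊢; omega)) hx
  | succ d ih =>
    intro k hk X hX x hx
    set L := op (b, 0) with hL
    have hC := Mo_comm b hX
    obtain ⟨s0, hs0⟩ := Ib_large hx (p + k + 1).toNat
    have hq : (p : ℤ) ≤ ((p + k + 1).toNat : ℕ) - k - 1 ∨ p = 0 := by
      by_cases h : 0 ≤ (p : ℤ) + k + 1
      · left; rw [Int.toNat_of_nonneg h]; omega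
      · left; omega
    have hC' : ∀ s : ℕ, ∃ M : ℕ, ∀ M', M ≤ M' → (L ^ M') ((L * X - X * L) ((L ^ s) x)) ∈ F V p :=
      fun s => ih (k - 1) (by push_cast at hk ⊢; omega) _ hC _ (Ib_pow hx s)
    choose Ms hMs using hC'
    refine ⟨s0 + (∑ s ∈ Finset.range s0, Ms s) + 1, fun M' hM' => ?_⟩
    rw [pow_commute_formula]
    refine Submodule.add_mem _ ?_ (Submodule.sum_mem _ fun s hs => ?_)
    · exact Mo_F hX hq (hs0 _ (by omega))
    · rw [Finset.mem_range] at hs
      by_cases hss : s < s0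
      · refine hMs s _ ?_
        have := Finset.single_le_sum (f := Ms) (fun i _ => Nat.zero_le _) (Finset.mem_range.2 hss)
        omega
      · refine pow_F b _ (Mo_F hC (p := (p + k + 1).toNat) ?_ (hs0 s (by omega)))
        rcases hq with h | h
        · left; omega
        · right; exact h

theorem Ib_left (b : V) {x : V} (hx : x ∈ Ib b) (a : V) (n : ℤ) : nprod n a x ∈ Ib b := by
  intro p
  have hX : (nprod n a : Module.End ℂ V) ∈ Mo V n := Submodule.subset_span ⟨n, a, le_rfl, rfl⟩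
  obtain ⟨M, hM⟩ := Ib_key b p (p + n + 1).toNat n (Int.self_le_toNat _) _ hX x hx
  exact ⟨M, hM M le_rfl⟩

/-- a subspace stable under all modes and under translation is an ideal -/
theorem ideal_of_left {I : Submodule ℂ V} (h : ∀ (a x : V) (n : ℤ), x ∈ I → nprod n a x ∈ I)
    (hT : ∀ x ∈ I, T V x ∈ I) (a x : V) (n : ℤ) (hx : x ∈ I) :
    nprod n a x ∈ I ∧ nprod n x a ∈ I := by
  refine ⟨h a x n hx, ?_⟩
  have hvac : ∀ (i : ℕ) (y : V), y ∈ I → nprod (-1 - (i : ℤ)) y (vac : V) ∈ I := by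
    intro i
    induction i with
    | zero => intro y hy; simpa [vac_right] using hy
    | succ i ih =>
      intro y hy
      have h1 := T_mode y (vac : V) (-1 - (i : ℤ))
      have h2 : nprod (-1 - ((i + 1 : ℕ) : ℤ)) y (vac : V) =
          ((1 + i : ℂ))⁻¹ • nprod (-1 - (i : ℤ)) (T V y) vac := by
        rw [h1, smul_smul]
        have hne : (1 + i : ℂ) ≠ 0 := by
          have : ((1 + i : ℕ) : ℂ) ≠ 0 := by exact_mod_cast (by omega : (1 + i) ≠ 0)
          simpa using this
        have e1 : ((1 + i : ℂ))⁻¹ * -(((-1 - (i : ℤ) : ℤ)) : ℂ) = 1 := by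
          push_cast
          field_simp
          ring
        have e2 : (-1 - ((i + 1 : ℕ) : ℤ)) = -1 - (i : ℤ) - 1 := by push_cast; ring
        rw [e1, e2, one_smul]
      rw [h2]
      exact I.smul_mem _ (ih _ (hT y hy))
  rw [skew a x n]
  refine I.smul_mem _ (finsum_mem_sub fun i => I.smul_mem _ (hvac i _ (h _ _ _ hx)))

theorem Ib_ideal (C : ConformalVector V) (b : V) (a x : V) (n : ℤ) (hx : x ∈ Ib b) :
    nprod n a x ∈ Ib b ∧ nprod n x a ∈ Ib b :=
  ideal_of_left (fun a _ n hx => Ib_left b hx a n)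
    (fun x hx => by rw [← C.translation]; exact Ib_left b hx _ _) a x n hx

theorem cl_pow (b : V) (M : ℕ) : cl ((op (b, 0) ^ M) (vac : V)) = (cl b) ^ M := by
  induction M with
  | zero => simp [one_eq]
  | succ M ih =>
    rw [pow_succ', pow_succ', Module.End.mul_apply, ← ih, mul_cl]
    simp [op_apply]

/-- In a simple conformal vertex algebra, if the class of `b` is not nilpotent in `R_V`, then the
powers of `b_(-1)` applied to a non-zero vector do not converge to zero in the Li filtration. -/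
theorem not_converge (C : ConformalVector V) (hs : IsSimple V) {b : V}
    (hb : ¬ IsNilpotent (cl b)) {x : V} (hx : x ≠ 0) :
    ∃ p : ℕ, ∀ M : ℕ, (op (b, 0) ^ M) x ∉ F V p := by
  rcases hs.2 (Ib b) (fun a x n hx => Ib_ideal C b a x n hx) with h | h
  · by_contra hc
    push Not at hc
    have : x ∈ Ib b := hc
    rw [h] at this
    exact hx (by simpa using this)
  · exfalso
    have hv : (vac : V) ∈ Ib b := by rw [h]; trivial
    obtain ⟨M, hM⟩ := hv 1
    rw [F_one] at hM
    exact hb ⟨M, by rw [← cl_pow]; exact cl_eq_zero.2 hM⟩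

theorem op_injective (C : ConformalVector V) (hs : IsSimple V) {b : V}
    (hb : ¬ IsNilpotent (cl b)) : Function.Injective (op (b, 0)) := by
  rw [injective_iff_map_eq_zero]
  intro x hx
  by_contra hne
  obtain ⟨p, hp⟩ := not_converge C hs hb hne
  apply hp 1
  rw [pow_one, hx]
  exact Submodule.zero_mem _

/-- the Li filtration of a simple conformal vertex algebra with `R_V ≠ 0` is separated -/
theorem separated (C : ConformalVector V) (hs : IsSimple V) (hR : Nontrivial (RV V)) {x : V}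
    (hx : ∀ p, x ∈ F V p) : x = 0 := by
  let I : Submodule ℂ V := ⨅ p, F V p
  have hmem : ∀ y : V, y ∈ I ↔ ∀ p, y ∈ F V p := fun y => Submodule.mem_iInf _
  have hleft : ∀ (a y : V) (n : ℤ), y ∈ I → nprod n a y ∈ I := fun a y n hy =>
    (hmem _).2 fun p => mode_inter a n ((hmem _).1 hy) p
  rcases hs.2 I (fun a y n hy => ideal_of_left hleft
    (fun y hy => by rw [← C.translation]; exact hleft _ _ _ hy) a y n hy) with h | h
  · have : x ∈ I := (hmem _).2 hx
    rw [h] at this
    simpa using this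
  · exfalso
    have : (vac : V) ∈ I := by rw [h]; trivial
    have h1 := (hmem _).1 this 1
    rw [F_one] at h1
    exact one_ne_zero (α := RV V) (by rw [one_eq]; exact cl_eq_zero.2 h1)

end

end Run7.h206
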