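import Pool.Agent.Run7.h206.Grade

/-!
Vertex algebras with a finite moment map to the dual of `sl_2`.
-/

namespace Run7.h206

open VertexAlgebra

section lin

variable {M : Type*} [AddCommGroup M] [Module ℂ M]

theorem comp_mem' (E : Module.End ℂ M) (N : Submodule ℂ M) (hN : ∀ x ∈ N, E x ∈ N) {ι : Type*}
    (w : ι → ℂ) (s : Finset ι) : Set.InjOn w s → ∀ (f : ι → M), (∀ i ∈ s, E (f i) = w i • f i) →
    ∑ i ∈ s, f i ∈ N → ∀ i ∈ s, f i ∈ N := by
  classical
  induction s using Finset.induction_on with
  | empty => intro _ f _ _ i hi; simp at hi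
  | insert j s hj ih =>
    intro hinj f hf hsum
    have h1 : E (∑ i ∈ insert j s, f i) - w j • ∑ i ∈ insert j s, f i =
        ∑ i ∈ s, (w i - w j) • f i := by
      rw [map_sum, Finset.smul_sum, ← Finset.sum_sub_distrib, Finset.sum_insert hj]
      rw [hf j (Finset.mem_insert_self _ _), sub_self, zero_add]
      refine Finset.sum_congr rfl fun i hi => ?_
      rw [hf i (Finset.mem_insert_of_mem hi), sub_smul]
    have h2 : ∑ i ∈ s, (w i - w j) • f i ∈ N := by
      rw [← h1]; exact N.sub_mem (hN _ hsum) (N.smul_mem _ hsum)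
    have h3 := ih (hinj.mono (Finset.coe_subset.2 (Finset.subset_insert _ _)))
      (fun i => (w i - w j) • f i)
      (fun i hi => by
        rw [map_smul, hf i (Finset.mem_insert_of_mem hi), smul_comm]) h2
    have h4 : ∀ i ∈ s, f i ∈ N := by
      intro i hi
      have hne : w i - w j ≠ 0 := sub_ne_zero.2 fun h =>
        hj ((hinj (Finset.mem_coe.2 (Finset.mem_insert_of_mem hi))
          (Finset.mem_coe.2 (Finset.mem_insert_self _ _)) h) ▸ hi)
      have := N.smul_mem ((w i - w j)⁻¹) (h3 i hi)
      simp only [smul_smul, inv_mul_cancel₀ hne, one_smul] at this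
      exact this
    intro i hi
    rcases Finset.mem_insert.1 hi with rfl | hi
    · rw [Finset.sum_insert hj] at hsum
      have := N.sub_mem hsum (N.sum_mem h4)
      rwa [add_sub_cancel_right] at this
    · exact h4 i hi

/-- combinations of commuting diagonalizable operators are diagonalizable -/
theorem diag_add {A B : Module.End ℂ M} (hAB : ∀ x, A (B x) = B (A x))
    (hA : ⨆ μ : ℂ, A.eigenspace μ = ⊤) (hB : ⨆ μ : ℂ, B.eigenspace μ = ⊤) (c : ℂ) :
    ⨆ μ : ℂ, (A + c • B).eigenspace μ = ⊤ := by
  rw [eq_top_iff, ← hA]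
  refine iSup_le fun μ x hx => ?_
  obtain ⟨π, p1, p2, p3, p4⟩ := exists_proj B hB
  obtain ⟨t, ht1, ht2⟩ := p4 x
  have h1 := comp_mem B (A.eigenspace μ) (fun y hy => by
    rw [Module.End.mem_eigenspace_iff] at hy ⊢
    rw [hAB, hy, map_smul]) t (fun ν => π ν x) (fun ν _ => p3 ν x) (by rw [ht2]; exact hx)
  rw [← ht2]
  refine Submodule.sum_mem _ fun ν hν => ?_
  refine Submodule.mem_iSup_of_mem (μ + c * ν) ?_
  rw [Module.End.mem_eigenspace_iff, LinearMap.add_apply, LinearMap.smul_apply,
    Module.End.mem_eigenspace_iff.1 (h1 ν hν), Module.End.mem_eigenspace_iff.1 (p3 ν x),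
    smul_smul, ← add_smul]

end lin

section dom

variable {S : Type*} [CommRing S] [IsDomain S] [Algebra ℂ S]

theorem lead (E : Derivation ℂ S S) {z : S} {μ : ℂ} (hμ : μ ≠ 0) (hz : E z = μ • z) (n : ℕ)
    (g : ℕ → S) (hg : ∀ i, E (g i) = 0) (hrel : ∑ i ∈ Finset.range (n + 1), g i * z ^ i = 0) :
    g n * z ^ n = 0 := by
  have h1 := comp_mem' (E : S →ₗ[ℂ] S) ⊥ (fun x hx => by
    have : x = 0 := by simpa using hx
    rw [this]; simp) (fun i : ℕ => (i : ℂ) * μ) (Finset.range (n + 1)) (by
      intro i _ j _ hij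
      simp only at hij
      exact_mod_cast mul_right_cancel₀ hμ hij) (fun i => g i * z ^ i) (by
      intro i _
      change E (g i * z ^ i) = _
      rw [Derivation.leibniz, hg, Derivation.leibniz_pow, hz, smul_zero, add_zero, smul_eq_mul]
      rcases i with _ | i
      · simp
      · rw [Nat.add_sub_cancel, smul_eq_mul, nsmul_eq_mul, mul_smul_comm, pow_succ, mul_smul_comm,
          mul_smul_comm, Algebra.smul_def, Algebra.smul_def, map_mul, map_natCast]
        ring) (by rw [hrel]; exact Submodule.zero_mem _) n (Finset.mem_range.2 (by omega))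
  simpa using h1

omit [IsDomain S] in
theorem der_eval (D : Derivation ℂ S S) (t : S) (q : Polynomial S) (hq : ∀ i, D (q.coeff i) = 0) :
    D (q.eval t) = q.derivative.eval t * D t := by
  rw [Polynomial.eval_eq_sum_range, map_sum, Polynomial.derivative_eval,
    Polynomial.sum_over_range' _ _ (q.natDegree + 1) (Nat.lt_succ_self _), Finset.sum_mul]
  · refine Finset.sum_congr rfl fun i _ => ?_
    rw [Derivation.leibniz, hq, smul_zero, add_zero, Derivation.leibniz_pow, smul_eq_mul,
      nsmul_eq_mul, smul_eq_mul]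
    ring
  · intro i; simp

theorem coeffs_zero (D : Derivation ℂ S S) {t : S} (ht : D t ≠ 0) : ∀ (n : ℕ) (q : Polynomial S),
    q.natDegree ≤ n → (∀ i, D (q.coeff i) = 0) → q.eval t = 0 → q = 0 := by
  have hchar : CharZero S := Algebra.charZero_of_charZero ℂ S
  have hconst : ∀ q : Polynomial S, q.natDegree = 0 → q.eval t = 0 → q = 0 := by
    intro q hq h
    rw [Polynomial.eq_C_of_natDegree_eq_zero hq, Polynomial.eval_C] at h
    rw [Polynomial.eq_C_of_natDegree_eq_zero hq, h, map_zero]
  intro n
  induction n with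
  | zero => intro q hq _ h; exact hconst q (Nat.le_zero.1 hq) h
  | succ n ih =>
    intro q hq hD h
    have h1 := der_eval D t q hD
    rw [h, map_zero, eq_comm, mul_eq_zero] at h1
    have h2 := h1.resolve_right ht
    have h3 : q.derivative.natDegree ≤ n :=
      (Polynomial.natDegree_derivative_le q).trans (by omega)
    have h4 := ih q.derivative h3 (fun i => by
      rw [Polynomial.coeff_derivative]
      have : ((i : S) + 1) = algebraMap ℂ S (i + 1) := by simp
      rw [Derivation.leibniz, hD, this, Derivation.map_algebraMap]; simp) h2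
    exact hconst q (Polynomial.derivative_eq_zero.1 h4) h

omit [IsDomain S] in
/-- polynomials in `h` over a subalgebra -/
theorem exists_poly (A : Subalgebra ℂ S) (h : S) :
    ∀ x ∈ Algebra.adjoin ℂ ((A : Set S) ∪ {h}),
      ∃ q : Polynomial S, (∀ i, q.coeff i ∈ A) ∧ q.eval h = x := by
  intro x hx
  induction hx using Algebra.adjoin_induction with
  | mem x hx =>
    rcases hx with hx | hx
    · refine ⟨Polynomial.C x, fun i => ?_, by simp⟩
      rw [Polynomial.coeff_C]
      split_ifs
      · exact hx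
      · exact Subalgebra.zero_mem _
    · rw [Set.mem_singleton_iff] at hx
      subst hx
      refine ⟨Polynomial.X, fun i => ?_, by simp⟩
      rw [Polynomial.coeff_X]
      split_ifs
      · exact Subalgebra.one_mem _
      · exact Subalgebra.zero_mem _
  | algebraMap r =>
    refine ⟨Polynomial.C (algebraMap ℂ S r), fun i => ?_, by simp⟩
    rw [Polynomial.coeff_C]
    split_ifs
    · exact Subalgebra.algebraMap_mem _ r
    · exact Subalgebra.zero_mem _
  | add x y _ _ hx hy =>
    obtain ⟨p, hp, rfl⟩ := hx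
    obtain ⟨q, hq, rfl⟩ := hy
    exact ⟨p + q, fun i => by rw [Polynomial.coeff_add]; exact Subalgebra.add_mem _ (hp i) (hq i),
      by rw [Polynomial.eval_add]⟩
  | mul x y _ _ hx hy =>
    obtain ⟨p, hp, rfl⟩ := hx
    obtain ⟨q, hq, rfl⟩ := hy
    refine ⟨p * q, fun i => ?_, by rw [Polynomial.eval_mul]⟩
    rw [Polynomial.coeff_mul]
    exact Subalgebra.sum_mem _ fun j _ => Subalgebra.mul_mem _ (hp _) (hq _)

/-- elimination of one variable `h` from a relation whose coefficients are polynomials in `h` -/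
theorem eliminate (D : Derivation ℂ S S) (A : Subalgebra ℂ S) {h z g : S}
    (hDA : ∀ x ∈ A, D x = 0) (hDz : D z = 0) (hDg : D g = 0) (hh : D h = 0 → h = 0)
    (n : ℕ) (b : ℕ → S) (hb : ∀ i, b i ∈ Algebra.adjoin ℂ ((A : Set S) ∪ {h}))
    (hrel : g + ∑ i ∈ Finset.range n, b i * z ^ i = 0) :
    ∃ b' : ℕ → S, (∀ i, b' i ∈ A) ∧ g + ∑ i ∈ Finset.range n, b' i * z ^ i = 0 := by
  by_cases hDh : D h = 0
  · refine ⟨b, fun i => ?_, hrel⟩
    have h0 := hh hDh
    have h1 : Algebra.adjoin ℂ ((A : Set S) ∪ {h}) ≤ A := by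
      refine Algebra.adjoin_le ?_
      rintro x (hx | hx)
      · exact hx
      · rw [Set.mem_singleton_iff] at hx
        rw [hx, h0]; exact Subalgebra.zero_mem _
    exact h1 (hb i)
  · choose q hq1 hq2 using fun i => exists_poly A h (b i) (hb i)
    set Q : Polynomial S := Polynomial.C g +
      ∑ i ∈ Finset.range n, q i * Polynomial.C (z ^ i) with hQ
    have hQ0 : Q = 0 := by
      refine coeffs_zero D hDh Q.natDegree Q le_rfl ?_ ?_
      · intro j
        rw [hQ, Polynomial.coeff_add, map_add, Polynomial.finsetSum_coeff, map_sum]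
        have h1 : D ((Polynomial.C g).coeff j) = 0 := by
          rw [Polynomial.coeff_C]
          split_ifs
          · exact hDg
          · exact map_zero _
        rw [h1, zero_add]
        refine Finset.sum_eq_zero fun i _ => ?_
        rw [Polynomial.coeff_mul_C, Derivation.leibniz, Derivation.leibniz_pow, hDz,
          hDA _ (hq1 i j)]
        simp
      · rw [hQ, Polynomial.eval_add, Polynomial.eval_C, Polynomial.eval_finsetSum, ← hrel]
        congr 1
        refine Finset.sum_congr rfl fun i _ => ?_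
        rw [Polynomial.eval_mul, Polynomial.eval_C, hq2 i]
    have h0 : Q.coeff 0 = 0 := by rw [hQ0]; simp
    rw [hQ, Polynomial.coeff_add, Polynomial.coeff_C_zero, Polynomial.finsetSum_coeff] at h0
    simp only [Polynomial.coeff_mul_C] at h0
    exact ⟨fun i => (q i).coeff 0, fun i => hq1 i 0, h0⟩

/-- the algebraic heart of the argument -/
theorem domain_key {ι : Type*} [Fintype ι] (D : ι → Derivation ℂ S S) (E : Derivation ℂ S S)
    {e h f : ι → S} {z : S} {μ : ℂ} (hμ : μ ≠ 0)
    (hDe : ∀ i j, D i (e j) = 0) (hDh : ∀ i, D i (h i) = (-2 : ℂ) • e i)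
    (hDh' : ∀ i j, i ≠ j → D i (h j) = 0)
    (hef : ∀ i, (4 : ℂ) • (e i * f i) = - h i ^ 2)
    (hEe : ∀ i, E (e i) = 0) (hDz : ∀ i, D i z = 0) (hEz : E z = μ • z)
    (he0 : ∀ i, e i = 0 → h i = 0 ∧ f i = 0)
    (n : ℕ) (c : ℕ → S)
    (hc : ∀ l, c l ∈ Algebra.adjoin ℂ (Set.range e ∪ Set.range h ∪ Set.range f))
    (hrel : z ^ n + ∑ i ∈ Finset.range n, c i * z ^ i = 0) : z = 0 := by
  classical
  by_contra hz
  -- the common denominator
  set d : S := ∏ i, (if e i = 0 then 1 else e i) with hd
  have hd0 : d ≠ 0 := by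
    rw [hd, Finset.prod_ne_zero_iff]
    intro i _
    split_ifs with h1
    · exact one_ne_zero
    · exact h1
  let AT : Finset ι → Subalgebra ℂ S := fun T => Algebra.adjoin ℂ (Set.range e ∪ h '' (T : Set ι))
  have heA : ∀ T i, e i ∈ AT T := fun T i => Algebra.subset_adjoin (Or.inl ⟨i, rfl⟩)
  have hdA : ∀ T, d ∈ AT T := by
    intro T
    rw [hd]
    refine Subalgebra.prod_mem _ fun i _ => ?_
    split_ifs
    · exact Subalgebra.one_mem _
    · exact heA T i
  have hhA : ∀ i, h i ∈ AT Finset.univ := fun i =>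
    Algebra.subset_adjoin (Or.inr ⟨i, by simp, rfl⟩)
  have hclear : ∀ x ∈ Algebra.adjoin ℂ (Set.range e ∪ Set.range h ∪ Set.range f), ∃ N : ℕ,
      ∀ N', N ≤ N' → d ^ N' * x ∈ AT Finset.univ := by
    intro x hx
    induction hx using Algebra.adjoin_induction with
    | mem x hx =>
      rcases hx with (⟨i, rfl⟩ | ⟨i, rfl⟩) | ⟨i, rfl⟩
      · exact ⟨0, fun N' _ => Subalgebra.mul_mem _ (Subalgebra.pow_mem _ (hdA _) _) (heA _ i)⟩
      · exact ⟨0, fun N' _ => Subalgebra.mul_mem _ (Subalgebra.pow_mem _ (hdA _) _) (hhA i)⟩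
      · by_cases hei : e i = 0
        · refine ⟨0, fun N' _ => ?_⟩
          rw [(he0 i hei).2, mul_zero]; exact Subalgebra.zero_mem _
        · refine ⟨1, fun N' hN' => ?_⟩
          obtain ⟨k, rfl⟩ := Nat.exists_eq_add_of_le hN'
          set d' : S := ∏ j ∈ Finset.univ.erase i, (if e j = 0 then 1 else e j) with hd'
          have hd'A : d' ∈ AT Finset.univ := by
            rw [hd']
            refine Subalgebra.prod_mem _ fun j _ => ?_
            split_ifs
            · exact Subalgebra.one_mem _
            · exact heA _ j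
          have hdd : d = e i * d' := by
            rw [hd, ← Finset.mul_prod_erase _ _ (Finset.mem_univ i), if_neg hei]
          have h2 : e i * f i = (1 / 4 : ℂ) • (-h i ^ 2) := by
            rw [← hef, smul_smul]; norm_num
          have h1 : d ^ (1 + k) * f i = (-(1 / 4 : ℂ)) • (d ^ k * d' * h i ^ 2) := by
            have h3 : d ^ (1 + k) * f i = d ^ k * d' * (e i * f i) := by
              rw [pow_add, pow_one]; nth_rewrite 1 [hdd]; ring
            rw [h3, h2, Algebra.smul_def, Algebra.smul_def]
            simp only [map_neg]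
            ring
          rw [h1]
          exact Subalgebra.smul_mem _ (Subalgebra.mul_mem _ (Subalgebra.mul_mem _
            (Subalgebra.pow_mem _ (hdA _) _) hd'A) (Subalgebra.pow_mem _ (hhA i) _)) _
    | algebraMap r =>
      exact ⟨0, fun N' _ => Subalgebra.mul_mem _ (Subalgebra.pow_mem _ (hdA _) _)
        (Subalgebra.algebraMap_mem _ r)⟩
    | add x y _ _ hx hy =>
      obtain ⟨N, hN⟩ := hx
      obtain ⟨M, hM⟩ := hy
      refine ⟨max N M, fun N' hN' => ?_⟩
      rw [mul_add]
      exact Subalgebra.add_mem _ (hN _ (le_trans (le_max_left _ _) hN'))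
        (hM _ (le_trans (le_max_right _ _) hN'))
    | mul x y _ _ hx hy =>
      obtain ⟨N, hN⟩ := hx
      obtain ⟨M, hM⟩ := hy
      refine ⟨N + M, fun N' hN' => ?_⟩
      have e1 : d ^ N' * (x * y) = (d ^ N * x) * (d ^ (N' - N) * y) := by
        have : d ^ N' = d ^ N * d ^ (N' - N) := by rw [← pow_add]; congr 1; omega
        rw [this]; ring
      rw [e1]
      exact Subalgebra.mul_mem _ (hN _ le_rfl) (hM _ (by omega))
  choose N hN using fun i => hclear (c i) (hc i)
  set M := ∑ i ∈ Finset.range n, N i with hM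
  have hNM : ∀ i ∈ Finset.range n, N i ≤ M := fun i hi =>
    Finset.single_le_sum (f := N) (fun _ _ => Nat.zero_le _) hi
  -- derivations on the constants
  have hDT : ∀ (T : Finset ι) (i : ι), i ∉ T → ∀ x ∈ AT T, D i x = 0 := by
    intro T i hi x hx
    induction hx using Algebra.adjoin_induction with
    | mem x hx =>
      rcases hx with ⟨j, rfl⟩ | ⟨j, hj, rfl⟩
      · exact hDe i j
      · exact hDh' i j (fun h => hi (h ▸ hj))
    | algebraMap r => exact Derivation.map_algebraMap _ r
    | add x y _ _ hx hy => rw [map_add, hx, hy, add_zero]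
    | mul x y _ _ hx hy => rw [Derivation.leibniz, hx, hy]; simp
  -- elimination of all the `h i`
  have helim : ∀ T : Finset ι, (∃ b : ℕ → S, (∀ i, b i ∈ AT T) ∧
      d ^ M * z ^ n + ∑ i ∈ Finset.range n, b i * z ^ i = 0) →
      ∃ b : ℕ → S, (∀ i, b i ∈ AT ∅) ∧
      d ^ M * z ^ n + ∑ i ∈ Finset.range n, b i * z ^ i = 0 := by
    intro T
    induction T using Finset.induction_on with
    | empty => exact fun h => h
    | insert j T hj ih =>
      rintro ⟨b, hb1, hb2⟩
      apply ih
      have hDd : D j d = 0 := hDT T j hj d (hdA T)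
      refine eliminate (h := h j) (D j) (AT T) (hDT T j hj) (hDz j) ?_ ?_ n b ?_ hb2
      · rw [Derivation.leibniz, Derivation.leibniz_pow, Derivation.leibniz_pow, hDd, hDz]; simp
      · intro h0
        rw [hDh] at h0
        have : e j = 0 := (smul_eq_zero.1 h0).resolve_left (by norm_num)
        exact (he0 j this).1
      · intro i
        refine Algebra.adjoin_mono ?_ (hb1 i)
        rintro x (hx | ⟨k, hk, rfl⟩)
        · exact Or.inl (Algebra.subset_adjoin (Or.inl hx))
        · rw [Finset.coe_insert] at hk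
          rcases hk with rfl | hk
          · exact Or.inr rfl
          · exact Or.inl (Algebra.subset_adjoin (Or.inr ⟨k, hk, rfl⟩))
  obtain ⟨b, hb1, hb2⟩ := helim Finset.univ ⟨fun i => if i ∈ Finset.range n then d ^ M * c i else 0,
    fun i => by
      by_cases hi : i ∈ Finset.range n
      · simp only [hi, if_true]; exact hN i M (hNM i hi)
      · simp only [hi, if_false]; exact Subalgebra.zero_mem _, by
      have h1 : ∑ i ∈ Finset.range n, (if i ∈ Finset.range n then d ^ M * c i else 0) * z ^ i =
          d ^ M * ∑ i ∈ Finset.range n, c i * z ^ i := by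
        rw [Finset.mul_sum]
        refine Finset.sum_congr rfl fun i hi => ?_
        rw [if_pos hi]; ring
      rw [h1, ← mul_add, hrel, mul_zero]⟩
  have hE : ∀ x ∈ AT ∅, E x = 0 := by
    intro x hx
    induction hx using Algebra.adjoin_induction with
    | mem x hx =>
      rcases hx with ⟨j, rfl⟩ | ⟨j, hj, rfl⟩
      · exact hEe j
      · simp at hj
    | algebraMap r => exact Derivation.map_algebraMap _ r
    | add x y _ _ hx hy => rw [map_add, hx, hy, add_zero]
    | mul x y _ _ hx hy => rw [Derivation.leibniz, hx, hy]; simp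
  have h1 := lead E hμ hEz n (fun i => if i = n then d ^ M else b i) (by
    intro i
    by_cases hi : i = n
    · simp only [hi, if_true]
      rw [Derivation.leibniz_pow, hE d (hdA ∅)]; simp
    · simp only [hi, if_false]; exact hE _ (hb1 i)) (by
    rw [Finset.sum_range_succ, if_pos rfl, add_comm, ← hb2]
    congr 1
    refine Finset.sum_congr rfl fun i hi => ?_
    rw [Finset.mem_range] at hi
    rw [if_neg (by omega)])
  simp only [if_true] at h1
  exact (mul_ne_zero (pow_ne_zero _ hd0) (pow_ne_zero _ hz)) h1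

end dom

end Run7.h206
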