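import Pool.Agent.Run7.h206.Sl2

/-!
Vertex algebras with a finite moment map to the dual of a product of copies of `sl_2`.
-/

namespace Run7.h206

open VertexAlgebra

section

variable {V : Type*} [AddCommGroup V] [Module ℂ V] [VertexAlgebra V]

/-- A family of pairwise commuting `sl_2`-triples `(e i, h i, f i)` of vectors of conformal weight
one (all relations are for the zeroth products), such that all `(h i)_(0)` are diagonalizable. -/
structure Sl2Family (C : ConformalVector V) (ι : Type*) where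
  e : ι → V
  h : ι → V
  f : ι → V
  wt_e : ∀ i, e i ∈ C.wt 1
  wt_h : ∀ i, h i ∈ C.wt 1
  wt_f : ∀ i, f i ∈ C.wt 1
  e_e : ∀ i j, nprod 0 (e i) (e j) = 0
  h_h : ∀ i j, nprod 0 (h i) (h j) = 0
  f_f : ∀ i j, nprod 0 (f i) (f j) = 0
  h_e : ∀ i, nprod 0 (h i) (e i) = (2 : ℂ) • e i
  h_f : ∀ i, nprod 0 (h i) (f i) = (-2 : ℂ) • f i
  e_f : ∀ i, nprod 0 (e i) (f i) = h i
  h_e' : ∀ i j, i ≠ j → nprod 0 (h i) (e j) = 0
  h_f' : ∀ i j, i ≠ j → nprod 0 (h i) (f j) = 0
  e_f' : ∀ i j, i ≠ j → nprod 0 (e i) (f j) = 0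
  diagonalizable : ∀ i, ⨆ μ : ℂ, Module.End.eigenspace (nprod 0 (h i)) μ = ⊤

variable {C : ConformalVector V} {ι : Type*} [Fintype ι]

namespace Sl2Family

variable (t : Sl2Family C ι)

omit [Fintype ι] in
theorem diag_aux (T : Finset ι) :
    (∀ j x, ((nprod 1 C.omega : Module.End ℂ V) + ∑ i ∈ T, (-(1 / 2) : ℂ) •
        (nprod 0 (t.h i) : Module.End ℂ V)) (nprod 0 (t.h j) x) =
      nprod 0 (t.h j) (((nprod 1 C.omega : Module.End ℂ V) + ∑ i ∈ T, (-(1 / 2) : ℂ) •
        (nprod 0 (t.h i) : Module.End ℂ V)) x)) ∧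
    ⨆ μ : ℂ, Module.End.eigenspace ((nprod 1 C.omega : Module.End ℂ V) +
      ∑ i ∈ T, (-(1 / 2) : ℂ) • (nprod 0 (t.h i) : Module.End ℂ V)) μ = ⊤ := by
  classical
  constructor
  · intro j x
    simp only [LinearMap.add_apply, LinearMap.sum_apply, LinearMap.smul_apply, map_add, map_sum,
      map_smul]
    congr 1
    · have h := L0_comm C (t.h j) x 0
      rw [C.mem_wt.1 (t.wt_h j), sub_eq_iff_eq_add] at h
      rw [h]
      simp
    · refine Finset.sum_congr rfl fun i _ => ?_
      rw [comm_zero, t.h_h, map_zero, LinearMap.zero_apply, zero_add]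
  · induction T using Finset.induction_on with
    | empty => simpa using C.diagonalizable
    | insert j T hj ih =>
      rw [Finset.sum_insert hj, add_comm ((-(1 / 2) : ℂ) • _), ← add_assoc]
      refine diag_add (fun x => ?_) ih (t.diagonalizable j) _
      simp only [LinearMap.add_apply, LinearMap.sum_apply, LinearMap.smul_apply, map_add, map_sum,
        map_smul]
      congr 1
      · have h := L0_comm C (t.h j) x 0
        rw [C.mem_wt.1 (t.wt_h j), sub_eq_iff_eq_add] at h
        rw [h]
        simp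
      · refine Finset.sum_congr rfl fun i _ => ?_
        rw [comm_zero, t.h_h, map_zero, LinearMap.zero_apply, zero_add]

/-- the Hamiltonian `L_0 - (sum_i (h i)_(0)) / 2` -/
noncomputable def ham : Hamiltonian V where
  H := (nprod 1 C.omega : Module.End ℂ V) +
    ∑ i, (-(1 / 2) : ℂ) • (nprod 0 (t.h i) : Module.End ℂ V)
  comm a b n := by
    have h := L0_comm C a b n
    rw [sub_eq_iff_eq_add] at h
    simp only [LinearMap.add_apply, LinearMap.sum_apply, LinearMap.smul_apply, map_add, map_sum,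
      map_smul]
    have h2 : ∀ i, (-(1 / 2) : ℂ) • nprod 0 (t.h i) (nprod n a b) =
        (-(1 / 2) : ℂ) • nprod n (nprod 0 (t.h i) a) b +
        (-(1 / 2) : ℂ) • nprod n a (nprod 0 (t.h i) b) := by
      intro i
      rw [comm_zero, smul_add]
    simp only [h2, Finset.sum_add_distrib]
    rw [h, sub_eq_add_neg, ← neg_smul]
    abel
  diagonalizable := (t.diag_aux Finset.univ).2

theorem H_apply (a : V) : t.ham.H a = nprod 1 C.omega a +
    ∑ i, (-(1 / 2) : ℂ) • nprod 0 (t.h i) a := by
  unfold ham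
  simp only [LinearMap.add_apply, LinearMap.sum_apply, LinearMap.smul_apply]

theorem He (i : ι) : t.ham.H (t.e i) = 0 := by
  classical
  rw [t.H_apply, C.mem_wt.1 (t.wt_e i), Finset.sum_eq_single i]
  · rw [t.h_e, smul_smul]; norm_num
  · intro j _ hj
    rw [t.h_e' j i hj, smul_zero]
  · intro h; exact absurd (Finset.mem_univ i) h

theorem Hf (i : ι) : t.ham.H (t.f i) = (2 : ℂ) • t.f i := by
  classical
  rw [t.H_apply, C.mem_wt.1 (t.wt_f i), Finset.sum_eq_single i]
  · rw [t.h_f, smul_smul, ← add_smul]; norm_num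
  · intro j _ hj
    rw [t.h_f' j i hj, smul_zero]
  · intro h; exact absurd (Finset.mem_univ i) h

theorem Hh (i : ι) : t.ham.H (t.h i) = t.h i := by
  rw [t.H_apply, C.mem_wt.1 (t.wt_h i), one_smul, Finset.sum_eq_zero, add_zero]
  intro j _
  rw [t.h_h, smul_zero]

/-- the classes in `R_V` of the members of the family -/
def gens : Set (RV V) :=
  Set.range (fun i => cl (t.e i)) ∪ Set.range (fun i => cl (t.h i)) ∪ Set.range (fun i => cl (t.f i))

/-- The moment map `X_V → (sl_2^*)^ι` is finite: `R_V` is integral over the subalgebra generated by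
the classes of all `e i, h i, f i`. -/
def FiniteMoment : Prop := ∀ x : RV V, IsIntegral (Algebra.adjoin ℂ t.gens) x

variable {t}

omit [Fintype ι] in
theorem rel (ht : t.FiniteMoment) (x : RV V) :
    ∃ (n : ℕ) (c : ℕ → RV V), (∀ i, c i ∈ Algebra.adjoin ℂ t.gens) ∧
      x ^ n + ∑ i ∈ Finset.range n, c i * x ^ i = 0 := by
  obtain ⟨p, hp, hpx⟩ := ht x
  refine ⟨p.natDegree, fun i => (p.coeff i : RV V), fun i => (p.coeff i).2, ?_⟩
  rw [Polynomial.eval₂_eq_sum_range, Finset.sum_range_succ, hp.coeff_natDegree, map_one,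
    one_mul, add_comm] at hpx
  exact hpx

end Sl2Family

/-- the sum of the eigenspaces of the Hamiltonian derivation for the weights `0, 1, 2, ...` -/
noncomputable def natPart (h : Hamiltonian V) : Submodule ℂ (RV V) :=
  ⨆ k : ℕ, (HRlin h).eigenspace (k : ℂ)

theorem natPart_mul (h : Hamiltonian V) {x y : RV V} (hx : x ∈ natPart h) (hy : y ∈ natPart h) :
    x * y ∈ natPart h := by
  unfold natPart at *
  induction hx using Submodule.iSup_induction' with
  | mem k x hx =>
    induction hy using Submodule.iSup_induction' with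
    | mem l y hy =>
      refine Submodule.mem_iSup_of_mem (k + l) ?_
      rw [Module.End.mem_eigenspace_iff] at *
      change HR h (x * y) = _
      rw [Derivation.leibniz]
      change x • HRlin h y + y • HRlin h x = _
      rw [hx, hy, smul_eq_mul, smul_eq_mul, mul_smul_comm, mul_smul_comm, mul_comm y, ← add_smul]
      congr 1
      push_cast; ring
    | zero => simp
    | add a b _ _ h1 h2 => rw [mul_add]; exact Submodule.add_mem _ h1 h2
  | zero => simp
  | add a b _ _ h1 h2 => rw [add_mul]; exact Submodule.add_mem _ h1 h2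

theorem HRlin_diag (h : Hamiltonian V) : ⨆ μ : ℂ, (HRlin h).eigenspace μ = ⊤ := by
  rw [eq_top_iff]
  intro x _
  obtain ⟨b, rfl⟩ := cl_surj x
  have hb : b ∈ ⨆ μ : ℂ, h.H.eigenspace μ := by rw [h.diagonalizable]; trivial
  induction hb using Submodule.iSup_induction' with
  | mem ν b hb =>
    refine Submodule.mem_iSup_of_mem ν ?_
    rw [Module.End.mem_eigenspace_iff] at hb ⊢
    rw [HRlin_cl, hb, map_smul]
  | zero => simp
  | add a a' _ _ h1 h2 => rw [map_add]; exact Submodule.add_mem _ (h1 trivial) (h2 trivial)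

namespace Sl2Family

variable {t : Sl2Family C ι}

theorem alg_natPart {x : RV V} (hx : x ∈ Algebra.adjoin ℂ t.gens) : x ∈ natPart t.ham := by
  induction hx using Algebra.adjoin_induction with
  | mem x hx =>
    rcases hx with (⟨i, rfl⟩ | ⟨i, rfl⟩) | ⟨i, rfl⟩
    · refine Submodule.mem_iSup_of_mem 0 ?_
      rw [Module.End.mem_eigenspace_iff, HRlin_cl, t.He]; simp
    · refine Submodule.mem_iSup_of_mem 1 ?_
      rw [Module.End.mem_eigenspace_iff, HRlin_cl, t.Hh]; simp
    · refine Submodule.mem_iSup_of_mem 2 ?_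
      rw [Module.End.mem_eigenspace_iff, HRlin_cl, t.Hf, map_smul]; norm_num
  | algebraMap r =>
    refine Submodule.mem_iSup_of_mem 0 ?_
    rw [Module.End.mem_eigenspace_iff]
    have := Derivation.map_algebraMap (HR t.ham) r
    change HRlin t.ham (algebraMap ℂ (RV V) r) = 0 at this
    rw [this]; simp
  | add x y _ _ hx hy => exact Submodule.add_mem _ hx hy
  | mul x y _ _ hx hy => exact natPart_mul _ hx hy

/-- functions of negative weight are nilpotent -/
theorem neg_nilpotent (ht : t.FiniteMoment) (μ : ℂ) (hμ : μ.re < 0) (a : V)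
    (ha : a ∈ t.ham.H.eigenspace μ) : IsNilpotent (cl a) := by
  obtain ⟨n, c, hc, hrel⟩ := rel ht (cl a)
  obtain ⟨π, p1, p2, p3, p4⟩ := exists_proj (HRlin t.ham) (HRlin_diag t.ham)
  have hpow : ∀ i : ℕ, HRlin t.ham (cl a ^ i) = ((i : ℂ) * μ) • cl a ^ i := by
    intro i
    change HR t.ham (cl a ^ i) = _
    have ha' : HR t.ham (cl a) = μ • cl a := by
      rw [HR_cl, Module.End.mem_eigenspace_iff.1 ha, map_smul]
    rw [Derivation.leibniz_pow, ha']
    rcases i with _ | i
    · simp
    · rw [Nat.add_sub_cancel, smul_eq_mul, nsmul_eq_mul, pow_succ, mul_smul_comm, mul_smul_comm,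
        Algebra.smul_def, Algebra.smul_def, map_mul, map_natCast]
      ring
  have hterm : ∀ i ∈ Finset.range n, π ((n : ℂ) * μ) (c i * cl a ^ i) = 0 := by
    intro i hi
    rw [Finset.mem_range] at hi
    have h1 := alg_natPart (hc i)
    unfold natPart at h1
    generalize c i = y at h1 ⊢
    induction h1 using Submodule.iSup_induction' with
    | mem k x hx =>
      refine p2 _ ((k : ℂ) + (i : ℂ) * μ) _ ?_ ?_
      · intro h
        have h2 : ((n : ℝ) - i) * μ.re = k := by
          have h3 := congrArg Complex.re h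
          simp at h3
          linarith
        have h3 : (0 : ℝ) < (n : ℝ) - i := by
          have : (i : ℝ) < n := by exact_mod_cast hi
          linarith
        have h4 : (0 : ℝ) ≤ k := Nat.cast_nonneg _
        nlinarith
      · rw [Module.End.mem_eigenspace_iff] at hx ⊢
        change HR t.ham (x * cl a ^ i) = _
        rw [Derivation.leibniz]
        change x • HRlin t.ham (cl a ^ i) + cl a ^ i • HRlin t.ham x = _
        rw [hx, hpow, smul_eq_mul, smul_eq_mul, mul_smul_comm, mul_smul_comm, mul_comm (cl a ^ i),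
          ← add_smul]
        congr 1
        ring
    | zero => simp
    | add x y _ _ hx hy => rw [add_mul, map_add, hx, hy, add_zero]
  refine ⟨n, ?_⟩
  have h1 := congrArg (π ((n : ℂ) * μ)) hrel
  rw [map_add, map_sum, Finset.sum_eq_zero hterm, add_zero, map_zero,
    p1 _ _ (Module.End.mem_eigenspace_iff.2 (hpow n))] at h1
  exact h1

variable (t)

/-- the class of the Casimir element `h^2 + 4 e f` in `R_V` -/
noncomputable def casimir (i : ι) : RV V := cl (t.h i) ^ 2 + (4 : ℂ) • (cl (t.e i) * cl (t.f i))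

omit [Fintype ι] in
theorem brk_ee (i j : ι) : brk (cl (t.e i)) (cl (t.e j)) = 0 := by
  rw [brk_cl, t.e_e, map_zero]

omit [Fintype ι] in
theorem brk_eh (i : ι) : brk (cl (t.e i)) (cl (t.h i)) = (-2 : ℂ) • cl (t.e i) := by
  rw [brk_skew, brk_cl, t.h_e, map_smul, ← neg_smul]

omit [Fintype ι] in
theorem brk_eh' {i j : ι} (hij : i ≠ j) : brk (cl (t.e i)) (cl (t.h j)) = 0 := by
  rw [brk_skew, brk_cl, t.h_e' j i hij.symm, map_zero, neg_zero]

omit [Fintype ι] in
/-- a Poisson ideal containing `e i` contains `h i` and `f i` -/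
theorem mem_of_e {P : Ideal (RV V)} (hP : IsPoissonIdeal P) {i : ι} (he : cl (t.e i) ∈ P) :
    cl (t.h i) ∈ P ∧ cl (t.f i) ∈ P := by
  have h1 : cl (t.h i) ∈ P := by
    have h2 := hP (cl (t.f i)) _ he
    rw [brk_skew, brk_cl, t.e_f] at h2
    simpa using P.neg_mem h2
  refine ⟨h1, ?_⟩
  have h2 := hP (cl (t.f i)) _ h1
  rw [brk_skew, brk_cl, t.h_f, map_smul] at h2
  have h3 := (P.restrictScalars ℂ).smul_mem ((1 / 2 : ℂ)) h2
  rw [smul_neg, smul_smul] at h3
  norm_num at h3
  exact h3

variable {t}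

/-- If the Casimir elements are nilpotent in `R_V` and the moment map is finite, then brackets with
the `e i` detect homogeneous non-nilpotent elements of non-zero weight. -/
theorem pol (ht : t.FiniteMoment) (hcas : ∀ i, IsNilpotent (t.casimir i)) (μ : ℂ) (hμ : μ ≠ 0)
    (a : V) (ha : a ∈ t.ham.H.eigenspace μ) (hnil : ¬ IsNilpotent (cl a)) :
    ∃ b : V, t.ham.H b = 0 ∧ ¬ IsNilpotent (brk (cl b) (cl a)) := by
  by_contra hcon
  push Not at hcon
  have hbr : ∀ i, IsNilpotent (brk (cl (t.e i)) (cl a)) := fun i => hcon _ (t.He i)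
  obtain ⟨P, hP, hPs, hNP, hzP⟩ := exists_stab_prime_avoid (D := DD t.ham)
    (stab_nilradical) (z := cl a) (fun k hk => hnil (by
      obtain ⟨m, hm⟩ := hk
      exact ⟨k * m, by rw [pow_mul]; exact hm⟩))
  have hPP : IsPoissonIdeal P := fun x y hy => hPs (some x) y hy
  set q : RV V →ₐ[ℂ] RV V ⧸ P := Ideal.Quotient.mkₐ ℂ P with hq
  have hqs : Function.Surjective q := Ideal.Quotient.mkₐ_surjective ℂ P
  have hq0 : ∀ x : RV V, q x = 0 ↔ x ∈ P := fun x => Ideal.Quotient.eq_zero_iff_mem
  have hstab : ∀ i, ∀ x, q x = 0 → q (DD t.ham i x) = 0 := fun i x hx =>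
    (hq0 _).2 (hPs i x ((hq0 x).1 hx))
  let D : ι → Derivation ℂ (RV V ⧸ P) (RV V ⧸ P) := fun i =>
    Derivation.liftOfSurjective (d := DD t.ham (some (cl (t.e i)))) hqs (hstab _)
  let E : Derivation ℂ (RV V ⧸ P) (RV V ⧸ P) :=
    Derivation.liftOfSurjective (d := DD t.ham none) hqs (hstab _)
  have hD : ∀ i x, D i (q x) = q (brk (cl (t.e i)) x) := fun i x =>
    Derivation.liftOfSurjective_apply hqs (hstab _) x
  have hE : ∀ x, E (q x) = q (HR t.ham x) := fun x =>
    Derivation.liftOfSurjective_apply hqs (hstab _) x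
  obtain ⟨n, c, hc, hrel⟩ := rel ht (cl a)
  have hcasP : ∀ i, q (t.casimir i) = 0 := fun i => (hq0 _).2 (hNP (hcas i))
  have hz := domain_key D E (e := fun i => q (cl (t.e i))) (h := fun i => q (cl (t.h i)))
    (f := fun i => q (cl (t.f i))) (z := q (cl a)) hμ
    (fun i j => by rw [hD, t.brk_ee, map_zero])
    (fun i => by rw [hD, t.brk_eh, map_smul])
    (fun i j hij => by rw [hD, t.brk_eh' hij, map_zero])
    (fun i => by
      have := hcasP i
      unfold casimir at this
      rw [map_add, map_pow, map_smul, map_mul] at this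
      rw [← add_eq_zero_iff_eq_neg, add_comm]; exact this)
    (fun i => by rw [hE, HR_cl, t.He]; simp)
    (fun i => by rw [hD]; exact (hq0 _).2 (hNP (hbr i)))
    (by rw [hE, HR_cl, Module.End.mem_eigenspace_iff.1 ha, map_smul, map_smul])
    (fun i he0 => by
      obtain ⟨h1, h2⟩ := t.mem_of_e hPP ((hq0 _).1 he0)
      exact ⟨(hq0 _).2 h1, (hq0 _).2 h2⟩)
    n (fun i => q (c i))
    (by
      intro i
      have h1 : q (c i) ∈ Subalgebra.map q (Algebra.adjoin ℂ t.gens) := ⟨c i, hc i, rfl⟩
      unfold gens at h1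
      rw [AlgHom.map_adjoin, Set.image_union, Set.image_union, ← Set.range_comp, ← Set.range_comp,
        ← Set.range_comp] at h1
      exact h1)
    (by rw [← map_pow, ← map_zero q, ← hrel, map_add, map_sum]; simp)
  exact hzP ((hq0 _).1 hz)

end Sl2Family

end

end Run7.h206
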