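import Pool.Agent.Run7.h968.TN.Defs5

/-! # Piece `min5` of the Tarski number project (helper968) -/

set_option autoImplicit false

namespace Run7.h206.TN

open Pool.Agent.Run7.h968.TN
open scoped Classical

/-- a finitely supported function which is invariant under an element of infinite order vanishes -/
theorem zero_of_shift {K : Type} [Group K] {u : K} (hu : InfOrd u) {d : K → ℚ} {S : Finset K}
    (hS : ∀ a, d a ≠ 0 → a ∈ S) (hd : ∀ v, d (u⁻¹ * v) = d v) (v : K) : d v = 0 := by
  by_contra hv
  have h1 : ∀ n : ℕ, d ((u⁻¹) ^ n * v) = d v := by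
    intro n
    induction n with
    | zero => simp
    | succ n ih =>
      rw [pow_succ', mul_assoc, hd, ih]
  have h2 : ∀ n : ℕ, (u⁻¹) ^ n * v ∈ S := fun n => hS _ (by rw [h1 n]; exact hv)
  have h3 : Function.Injective (fun n : ℕ => (u⁻¹) ^ n * v) := by
    intro n m hnm
    have h4 : (u⁻¹) ^ n = (u⁻¹) ^ m := mul_right_cancel hnm
    rw [inv_pow, inv_pow, inv_inj] at h4
    by_contra hne
    rcases Nat.lt_or_gt_of_ne hne with hlt | hlt
    · obtain ⟨k, rfl⟩ := Nat.exists_eq_add_of_lt hlt
      have h5 : u ^ (k + 1) = 1 := by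
        have h6 : u ^ n * u ^ (k + 1) = u ^ n * 1 := by
          rw [← pow_add, mul_one]
          exact h4.symm
        exact mul_left_cancel h6
      exact hu _ (Nat.succ_pos k) h5
    · obtain ⟨k, rfl⟩ := Nat.exists_eq_add_of_lt hlt
      have h5 : u ^ (k + 1) = 1 := by
        have h6 : u ^ m * u ^ (k + 1) = u ^ m * 1 := by
          rw [← pow_add, mul_one]
          exact h4
        exact mul_left_cancel h6
      exact hu _ (Nat.succ_pos k) h5
  exact Set.infinite_of_injective_forall_mem h3 h2 S.finite_toSet

theorem t_min5 (hg : P_graph5) : P_min5 := by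
  intro K _ N _ I _ h iu F hu hsp hiu hmin i hi hil A₁ A₂ V hA₁ hA₂ hs₁ hs₂ x
  by_contra hlt
  push Not at hlt
  have c0 : Nat.card {a : K // a ∈ A₂ ∧ ((QuotientGroup.mk (a * x) : K ⧸ N), i 0) ∈ F} =
      (A₂.filter (fun a => ((QuotientGroup.mk (a * x) : K ⧸ N), i 0) ∈ F)).card :=
    Nat.subtype_card _ (fun a => by rw [Finset.mem_filter])
  have c1 : Nat.card {a : K // a ∈ A₂ ∧ ((QuotientGroup.mk (a * x) : K ⧸ N), i 1) ∈ F} =
      (A₂.filter (fun a => ((QuotientGroup.mk (a * x) : K ⧸ N), i 1) ∈ F)).card :=
    Nat.subtype_card _ (fun a => by rw [Finset.mem_filter])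
  rw [c0, c1] at hlt
  set B0 := A₂.filter (fun a => ((QuotientGroup.mk (a * x) : K ⧸ N), i 0) ∈ F) with hB0
  set B1 := A₂.filter (fun a => ((QuotientGroup.mk (a * x) : K ⧸ N), i 1) ∈ F) with hB1
  have h01 : i 0 ≠ i 1 := fun e => by
    have := hi e
    exact absurd this (by decide)
  let E0 : Finset (K × I) := A₁.image (fun a => (a, iu))
  let E1 : Finset (K × I) := B0.image (fun a => (a, i 0))
  let E2 : Finset (K × I) := B1.image (fun a => (a, i 1))
  let es : Finset (K × I) := E0 ∪ (E1 ∪ E2)
  have hmem : ∀ e : K × I, e ∈ es ↔ (e.1 ∈ A₁ ∧ e.2 = iu) ∨ (e.1 ∈ B0 ∧ e.2 = i 0) ∨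
      (e.1 ∈ B1 ∧ e.2 = i 1) := by
    intro e
    simp only [es, E0, E1, E2, Finset.mem_union, Finset.mem_image]
    constructor
    · rintro (⟨a, ha, rfl⟩ | ⟨a, ha, rfl⟩ | ⟨a, ha, rfl⟩)
      · exact Or.inl ⟨ha, rfl⟩
      · exact Or.inr (Or.inl ⟨ha, rfl⟩)
      · exact Or.inr (Or.inr ⟨ha, rfl⟩)
    · rintro (⟨ha, hb⟩ | ⟨ha, hb⟩ | ⟨ha, hb⟩)
      · exact Or.inl ⟨e.1, ha, Prod.ext rfl hb.symm⟩
      · exact Or.inr (Or.inl ⟨e.1, ha, Prod.ext rfl hb.symm⟩)
      · exact Or.inr (Or.inr ⟨e.1, ha, Prod.ext rfl hb.symm⟩)
  have inj : ∀ l : I, Function.Injective (fun a : K => (a, l)) := fun l a b hab =>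
    (Prod.ext_iff.1 hab).1
  have hcard : es.card = A₁.card + (B0.card + B1.card) := by
    have d12 : Disjoint E1 E2 := by
      rw [Finset.disjoint_left]
      intro e h1 h2
      simp only [E1, E2, Finset.mem_image] at h1 h2
      obtain ⟨a, -, rfl⟩ := h1
      obtain ⟨b, -, hb⟩ := h2
      exact h01 (Prod.ext_iff.1 hb).2.symm
    have d0 : Disjoint E0 (E1 ∪ E2) := by
      rw [Finset.disjoint_left]
      intro e h1 h2
      simp only [E0, E1, E2, Finset.mem_union, Finset.mem_image] at h1 h2
      obtain ⟨a, -, rfl⟩ := h1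
      rcases h2 with ⟨b, -, hb⟩ | ⟨b, -, hb⟩
      · exact hil 0 (Prod.ext_iff.1 hb).2
      · exact hil 1 (Prod.ext_iff.1 hb).2
    show (E0 ∪ (E1 ∪ E2)).card = _
    rw [Finset.card_union_of_disjoint d0, Finset.card_union_of_disjoint d12,
      Finset.card_image_of_injective _ (inj _), Finset.card_image_of_injective _ (inj _),
      Finset.card_image_of_injective _ (inj _)]
  have hsrc : ∀ e ∈ es, e.1 ∈ V := by
    intro e he
    rcases (hmem e).1 he with ⟨h1, -⟩ | ⟨h1, -⟩ | ⟨h1, -⟩
    · exact (hA₁ _ h1).1
    · exact (hA₂ _ (Finset.mem_filter.1 h1).1).1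
    · exact (hA₂ _ (Finset.mem_filter.1 h1).1).1
  have htgt : ∀ e ∈ es, h e.2 * e.1 ∈ V := by
    intro e he
    rcases (hmem e).1 he with ⟨h1, h2⟩ | ⟨h1, h2⟩ | ⟨h1, h2⟩
    · rw [h2]; exact (hA₁ _ h1).2
    · rw [h2]; exact (hA₂ _ (Finset.mem_filter.1 h1).1).2.1
    · rw [h2]; exact (hA₂ _ (Finset.mem_filter.1 h1).1).2.2
  obtain ⟨e, he, hpe, hcon⟩ := hg K (K × I) V es (fun e => e.1) (fun e => h e.2 * e.1)
    (fun e => e.2 = iu) hsrc htgt (by rw [hcard]; exact hlt) (by
      intro c hc hφ e
      by_cases hei : e.2 = iu
      · have h1 : ∀ v : K, c ((h iu)⁻¹ * v, iu) = c (v, iu) := by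
          intro v
          have h2 := hφ (fun w => if w = v then 1 else 0)
          have h3 : ∑ e ∈ es, c e * (if e.1 = v then (1 : ℚ) else 0) = c (v, iu) := by
            by_cases hv : (v, iu) ∈ es
            · rw [Finset.sum_eq_single (v, iu)]
              · simp
              · intro b _ hb
                by_cases hcb : c b = 0
                · rw [hcb, zero_mul]
                · have h4 := (hc b hcb).2
                  rw [if_neg, mul_zero]
                  intro h5
                  exact hb (Prod.ext h5 h4)
              · intro h5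
                exact absurd hv h5
            · have h6 : c (v, iu) = 0 := by
                by_contra h7
                exact hv (hc _ h7).1
              rw [h6]
              apply Finset.sum_eq_zero
              intro b _
              by_cases hcb : c b = 0
              · rw [hcb, zero_mul]
              · have h4 := (hc b hcb)
                rw [if_neg, mul_zero]
                intro h5
                apply hv
                have h8 : b = (v, iu) := Prod.ext h5 h4.2
                rw [← h8]
                exact h4.1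
          have h3' : ∑ e ∈ es, c e * (if h e.2 * e.1 = v then (1 : ℚ) else 0) =
              c ((h iu)⁻¹ * v, iu) := by
            by_cases hv : ((h iu)⁻¹ * v, iu) ∈ es
            · rw [Finset.sum_eq_single ((h iu)⁻¹ * v, iu)]
              · simp
              · intro b _ hb
                by_cases hcb : c b = 0
                · rw [hcb, zero_mul]
                · have h4 := (hc b hcb).2
                  rw [if_neg, mul_zero]
                  intro h5
                  apply hb
                  refine Prod.ext ?_ h4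
                  rw [h4] at h5
                  simp only
                  rw [← h5, inv_mul_cancel_left]
              · intro h5
                exact absurd hv h5
            · have h6 : c ((h iu)⁻¹ * v, iu) = 0 := by
                by_contra h7
                exact hv (hc _ h7).1
              rw [h6]
              apply Finset.sum_eq_zero
              intro b _
              by_cases hcb : c b = 0
              · rw [hcb, zero_mul]
              · have h4 := (hc b hcb)
                rw [if_neg, mul_zero]
                intro h5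
                apply hv
                have h8 : b = ((h iu)⁻¹ * v, iu) := by
                  refine Prod.ext ?_ h4.2
                  have h9 := h4.2
                  rw [h9] at h5
                  simp only
                  rw [← h5, inv_mul_cancel_left]
                rw [← h8]
                exact h4.1
          simp only [mul_sub, Finset.sum_sub_distrib] at h2
          rw [h3, h3'] at h2
          exact sub_eq_zero.1 h2
        have h4 := zero_of_shift (u := h iu) hu (d := fun v => c (v, iu)) (S := A₁)
          (by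
            intro a ha
            rcases (hmem _).1 (hc _ ha).1 with ⟨h5, -⟩ | ⟨-, h5⟩ | ⟨-, h5⟩
            · exact h5
            · exact absurd h5.symm (hil 0)
            · exact absurd h5.symm (hil 1)) h1 e.1
        have h5 : e = (e.1, iu) := Prod.ext rfl hei
        rw [h5]
        exact h4
      · by_contra hce
        exact hei (hc e hce).2)
  -- the edge `e` comes from `A₂`
  have heF : e.1 ∈ A₂ ∧ ((QuotientGroup.mk (e.1 * x) : K ⧸ N), e.2) ∈ F := by
    rcases (hmem e).1 he with ⟨-, h2⟩ | ⟨h1, h2⟩ | ⟨h1, h2⟩
    · exact absurd h2 hpe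
    · rw [hB0, Finset.mem_filter] at h1
      rw [h2]
      exact h1
    · rw [hB1, Finset.mem_filter] at h1
      rw [h2]
      exact h1
  have hFe : ∀ e' ∈ es, ((QuotientGroup.mk (e'.1 * x) : K ⧸ N), e'.2) ∈ F := by
    intro e' he'
    rcases (hmem e').1 he' with ⟨-, h2⟩ | ⟨h1, h2⟩ | ⟨h1, h2⟩
    · rw [h2]; exact hiu _
    · rw [hB0, Finset.mem_filter] at h1
      rw [h2]; exact h1.2
    · rw [hB1, Finset.mem_filter] at h1
      rw [h2]; exact h1.2
  refine hmin (F.erase ((QuotientGroup.mk (e.1 * x) : K ⧸ N), e.2)) (Finset.erase_subset _ _)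
    (fun hE => ?_) (fun y => ?_) ?_
  · have := Finset.notMem_erase ((QuotientGroup.mk (e.1 * x) : K ⧸ N), e.2) F
    rw [hE] at this
    exact this heF.2
  · rw [Finset.mem_erase]
    exact ⟨fun hy => hpe (Prod.ext_iff.1 hy).2.symm, hiu y⟩
  · intro a b
    have key : ∀ p q : K, adj N h F p q → Relation.EqvGen
        (adj N h (F.erase ((QuotientGroup.mk (e.1 * x) : K ⧸ N), e.2))) p q := by
      rintro p q ⟨j, hj, rfl⟩
      by_cases hpj : ((QuotientGroup.mk p : K ⧸ N), j) =
          ((QuotientGroup.mk (e.1 * x) : K ⧸ N), e.2)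
      · obtain ⟨hp1, hp2⟩ := Prod.ext_iff.1 hpj
        simp only at hp1 hp2
        have hn : (e.1 * x)⁻¹ * p ∈ N := QuotientGroup.eq.1 hp1.symm
        set n : K := (e.1 * x)⁻¹ * p with hndef
        have hp : p = e.1 * x * n := by rw [hndef]; group
        have hmap : ∀ v w : K, Relation.EqvGen
            (fun a b => ∃ e' ∈ es, e' ≠ e ∧ e'.1 = a ∧ h e'.2 * e'.1 = b) v w →
            Relation.EqvGen
              (adj N h (F.erase ((QuotientGroup.mk (e.1 * x) : K ⧸ N), e.2)))
              (v * x * n) (w * x * n) := by
          intro v w hvw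
          induction hvw with
          | rel v w hvw =>
            obtain ⟨e', he', hne, rfl, rfl⟩ := hvw
            apply Relation.EqvGen.rel
            refine ⟨e'.2, ?_, by simp only [mul_assoc]⟩
            have hq : (QuotientGroup.mk (e'.1 * x * n) : K ⧸ N) = QuotientGroup.mk (e'.1 * x) := by
              rw [QuotientGroup.eq]
              have : (e'.1 * x * n)⁻¹ * (e'.1 * x) = n⁻¹ := by group
              rw [this]
              exact N.inv_mem hn
            rw [hq, Finset.mem_erase]
            refine ⟨fun hE => hne ?_, hFe e' he'⟩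
            obtain ⟨hE1, hE2⟩ := Prod.ext_iff.1 hE
            simp only at hE1 hE2
            have h5 : e'.1 ∈ A₂ := by
              rcases (hmem e').1 he' with ⟨-, h2⟩ | ⟨h1, -⟩ | ⟨h1, -⟩
              · exact absurd (hE2.symm.trans h2) hpe
              · exact (Finset.mem_filter.1 h1).1
              · exact (Finset.mem_filter.1 h1).1
            have h6 : (e'.1 * x)⁻¹ * (e.1 * x) ∈ N := QuotientGroup.eq.1 hE1
            have h7 : e'.1⁻¹ * e.1 ∈ N := by
              have h8 := (inferInstance : N.Normal).conj_mem _ h6 x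
              have h9 : x * ((e'.1 * x)⁻¹ * (e.1 * x)) * x⁻¹ = e'.1⁻¹ * e.1 := by group
              rwa [h9] at h8
            exact Prod.ext (hs₂ _ h5 _ heF.1 h7) hE2
          | refl v => exact Relation.EqvGen.refl _
          | symm v w _ ih => exact Relation.EqvGen.symm _ _ ih
          | trans u v w _ _ ih1 ih2 => exact Relation.EqvGen.trans _ _ _ ih1 ih2
        have h10 := hmap _ _ hcon
        rw [hp, hp2]
        have h11 : h e.2 * (e.1 * x * n) = h e.2 * e.1 * x * n := by simp only [mul_assoc]
        rw [h11]
        exact h10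
      · apply Relation.EqvGen.rel
        exact ⟨j, Finset.mem_erase.2 ⟨hpj, hj⟩, rfl⟩
    have hab := hsp a b
    induction hab with
    | rel p q hpq => exact key p q hpq
    | refl p => exact Relation.EqvGen.refl _
    | symm p q _ ih => exact Relation.EqvGen.symm _ _ ih
    | trans p q r _ _ ih1 ih2 => exact Relation.EqvGen.trans _ _ _ ih1 ih2

end Run7.h206.TN
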