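import Pool.Agent.Run7.h206.Simple

/-!
Words in letters modulo operators of higher filtration degree; nilpotent letters.
-/

namespace Run7.h206

open VertexAlgebra

section

variable {V : Type*} [AddCommGroup V] [Module ℂ V] [VertexAlgebra V]

/-- permuting the letters of a word changes it by an operator of higher degree -/
theorem word_perm {L L' : List (V × ℕ)} (h : L.Perm L') :
    deg L = deg L' ∧ word L - word L' ∈ U V (deg L + 1) := by
  induction h with
  | nil => simp
  | cons s h ih =>
    obtain ⟨h1, h2⟩ := ih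
    refine ⟨by simp [h1], ?_⟩
    rw [word_cons, word_cons, ← mul_sub]
    exact U_mul (op_U s) h2 (by rw [deg_cons]; omega)
  | swap s t L =>
    refine ⟨by simp; omega, ?_⟩
    rw [word_cons, word_cons, word_cons, word_cons, ← mul_assoc, ← mul_assoc, ← sub_mul]
    exact U_mul (op_comm t s) (word_U L) (by rw [deg_cons, deg_cons]; omega)
  | trans _ _ ih1 ih2 =>
    obtain ⟨h1, h2⟩ := ih1
    obtain ⟨h3, h4⟩ := ih2
    refine ⟨h1.trans h3, ?_⟩
    rw [← sub_add_sub_cancel]
    exact Submodule.add_mem _ h2 (by rw [h1]; exact h4)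

theorem word_replicate (s : V × ℕ) (N : ℕ) : word (List.replicate N s) = op s ^ N := by
  induction N with
  | zero => simp
  | succ N ih => rw [List.replicate_succ, word_cons, ih, pow_succ']

omit [AddCommGroup V] [Module ℂ V] [VertexAlgebra V] in
theorem deg_replicate (s : V × ℕ) (N : ℕ) : deg (List.replicate N s) = N * s.2 := by
  induction N with
  | zero => simp
  | succ N ih => rw [List.replicate_succ, deg_cons, ih]; ring

/-- a letter some power of which has higher degree than expected -/
def NilL (s : V × ℕ) (N : ℕ) : Prop := op s ^ N ∈ U V (N * s.2 + 1)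

open Classical in
/-- number of letters of a word that lie in a finite set -/
noncomputable def cnt (S : Finset (V × ℕ)) (L : List (V × ℕ)) : ℕ :=
  (L.filter (fun s => s ∈ S)).length

omit [AddCommGroup V] [Module ℂ V] [VertexAlgebra V] in
theorem cnt_append (S : Finset (V × ℕ)) (L L' : List (V × ℕ)) :
    cnt S (L ++ L') = cnt S L + cnt S L' := by
  simp [cnt]

omit [AddCommGroup V] [Module ℂ V] [VertexAlgebra V] in
theorem cnt_cons_mem {S : Finset (V × ℕ)} {s : V × ℕ} (hs : s ∈ S) (L : List (V × ℕ)) :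
    cnt S (s :: L) = cnt S L + 1 := by
  simp [cnt, hs]

omit [AddCommGroup V] [Module ℂ V] [VertexAlgebra V] in
theorem cnt_cons_not {S : Finset (V × ℕ)} {s : V × ℕ} (hs : s ∉ S) (L : List (V × ℕ)) :
    cnt S (s :: L) = cnt S L := by
  simp [cnt, hs]

omit [AddCommGroup V] [Module ℂ V] [VertexAlgebra V] in
open Classical in
theorem cnt_eq_sum (S : Finset (V × ℕ)) (L : List (V × ℕ)) :
    cnt S L = ∑ s ∈ S, L.count s := by
  induction L with
  | nil => simp [cnt]
  | cons t L ih =>
    simp only [List.count_cons, Finset.sum_add_distrib, ← ih]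
    by_cases ht : t ∈ S
    · rw [cnt_cons_mem ht]
      simp [ht]
    · rw [cnt_cons_not ht]
      simp [ht]

/-- a word with many nilpotent letters has higher degree than expected -/
theorem word_nil_of_cnt {S : Finset (V × ℕ)} {N : V × ℕ → ℕ} (hN : ∀ s ∈ S, NilL s (N s))
    {L : List (V × ℕ)} (hL : ∑ s ∈ S, N s < cnt S L) : word L ∈ U V (deg L + 1) := by
  classical
  obtain ⟨s, hsS, hs⟩ : ∃ s ∈ S, N s ≤ L.count s := by
    by_contra hc
    push Not at hc
    have h1 : ∑ s ∈ S, L.count s ≤ ∑ s ∈ S, N s := Finset.sum_le_sum fun s hs => (hc s hs).le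
    rw [← cnt_eq_sum] at h1
    omega
  have h1 : (List.replicate (N s) s).Sublist L := List.replicate_sublist_iff.2 hs
  obtain ⟨L', hL'⟩ := h1.exists_perm_append
  obtain ⟨h2, h3⟩ := word_perm hL'
  have h4 : word L = (word L - word (List.replicate (N s) s ++ L')) +
      op s ^ (N s) * word L' := by
    rw [word_append, word_replicate]; abel
  rw [h4]
  refine Submodule.add_mem _ h3 (U_mul (hN s hsS) (word_U L') ?_)
  rw [h2, deg_append, deg_replicate]
  omega

/-- operators of degree `d` that are combinations of words with at least `c` letters in `S`,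
modulo operators of higher degree -/
def WS (S : Finset (V × ℕ)) (d c : ℕ) : Submodule ℂ (Module.End ℂ V) :=
  Submodule.span ℂ {X | ∃ L : List (V × ℕ), deg L = d ∧ c ≤ cnt S L ∧ X = word L} ⊔ U V (d + 1)

theorem WS_le_U (S : Finset (V × ℕ)) (d c : ℕ) : WS S d c ≤ U V d := by
  refine sup_le (Submodule.span_le.2 ?_) (U_anti (Nat.le_succ d))
  rintro X ⟨L, rfl, _, rfl⟩
  exact word_U L

theorem word_WS (S : Finset (V × ℕ)) (L : List (V × ℕ)) {c : ℕ} (hc : c ≤ cnt S L) :
    word L ∈ WS S (deg L) c :=
  (le_sup_left : _ ≤ WS S (deg L) c) (Submodule.subset_span ⟨L, rfl, hc, rfl⟩)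

theorem U_le_WS (S : Finset (V × ℕ)) (d c : ℕ) : U V (d + 1) ≤ WS S d c := le_sup_right

theorem WS_mul {S : Finset (V × ℕ)} {d c d' c' : ℕ} {X Y : Module.End ℂ V} (hX : X ∈ WS S d c)
    (hY : Y ∈ WS S d' c') : X * Y ∈ WS S (d + d') (c + c') := by
  obtain ⟨x1, hx1, x2, hx2, rfl⟩ := Submodule.mem_sup.1 hX
  obtain ⟨y1, hy1, y2, hy2, rfl⟩ := Submodule.mem_sup.1 hY
  have hx1U : x1 ∈ U V d := WS_le_U S d c ((le_sup_left : _ ≤ WS S d c) hx1)
  have e : (x1 + x2) * (y1 + y2) = x1 * y1 + (x1 * y2 + x2 * (y1 + y2)) := by noncomm_ring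
  rw [e]
  refine Submodule.add_mem _ ((le_sup_left : _ ≤ WS S (d + d') (c + c')) ?_)
    (U_le_WS _ _ _ (Submodule.add_mem _ (U_mul hx1U hy2 (by omega))
      (U_mul hx2 (WS_le_U S d' c' hY) (by omega))))
  have h1 := Submodule.mul_mem_mul hx1 hy1
  rw [Submodule.span_mul_span] at h1
  refine Submodule.span_mono ?_ h1
  rintro Z hZ
  obtain ⟨_, ⟨L, hL1, hL2, rfl⟩, _, ⟨L', hL1', hL2', rfl⟩, rfl⟩ := Set.mem_mul.1 hZ
  exact ⟨L ++ L', by rw [deg_append]; omega, by rw [cnt_append]; omega, (word_append L L').symm⟩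

theorem WS_pow {S : Finset (V × ℕ)} {d c : ℕ} {X : Module.End ℂ V} (hX : X ∈ WS S d c) (n : ℕ) :
    X ^ n ∈ WS S (n * d) (n * c) := by
  induction n with
  | zero =>
    have : (1 : Module.End ℂ V) ∈ WS S (deg ([] : List (V × ℕ))) 0 :=
      word_WS S [] (Nat.zero_le _)
    simpa using this
  | succ n ih =>
    rw [pow_succ, Nat.succ_mul, Nat.succ_mul]
    exact WS_mul ih hX

theorem WS_nil {S : Finset (V × ℕ)} {N : V × ℕ → ℕ} (hN : ∀ s ∈ S, NilL s (N s)) {d c : ℕ}
    (hc : ∑ s ∈ S, N s < c) : WS S d c ≤ U V (d + 1) := by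
  refine sup_le (Submodule.span_le.2 ?_) le_rfl
  rintro X ⟨L, rfl, h, rfl⟩
  exact word_nil_of_cnt hN (lt_of_lt_of_le hc h)

theorem WS_anti {S : Finset (V × ℕ)} {d c c' : ℕ} (h : c ≤ c') : WS S d c' ≤ WS S d c := by
  refine sup_le_sup (Submodule.span_mono ?_) le_rfl
  rintro X ⟨L, h1, h2, h3⟩
  exact ⟨L, h1, h.trans h2, h3⟩

theorem op_zero_left (m : ℕ) : op ((vac : V), m) = if m = 0 then 1 else 0 := by
  ext x
  rw [op_apply]
  simp only
  rw [vac_left]
  by_cases h : m = 0
  · subst h; simp
  · rw [if_neg (by omega), if_neg h]; simp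

open Classical in
/-- the letters `(a, i)` with `i < j` -/
noncomputable def low (a : V) (j : ℕ) : Finset (V × ℕ) := (Finset.range j).image (fun i => (a, i))

omit [AddCommGroup V] [Module ℂ V] [VertexAlgebra V] in
theorem mem_low {a : V} {j i : ℕ} (h : i < j) : (a, i) ∈ low a j := by
  classical
  exact Finset.mem_image.2 ⟨i, Finset.mem_range.2 h, rfl⟩

theorem power_letters (a : V) (j : ℕ) : ∀ k : ℕ,
    (∀ m, m < j * k → op ((op (a, 0) ^ k) (vac : V), m) ∈ WS (low a j) m 1) ∧
    op ((op (a, 0) ^ k) (vac : V), j * k) - op (a, j) ^ k ∈ WS (low a j) (j * k) 1 := by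
  intro k
  induction k with
  | zero =>
    refine ⟨fun m hm => by omega, ?_⟩
    simp [op_zero_left]
  | succ k ih =>
    obtain ⟨ih1, ih2⟩ := ih
    set z : V := (op (a, 0) ^ k) (vac : V) with hz
    have hz1 : (op (a, 0) ^ (k + 1)) (vac : V) = nprod (-1) a z := by
      rw [pow_succ', Module.End.mul_apply, op_apply]; simp [hz]
    rw [hz1]
    have hm := op_mul a z
    -- a single term
    have hterm1 : ∀ m i : ℕ, i ≤ m → i < j → op (a, i) * op (z, m - i) ∈ WS (low a j) m 1 := by
      intro m i him hij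
      have h1 : word [(a, i), (z, m - i)] ∈ WS (low a j) (deg [(a, i), (z, m - i)]) 1 := by
        refine word_WS _ _ ?_
        rw [cnt_cons_mem (mem_low hij)]; omega
      have h2 : deg [(a, i), (z, m - i)] = m := by simp; omega
      rw [h2] at h1
      simpa using h1
    have hterm2 : ∀ m i : ℕ, i ≤ m → m - i < j * k →
        op (a, i) * op (z, m - i) ∈ WS (low a j) m 1 := by
      intro m i him hlt
      have h1 : word [(a, i)] ∈ WS (low a j) (deg [(a, i)]) 0 := word_WS _ _ (Nat.zero_le _)
      have h2 := WS_mul h1 (ih1 _ hlt)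
      have h3 : deg [(a, i)] + (m - i) = m := by simp; omega
      rw [h3, zero_add] at h2
      simpa using h2
    constructor
    · intro m hmlt
      have h1 : op (nprod (-1) a z, m) =
          (op (nprod (-1) a z, m) - ∑ i ∈ Finset.range (m + 1), op (a, i) * op (z, m - i)) +
          ∑ i ∈ Finset.range (m + 1), op (a, i) * op (z, m - i) := by abel
      rw [h1]
      refine Submodule.add_mem _ (U_le_WS _ _ _ (hm m)) (Submodule.sum_mem _ fun i hi => ?_)
      rw [Finset.mem_range] at hi
      rcases lt_or_ge i j with hij | hij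
      · exact hterm1 m i (by omega) hij
      · refine hterm2 m i (by omega) ?_
        rw [Nat.mul_succ] at hmlt
        omega
    · have hjm : j ∈ Finset.range (j * (k + 1) + 1) := by
        rw [Finset.mem_range, Nat.mul_succ]; omega
      have h1 : op (nprod (-1) a z, j * (k + 1)) - op (a, j) ^ (k + 1) =
          (op (nprod (-1) a z, j * (k + 1)) -
            ∑ i ∈ Finset.range (j * (k + 1) + 1), op (a, i) * op (z, j * (k + 1) - i)) +
          (op (a, j) * (op (z, j * k) - op (a, j) ^ k) +
          ∑ i ∈ (Finset.range (j * (k + 1) + 1)).erase j, op (a, i) * op (z, j * (k + 1) - i)) := by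
        rw [← Finset.add_sum_erase _ _ hjm, pow_succ', mul_sub]
        have e : j * (k + 1) - j = j * k := by rw [Nat.mul_succ]; omega
        rw [e]
        abel
      rw [h1]
      refine Submodule.add_mem _ (U_le_WS _ _ _ (hm _)) (Submodule.add_mem _ ?_
        (Submodule.sum_mem _ fun i hi => ?_))
      · have h2 : word [(a, j)] ∈ WS (low a j) (deg [(a, j)]) 0 := word_WS _ _ (Nat.zero_le _)
        have h3 := WS_mul h2 ih2
        have h4 : deg [(a, j)] + j * k = j * (k + 1) := by simp; ring
        rw [h4, zero_add] at h3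
        simpa using h3
      · rw [Finset.mem_erase, Finset.mem_range] at hi
        rcases lt_or_ge i j with hij | hij
        · exact hterm1 _ i (by omega) hij
        · refine hterm2 _ i (by omega) ?_
          rw [Nat.mul_succ] at hi ⊢
          omega

/-- If the class of `a` in `R_V` is nilpotent, then all letters `(a, j)` are nilpotent modulo
operators of higher degree. -/
theorem nilL_of_nilpotent {a : V} (ha : IsNilpotent (cl a)) (j : ℕ) : ∃ N, NilL (a, j) N := by
  induction j using Nat.strong_induction_on with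
  | _ j ih =>
    classical
    obtain ⟨K, hK⟩ := ha
    have h1 := (power_letters a j K).2
    have hz : (op (a, 0) ^ K) (vac : V) ∈ C2 V := by
      rw [← cl_eq_zero, cl_pow, hK]
    have h2 : op (a, j) ^ K ∈ WS (low a j) (j * K) 1 := by
      have e : op (a, j) ^ K = op ((op (a, 0) ^ K) (vac : V), j * K) -
        (op ((op (a, 0) ^ K) (vac : V), j * K) - op (a, j) ^ K) := by abel
      rw [e]
      exact Submodule.sub_mem _ (U_le_WS _ _ _ (op_C2 hz _)) h1
    let N : V × ℕ → ℕ := fun s => if h : s.2 < j then (ih s.2 h).choose else 0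
    have hN : ∀ s ∈ low a j, NilL s (N s) := by
      intro s hs
      obtain ⟨i, hi, rfl⟩ := Finset.mem_image.1 hs
      rw [Finset.mem_range] at hi
      have : N (a, i) = (ih i hi).choose := by
        simp [N, hi]
      rw [this]
      exact (ih i hi).choose_spec
    set c := ∑ s ∈ low a j, N s + 1 with hc
    have h3 := WS_pow h2 c
    rw [mul_one] at h3
    have h4 := WS_nil hN (show ∑ s ∈ low a j, N s < c by omega) h3
    refine ⟨K * c, ?_⟩
    unfold NilL
    rw [pow_mul]
    have e : c * (j * K) + 1 = K * c * (a, j).2 + 1 := by simp only; ring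
    rw [← e]
    exact h4

end

end Run7.h206
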