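import Pool.Agent.Run7.h206.Basic

/-!
Zhu's algebra `R_V = V / C_2(V)`: a commutative ring with a Poisson bracket.
-/

namespace Run7.h206

open VertexAlgebra

section

variable (V : Type*) [AddCommGroup V] [Module ℂ V] [VertexAlgebra V]

/-- `C_2(V)`, the span of all `a_(-2) b`. -/
def C2 : Submodule ℂ V := Submodule.span ℂ {x | ∃ a b : V, x = nprod (-2) a b}

/-- Zhu's algebra `R_V = V / C_2(V)`. -/
abbrev RV : Type _ := V ⧸ C2 V

variable {V}

theorem nprod_mem_C2 (a b : V) {n : ℤ} (hn : n ≤ -2) : nprod n a b ∈ C2 V := by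
  obtain ⟨k, hk⟩ : ∃ k : ℕ, n = -2 - k := ⟨(-2 - n).toNat, by omega⟩
  subst hk
  clear hn
  induction k generalizing a with
  | zero => exact Submodule.subset_span ⟨a, b, by simp⟩
  | succ k ih =>
    have h := T_mode a b (-2 - k)
    have h2 : nprod (-2 - (k : ℤ) - 1) a b = ((2 + k : ℂ))⁻¹ • nprod (-2 - k) (T V a) b := by
      rw [h, smul_smul]
      have : ((2 + k : ℂ))⁻¹ * -(((-2 - k : ℤ)) : ℂ) = 1 := by
        push_cast
        have : (2 + k : ℂ) ≠ 0 := by
          have : ((2 + k : ℕ) : ℂ) ≠ 0 := by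
            exact_mod_cast (by omega : (2 + k) ≠ 0)
          simpa using this
        field_simp
        ring
      rw [this, one_smul]
    have e : (-2 - ((k + 1 : ℕ) : ℤ)) = -2 - (k : ℤ) - 1 := by push_cast; ring
    rw [e, h2]
    exact (C2 V).smul_mem _ (ih (T V a))

theorem nprod_C2_right (a : V) {n : ℤ} (hn : n ≤ 0) {x : V} (hx : x ∈ C2 V) :
    nprod n a x ∈ C2 V := by
  induction hx using Submodule.span_induction with
  | mem x h =>
    obtain ⟨b, c, rfl⟩ := h
    have h := comm a b c n (-2)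
    rw [sub_eq_iff_eq_add] at h
    rw [h]
    refine (C2 V).add_mem (finsum_mem_sub fun i => (C2 V).smul_mem _ (nprod_mem_C2 _ _ (by omega)))
      (nprod_mem_C2 _ _ (le_refl _))
  | zero => simp
  | add x y _ _ hx hy => rw [map_add]; exact (C2 V).add_mem hx hy
  | smul c x _ hx => rw [map_smul]; exact (C2 V).smul_mem _ hx

theorem nprod_C2_left {n : ℤ} (hn : n ≤ 0) {x : V} (hx : x ∈ C2 V) (c : V) :
    nprod n x c ∈ C2 V := by
  induction hx using Submodule.span_induction with
  | mem x h =>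
    obtain ⟨a, b, rfl⟩ := h
    rw [iter]
    refine finsum_mem_sub fun i => (C2 V).smul_mem _ ((C2 V).sub_mem ?_ ?_)
    · exact nprod_mem_C2 _ _ (by omega)
    · exact (C2 V).smul_mem _ (nprod_mem_C2 _ _ (by omega))
  | zero => simp
  | add x y _ _ hx hy => rw [map_add, LinearMap.add_apply]; exact (C2 V).add_mem hx hy
  | smul c x _ hx => rw [map_smul, LinearMap.smul_apply]; exact (C2 V).smul_mem _ hx

/-- commutativity modulo `C_2(V)` -/
theorem comm_mod (a b : V) : nprod (-1) a b - nprod (-1) b a ∈ C2 V := by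
  have h := comm a b (vac : V) (-1) (-1)
  rw [vac_right, vac_right] at h
  rw [h]
  exact finsum_mem_sub fun i => (C2 V).smul_mem _ (nprod_mem_C2 _ _ (by omega))

/-- the commutator formula at `l = 0` -/
theorem comm_zero (a b c : V) (m : ℤ) :
    nprod 0 a (nprod m b c) = nprod m (nprod 0 a b) c + nprod m b (nprod 0 a c) := by
  have h := comm a b c 0 m
  rw [finsum_eq_single _ 0] at h
  · rw [sub_eq_iff_eq_add] at h
    rw [h]; simp [bc_zero]
  · intro i hi
    obtain ⟨j, rfl⟩ := Nat.exists_eq_succ_of_ne_zero hi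
    simp [bc_zero_succ]

/-- antisymmetry of the bracket modulo `C_2(V)` -/
theorem skew_mod (a b : V) : nprod 0 a b + nprod 0 b a ∈ C2 V := by
  have h := skew a b 0
  have hfin : (Function.support fun i : ℕ =>
      (-1 : ℂ) ^ i • nprod (-1 - (i : ℤ)) (nprod (0 + i) a b) (vac : V)).Finite := by
    obtain ⟨N, hN⟩ := trunc a b
    refine (Set.finite_Iio N.toNat).subset fun i hi => ?_
    simp only [Set.mem_Iio]
    by_contra hc
    apply hi
    simp only
    rw [hN _ (by omega)]
    simp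
  rw [finsum_eq_zero_add hfin] at h
  have h2 : nprod 0 a b + nprod 0 b a = - ∑ᶠ i : ℕ, (-1 : ℂ) ^ (i + 1) •
      nprod (-1 - ((i + 1 : ℕ) : ℤ)) (nprod (0 + ((i + 1 : ℕ) : ℤ)) a b) (vac : V) := by
    rw [h]
    simp [vac_right]
  rw [h2]
  refine (C2 V).neg_mem (finsum_mem_sub fun i => (C2 V).smul_mem _ (nprod_mem_C2 _ _ ?_))
  push_cast; omega

/-- associativity modulo `C_2(V)` -/
theorem assoc_mod (a b c : V) :
    nprod (-1) (nprod (-1) a b) c - nprod (-1) a (nprod (-1) b c) ∈ C2 V := by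
  have hfin : (Function.support fun i : ℕ => ((-1 : ℂ) ^ i * bc (-1) i) •
      (nprod (-1 - (i : ℤ)) a (nprod (-1 + i) b c)
        - (-1 : ℂ) ^ (-1 : ℤ) • nprod (-1 + (-1) - (i : ℤ)) b (nprod (i : ℤ) a c))).Finite := by
    obtain ⟨N, hN⟩ := trunc b c
    obtain ⟨M, hM⟩ := trunc a c
    refine (Set.finite_Iio (max (N + 1).toNat M.toNat)).subset fun i hi => ?_
    simp only [Set.mem_Iio]
    by_contra hc
    rw [not_lt, max_le_iff] at hc
    apply hi
    simp only
    rw [hN _ (by omega), hM _ (by omega)]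
    simp
  rw [iter, finsum_eq_zero_add hfin]
  have e : ((-1 : ℂ) ^ 0 * bc (-1) 0) •
      (nprod (-1 - ((0 : ℕ) : ℤ)) a (nprod (-1 + ((0 : ℕ) : ℤ)) b c)
        - (-1 : ℂ) ^ (-1 : ℤ) • nprod (-1 + (-1) - ((0 : ℕ) : ℤ)) b (nprod ((0 : ℕ) : ℤ) a c)) =
      nprod (-1) a (nprod (-1) b c) + nprod (-2) b (nprod 0 a c) := by
    simp [bc_zero]
  have key : ∀ x y z : V, x + y + z - x = y + z := fun x y z => by abel
  rw [e, key]
  refine (C2 V).add_mem (nprod_mem_C2 _ _ (le_refl _))
    (finsum_mem_sub fun i => (C2 V).smul_mem _ ((C2 V).sub_mem ?_ ((C2 V).smul_mem _ ?_)))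
  · exact nprod_mem_C2 _ _ (by push_cast; omega)
  · exact nprod_mem_C2 _ _ (by push_cast; omega)

variable (V) in
/-- the bilinear map `(a, b) ↦ class of a_(n) b` on `R_V`, for `n ≤ 0` -/
noncomputable def mulHom (n : ℤ) (hn : n ≤ 0) : RV V →ₗ[ℂ] RV V →ₗ[ℂ] RV V :=
  (C2 V).liftQ
    { toFun := fun a => (C2 V).mapQ (C2 V) (nprod n a) (fun _ hx => nprod_C2_right a hn hx)
      map_add' := fun a b => by
        ext x
        simp
      map_smul' := fun r a => by
        ext x
        simp }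
    (fun x hx => by
      rw [LinearMap.mem_ker]
      ext y
      simp only [LinearMap.coe_mk, AddHom.coe_mk, LinearMap.coe_comp, Function.comp_apply,
        Submodule.mkQ_apply, Submodule.mapQ_apply, LinearMap.zero_apply]
      rw [Submodule.Quotient.mk_eq_zero]
      exact nprod_C2_left hn hx y)

/-- the class in `R_V` of an element of `V` -/
noncomputable abbrev cl : V →ₗ[ℂ] RV V := (C2 V).mkQ

theorem cl_surj (x : RV V) : ∃ a : V, cl a = x := (C2 V).mkQ_surjective x

theorem cl_eq_iff {a b : V} : cl a = cl b ↔ a - b ∈ C2 V := Submodule.Quotient.eq _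

theorem cl_eq_zero {a : V} : cl a = 0 ↔ a ∈ C2 V := Submodule.Quotient.mk_eq_zero _

theorem mulHom_cl (n : ℤ) (hn : n ≤ 0) (a b : V) :
    mulHom V n hn (cl a) (cl b) = cl (nprod n a b) := rfl

noncomputable instance : Mul (RV V) := ⟨fun x y => mulHom V (-1) (by norm_num) x y⟩

noncomputable instance : One (RV V) := ⟨cl vac⟩

theorem mul_cl (a b : V) : cl a * cl b = cl (nprod (-1) a b) := rfl

theorem one_eq : (1 : RV V) = cl vac := rfl

/-- `R_V` is a commutative ring with product `cl a * cl b = cl (a_(-1) b)`. -/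
noncomputable instance instCommRingRV : CommRing (RV V) where
  __ := (inferInstance : AddCommGroup (RV V))
  __ := (inferInstance : Mul (RV V))
  __ := (inferInstance : One (RV V))
  left_distrib x y z := map_add (mulHom V (-1) (by norm_num) x) y z
  right_distrib x y z := by
    change mulHom V (-1) (by norm_num) (x + y) z = _
    rw [map_add]; rfl
  zero_mul x := by
    change mulHom V (-1) (by norm_num) 0 x = _
    rw [map_zero]; rfl
  mul_zero x := map_zero (mulHom V (-1) (by norm_num) x)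
  mul_assoc x y z := by
    obtain ⟨a, rfl⟩ := cl_surj x
    obtain ⟨b, rfl⟩ := cl_surj y
    obtain ⟨c, rfl⟩ := cl_surj z
    exact cl_eq_iff.2 (assoc_mod a b c)
  one_mul x := by
    obtain ⟨a, rfl⟩ := cl_surj x
    rw [one_eq, mul_cl, vac_left]; simp
  mul_one x := by
    obtain ⟨a, rfl⟩ := cl_surj x
    rw [one_eq, mul_cl, vac_right]
  mul_comm x y := by
    obtain ⟨a, rfl⟩ := cl_surj x
    obtain ⟨b, rfl⟩ := cl_surj y
    exact cl_eq_iff.2 (comm_mod a b)

noncomputable instance instAlgebraRV : Algebra ℂ (RV V) :=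
  Algebra.ofModule
    (fun r x y => by
      obtain ⟨a, rfl⟩ := cl_surj x
      obtain ⟨b, rfl⟩ := cl_surj y
      rw [← map_smul, mul_cl, mul_cl, map_smul, LinearMap.smul_apply, map_smul])
    (fun r x y => by
      obtain ⟨a, rfl⟩ := cl_surj x
      obtain ⟨b, rfl⟩ := cl_surj y
      rw [← map_smul, mul_cl, mul_cl, map_smul, map_smul])

/-- the Poisson bracket of `R_V`: `{cl a, cl b} = cl (a_(0) b)` -/
noncomputable def brk (x y : RV V) : RV V := mulHom V 0 (le_refl _) x y

theorem brk_cl (a b : V) : brk (cl a) (cl b) = cl (nprod 0 a b) := rfl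

theorem brk_add (x y z : RV V) : brk x (y + z) = brk x y + brk x z := map_add _ _ _

theorem brk_smul (r : ℂ) (x y : RV V) : brk x (r • y) = r • brk x y := map_smul _ _ _

theorem brk_skew (x y : RV V) : brk x y = - brk y x := by
  obtain ⟨a, rfl⟩ := cl_surj x
  obtain ⟨b, rfl⟩ := cl_surj y
  rw [brk_cl, brk_cl, ← map_neg]
  refine cl_eq_iff.2 ?_
  rw [sub_neg_eq_add]
  exact skew_mod a b

theorem brk_mul (x y z : RV V) : brk x (y * z) = brk x y * z + y * brk x z := by
  obtain ⟨a, rfl⟩ := cl_surj x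
  obtain ⟨b, rfl⟩ := cl_surj y
  obtain ⟨c, rfl⟩ := cl_surj z
  rw [mul_cl, brk_cl, brk_cl, brk_cl, mul_cl, mul_cl, comm_zero, map_add]

theorem brk_zero (x : RV V) : brk x 0 = 0 := map_zero _

/-- An ideal of `R_V` is a Poisson ideal if it is stable under all brackets. -/
def IsPoissonIdeal (I : Ideal (RV V)) : Prop := ∀ x y : RV V, y ∈ I → brk x y ∈ I

/-- the derivation `{x, -}` of `R_V` -/
noncomputable def ham (x : RV V) : Derivation ℂ (RV V) (RV V) :=
  Derivation.mk' (mulHom V 0 (le_refl _) x) (fun y z => by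
    have := brk_mul x y z
    change brk x (y * z) = y • brk x z + z • brk x y
    rw [this, smul_eq_mul, smul_eq_mul]; ring)

theorem ham_apply (x y : RV V) : ham x y = brk x y := rfl

end

end Run7.h206
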